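import Mathlib

/-!
# MP_44458a_lc : insertion into 2-dense m-ary search trees in O(log N) steps (project LGI)

Definitions: trees by height, density, the insertion program with its step counter.
-/

namespace LGI

/-! ## 1. Trees -/

/-- A tree of height `h`, keys in `α`: height `0` is a leaf, a node of height `h + 1` has a first
child and a list of pairs (key, next child). -/
@[reducible] def Tr (α : Type) : ℕ → Type
  | 0 => Unit
  | h + 1 => Tr α h × List (α × Tr α h)

/-- The list of the children of a node. -/
def kids {α : Type} {h : ℕ} (t : Tr α (h + 1)) : List (Tr α h) := t.1 :: t.2.map Prod.snd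

/-- The number of children (leaves get the value `m`). -/
def szT {α : Type} (m : ℕ) : (h : ℕ) → Tr α h → ℕ
  | 0, _ => m
  | _ + 1, t => (kids t).length

/-- Saturated: a leaf or a node with exactly `m` children. -/
def satT {α : Type} (m : ℕ) (h : ℕ) (t : Tr α h) : Bool := decide (szT m h t = m)

/-- The condition on the children of a node; `l` lists which of them are saturated. -/
def Ok (m r : ℕ) (l : List Bool) : Prop :=
  1 ≤ l.length ∧ l.length ≤ m ∧
    (l.count false = 0 ∨ (l.count false = 1 ∧ 2 ≤ l.length) ∨ r ≤ l.count true)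

instance (m r : ℕ) (l : List Bool) : Decidable (Ok m r l) := by unfold Ok; infer_instance

/-- Every node satisfies the condition. -/
def Dn {α : Type} (m r : ℕ) : (h : ℕ) → Tr α h → Prop
  | 0, _ => True
  | h + 1, t => Ok m r ((kids t).map (satT m h)) ∧ ∀ c ∈ kids t, Dn m r h c

/-- The keys from left to right. -/
def inorder {α : Type} : (h : ℕ) → Tr α h → List α
  | 0, _ => []
  | h + 1, t => inorder h t.1 ++ t.2.flatMap (fun p => p.1 :: inorder h p.2)

/-- `r`-dense `m`-ary search trees of height `h + 1`. -/
def Dense {α : Type} [LinearOrder α] (m r h : ℕ) (t : Tr α (h + 1)) : Prop :=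
  2 ≤ (kids t).length ∧ Dn m r (h + 1) t ∧ (inorder (h + 1) t).Pairwise (· < ·)

/-! ## 2. The program -/

section

variable {α : Type}

/-- A tree together with the key to its left. -/
abbrev P (α : Type) (h : ℕ) : Type := α × Tr α h

/-- The children of a node, each with the key to its left. -/
def opn {h : ℕ} (p : P α (h + 1)) : List (P α h) := (p.1, p.2.1) :: p.2.2

instance instTr [Inhabited α] : (h : ℕ) → Inhabited (Tr α h)
  | 0 => ⟨()⟩
  | h + 1 => ⟨((instTr h).default, [])⟩

instance [Inhabited α] (h : ℕ) : Inhabited (P α h) := ⟨(default, default)⟩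

/-- The node with given children. -/
def cls [Inhabited α] {h : ℕ} : List (P α h) → P α (h + 1)
  | [] => default
  | p :: l => (p.1, (p.2, l))

/-- Number of children. -/
def sz (m h : ℕ) (p : P α h) : ℕ := szT m h p.2

/-- Which letters are saturated. -/
def pat (m : ℕ) (q : List ℕ) : List Bool := q.map (fun n => decide (n = m))

/-- The three restructuring goals. -/
inductive Goal
  | R | L | T
  deriving DecidableEq

/-- Number of nodes a goal acts on. -/
def ar : Goal → ℕ
  | .T => 3
  | _ => 2

/-- Possible results of a goal (`true` = saturated). -/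
def outs : Goal → List (List Bool)
  | .R => [[true, false], [true]]
  | .L => [[false, true], [true]]
  | .T => [[true, false, true], [true, true]]

/-- Number of children needed for the small result. -/
def tgt (m : ℕ) : Goal → ℕ
  | .T => 2 * m
  | _ => m

/-- Cut a list of children into the lists of children of two or three nodes. -/
def cut {β : Type} (m : ℕ) (g : Goal) (W : List β) : List (List β) :=
  match g with
  | .R => if W.length ≤ m then [W] else [W.take m, W.drop m]
  | .L => if W.length ≤ m then [W] else [W.take (W.length - m), W.drop (W.length - m)]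
  | .T => if W.length ≤ 2 * m then [W.take m, W.drop m] else
      [W.take m, (W.drop m).take (W.length - 2 * m), (W.drop m).drop (W.length - 2 * m)]

/-- All pieces satisfy the condition. -/
def OkCut (m : ℕ) (g : Goal) (l : List Bool) : Prop := ∀ x ∈ cut m g l, Ok m 2 x

instance (m : ℕ) (g : Goal) (l : List Bool) : Decidable (OkCut m g l) := by
  unfold OkCut; infer_instance

/-- A goal applies to nodes with the given numbers of children. -/
def App (m : ℕ) : Goal → List ℕ → Prop
  | .R, [a, b] => ¬ (a = m ∧ b = m) ∧ m < a + b ∧ (m = 3 → a = m ∨ b = m)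
  | .L, [a, b] => ¬ (a = m ∧ b = m) ∧ m < a + b ∧ (m = 3 → a = m ∨ b = m)
  | .T, [a, b, c] => a ≠ m ∧ b ≠ m ∧ c ≠ m ∧ 2 * m < a + b + c ∧ 4 ≤ m
  | _, _ => False

instance (m : ℕ) (g : Goal) (l : List ℕ) : Decidable (App m g l) := by
  unfold App; split <;> infer_instance

/-- A good window: position and goal. -/
def Gw (m : ℕ) (g : Goal) (q : List ℕ) (w : ℕ × Goal) : Prop :=
  App m w.2 ((q.drop w.1).take (ar w.2)) ∧
    ∀ o ∈ outs w.2, OkCut m g (pat m (q.take w.1) ++ o ++ pat m (q.drop (w.1 + ar w.2)))

instance (m : ℕ) (g : Goal) (q : List ℕ) (w : ℕ × Goal) : Decidable (Gw m g q w) := by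
  unfold Gw; infer_instance

/-- Look for a window. -/
def plan (m : ℕ) (g : Goal) (q : List ℕ) : Option (ℕ × Goal) :=
  if OkCut m g (pat m q) then none else
    ((List.range q.length).flatMap (fun i => [(i, Goal.R), (i, Goal.L), (i, Goal.T)])).find?
      (fun w => decide (Gw m g q w))

/-- Apply `f` to the first window of length `k` where it is defined. -/
def rwf {β : Type} (k : ℕ) (f : List β → Option (List β)) : List β → Option (List β)
  | [] => none
  | a :: l => match f ((a :: l).take k) with
    | some v => some (v ++ (a :: l).drop k)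
    | none => (rwf k f l).map (fun v => a :: v)

/-- Merge two unsaturated neighbours. -/
def f2 [Inhabited α] (m : ℕ) {h : ℕ} : List (P α (h + 1)) → Option (List (P α (h + 1)))
  | [a, b] => if sz m (h + 1) a ≠ m ∧ sz m (h + 1) b ≠ m ∧
      sz m (h + 1) a + sz m (h + 1) b ≤ m then some [cls (opn a ++ opn b)] else none
  | _ => none

/-- A position where a list of children can be cut. -/
def findj (m : ℕ) (l : List Bool) : Option ℕ :=
  (List.range (l.length + 1)).find? (fun j => decide (Ok m 2 (l.take j) ∧ Ok m 2 (l.drop j)))

/-- Replace three unsaturated neighbours by two nodes. -/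
def f3 [Inhabited α] (m : ℕ) {h : ℕ} : List (P α (h + 1)) → Option (List (P α (h + 1)))
  | [a, b, c] => if sz m (h + 1) a ≠ m ∧ sz m (h + 1) b ≠ m ∧ sz m (h + 1) c ≠ m ∧
      sz m (h + 1) a + sz m (h + 1) b + sz m (h + 1) c ≤ 2 * m then
        let X := opn a ++ opn b ++ opn c
        (findj m (pat m (X.map (sz m h)))).map (fun j => [cls (X.take j), cls (X.drop j)])
      else none
  | _ => none

/-- One free reduction. -/
def red1 [Inhabited α] (m : ℕ) : (h : ℕ) → List (P α h) → Option (List (P α h))
  | 0, _ => none
  | _ + 1, W => match rwf 2 (f2 m) W with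
    | some v => some v
    | none => rwf 3 (f3 m) W

/-- At most `n` free reductions. -/
def redn [Inhabited α] (m h : ℕ) : ℕ → List (P α h) → List (P α h)
  | 0, W => W
  | n + 1, W => match red1 m h W with
    | some v => redn m h n v
    | none => W

/-- Steps charged for working on nodes with `n` children altogether, each of which has at most `m`
children. -/
def chg (m n : ℕ) : ℕ := (n + 1) * (m + 1)

/-- The restructuring procedure, with its number of steps. -/
def op [Inhabited α] (m : ℕ) : (h : ℕ) → Goal → List (P α h) → List (P α h) × ℕ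
  | 0, _, F => (F, chg m 0)
  | h + 1, g, F =>
    let W0 := F.flatMap opn
    let W := redn m h (W0.length - tgt m g) W0
    match plan m g (W.map (sz m h)) with
    | none => ((cut m g W).map cls, chg m W0.length)
    | some w =>
      let r := op m h w.2 ((W.drop w.1).take (ar w.2))
      ((cut m g (W.take w.1 ++ r.1 ++ W.drop (w.1 + ar w.2))).map cls,
        r.2 + chg m W0.length)

/-- Merge two nodes. -/
def mrg [Inhabited α] : (h : ℕ) → P α h → P α h → P α h
  | 0, a, _ => a
  | _ + 1, a, b => cls (opn a ++ opn b)

/-- Move the unary node `c` to the right until it meets an unsaturated node. -/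
def pushR [Inhabited α] (m h : ℕ) (c : P α h) : List (P α h) → List (P α h) × ℕ
  | [] => ([c], chg m m)
  | y :: ys => if sz m h y ≠ m then (mrg h c y :: ys, chg m m) else
      let r := op m h .R [c, y]
      match r.1 with
      | [s, c'] => let e := pushR m h c' ys; (s :: e.1, r.2 + e.2 + chg m m)
      | l => (l ++ ys, r.2 + chg m m)

/-- Move the unary node `c` to the left (the list is reversed). -/
def pushL [Inhabited α] (m h : ℕ) (c : P α h) : List (P α h) → List (P α h) × ℕ
  | [] => ([c], chg m m)
  | y :: ys => if sz m h y ≠ m then (mrg h y c :: ys, chg m m) else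
      let r := op m h .L [y, c]
      match r.1 with
      | [c', s] => let e := pushL m h c' ys; (s :: e.1, r.2 + e.2 + chg m m)
      | l => (l.reverse ++ ys, r.2 + chg m m)

/-- Result of an insertion below a node: a node, or two ways to replace it by two nodes. -/
inductive Res (β : Type)
  | fit (p : β)
  | over (a b : List β)

/-- The index of the child to visit. -/
def loc {β : Type} [LinearOrder α] (x : α) (l : List (α × β)) : ℕ :=
  (l.tail.takeWhile (fun p => decide (p.1 < x))).length

/-- Insertion. -/
def ins [LinearOrder α] [Inhabited α] (m : ℕ) (x : α) : (h : ℕ) → P α h → Res (P α h) × ℕ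
  | 0, p => (.over [p, (x, ())] [p, (x, ())], chg m 0)
  | h + 1, p =>
    let W := opn p
    let j := loc x W
    let A := W.take j
    let B := W.drop (j + 1)
    let r := ins m x h (W.getD j default)
    match r.1 with
    | .fit c => (.fit (cls (A ++ [c] ++ B)), r.2 + chg m W.length)
    | .over a b =>
      let q := pat m (W.map (sz m h))
      if q.count false = 0 ∧ W.length = m then
        let V := A ++ (if j = 0 then b else a) ++ B
        (.over [cls (V.take 1), cls (V.drop 1)] [cls (V.take m), cls (V.drop m)],
          r.2 + chg m W.length)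
      else if W.length < m ∧ (q.count false = 0 ∨ 2 ≤ q.count true) then
        (.fit (cls (A ++ a ++ B)), r.2 + chg m W.length)
      else if B.any (fun y => decide (sz m h y ≠ m)) then
        let e := pushR m h (b.getD 1 default) B
        (.fit (cls (A ++ [b.getD 0 default] ++ e.1)), r.2 + chg m W.length + e.2)
      else
        let e := pushL m h (a.getD 0 default) A.reverse
        (.fit (cls (e.1.reverse ++ [a.getD 1 default] ++ B)), r.2 + chg m W.length + e.2)

/-- The whole insertion procedure: new height minus one, new tree, number of steps. -/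
def insertT [LinearOrder α] [Inhabited α] (m : ℕ) (x : α) (h : ℕ) (t : Tr α (h + 1)) :
    (Σ h' : ℕ, Tr α (h' + 1)) × ℕ :=
  let r := ins m x (h + 1) (x, t)
  match r.1 with
  | .fit p => (⟨h, p.2⟩, r.2 + chg m 0)
  | .over a _ => (⟨h + 1, (cls a).2⟩, r.2 + chg m 0)

end

/-! ## 3. Specifications -/

/-- Keys of a tree together with the key to its left. -/
def flat {α : Type} (h : ℕ) (p : P α h) : List α := p.1 :: inorder h p.2

/-- What `op` does. -/
def OpSpec (m : ℕ) : Prop := ∀ (α : Type) [Inhabited α] (h : ℕ) (g : Goal) (F : List (P α h)),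
  (∀ p ∈ F, Dn m 2 h p.2) → App m g (F.map (sz m h)) →
    (∀ p ∈ (op m h g F).1, Dn m 2 h p.2) ∧
    (op m h g F).1.flatMap (flat h) = F.flatMap (flat h) ∧
    pat m ((op m h g F).1.map (sz m h)) ∈ outs g ∧
    ((op m h g F).1.map (sz m h)).sum ≤ (F.map (sz m h)).sum ∧
    (op m h g F).2 ≤ (h + 1) * chg m (3 * m)

/-- `l'` is the list of keys `l` with `x` inserted at its place (the first entry of `l` is only a
left border). -/
def Insd {α : Type} [LinearOrder α] (x : α) (l l' : List α) : Prop :=
  ∃ l1 l2, l1 ≠ [] ∧ l = l1 ++ l2 ∧ l' = l1 ++ x :: l2 ∧ (∀ y ∈ l1.tail, y < x) ∧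
    ∀ y ∈ l2, x < y

/-- A node of height `h + 1` has at least `2 ^ h` leaves. -/
def Depth (m : ℕ) : Prop := ∀ (α : Type) (h : ℕ) (t : Tr α (h + 1)), Dn m 2 (h + 1) t →
  2 ^ h ≤ (inorder (h + 1) t).length + 1

/-- What the whole procedure does. -/
def Final (m : ℕ) : Prop := ∀ (α : Type) [LinearOrder α] [Inhabited α] (h : ℕ)
  (t : Tr α (h + 1)) (x : α), Dense m 2 h t → x ∉ inorder (h + 1) t →
    Dense m 2 (insertT m x h t).1.1 (insertT m x h t).1.2 ∧
    (∃ l1 l2, inorder (h + 1) t = l1 ++ l2 ∧
      inorder ((insertT m x h t).1.1 + 1) (insertT m x h t).1.2 = l1 ++ x :: l2) ∧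
    (insertT m x h t).2 ≤ 4 * (m + 1) ^ 3 * (Nat.log 2 ((inorder (h + 1) t).length + 1) + 3)

end LGI
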