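import Pool.Agent.LGI.Base

/-!
# LGI: a node of height `h + 1` of a 2-dense tree has at least `2 ^ h` leaves
-/

namespace LGI

variable {α : Type}

/-- the number of the leaves of a node is the sum over its children -/
theorem leaves_eq (h : ℕ) (t : Tr α (h + 1)) :
    (inorder (h + 1) t).length + 1 = ((kids t).map (fun c => (inorder h c).length + 1)).sum := by
  obtain ⟨c, l⟩ := t
  show (inorder h c ++ l.flatMap (fun p => p.1 :: inorder h p.2)).length + 1 =
    ((c :: l.map Prod.snd).map (fun c => (inorder h c).length + 1)).sum
  rw [List.map_cons, List.sum_cons, List.length_append]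
  have key : ∀ l : List (α × Tr α h), (l.flatMap (fun p => p.1 :: inorder h p.2)).length =
      ((l.map Prod.snd).map (fun c => (inorder h c).length + 1)).sum := by
    intro l
    induction l with
    | nil => rfl
    | cons a l ih =>
      rw [List.flatMap_cons, List.length_append, List.map_cons, List.map_cons, List.sum_cons, ih,
        List.length_cons]
  rw [key]
  omega

/-- the saturated ones among the children -/
theorem count_mul_le (m h : ℕ) (l : List (Tr α h)) (b : ℕ)
    (H : ∀ c ∈ l, satT m h c = true → b ≤ (inorder h c).length + 1) :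
    (l.map (satT m h)).count true * b ≤ (l.map (fun c => (inorder h c).length + 1)).sum := by
  induction l with
  | nil => simp
  | cons a l ih =>
    have h1 := ih (fun c hc => H c (List.mem_cons_of_mem _ hc))
    rw [List.map_cons, List.map_cons, List.sum_cons, List.count_cons]
    rcases Bool.eq_false_or_eq_true (satT m h a) with hs | hs
    · have h2 := H a List.mem_cons_self hs
      rw [hs]
      simp only [beq_self_eq_true, if_true]
      rw [Nat.add_mul, one_mul]
      omega
    · rw [hs]
      have h4 : (if (false == true) = true then 1 else 0) = 0 := rfl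
      rw [h4, Nat.add_zero]
      omega

/-- counting the entries of a list of truth values -/
theorem count_add (l : List Bool) : l.count true + l.count false = l.length := by
  induction l with
  | nil => rfl
  | cons a l ih =>
    cases a <;> simp only [List.count_cons, List.length_cons] <;> simp <;> omega

theorem Ok.one_le {m : ℕ} {l : List Bool} (h : Ok m 2 l) : 1 ≤ l.count true := by
  obtain ⟨h1, _, h3⟩ := h
  have := count_add l
  omega

theorem Ok.two_le {m : ℕ} {l : List Bool} (hm : 3 ≤ m) (h : Ok m 2 l) (hl : l.length = m) :
    2 ≤ l.count true := by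
  obtain ⟨h1, _, h3⟩ := h
  have := count_add l
  omega

/-- saturated nodes -/
theorem sat_leaves {m : ℕ} (hm : 3 ≤ m) (h : ℕ) : ∀ t : Tr α h, Dn m 2 h t → satT m h t = true →
    2 ^ h ≤ (inorder h t).length + 1 := by
  induction h with
  | zero =>
    intro t _ _
    simp
  | succ h ih =>
    intro t ht hs
    obtain ⟨hok, hd⟩ := ht
    have hlen : ((kids t).map (satT m h)).length = m := by
      rw [List.length_map]
      have : szT m (h + 1) t = m := of_decide_eq_true hs
      exact this
    have h2 := hok.two_le hm hlen
    have h3 := count_mul_le m h (kids t) (2 ^ h) (fun c hc hcs => ih c (hd c hc) hcs)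
    rw [leaves_eq]
    calc 2 ^ (h + 1) = 2 * 2 ^ h := by ring
      _ ≤ ((kids t).map (satT m h)).count true * 2 ^ h := Nat.mul_le_mul_right _ h2
      _ ≤ _ := h3

/-- A node of height `h + 1` has at least `2 ^ h` leaves. -/
theorem depth {m : ℕ} (hm : 3 ≤ m) : Depth m := by
  intro α h t ht
  obtain ⟨hok, hd⟩ := ht
  have h2 := hok.one_le
  have h3 := count_mul_le m h (kids t) (2 ^ h) (fun c hc hcs => sat_leaves hm h c (hd c hc) hcs)
  rw [leaves_eq]
  calc 2 ^ h = 1 * 2 ^ h := (one_mul _).symm
    _ ≤ ((kids t).map (satT m h)).count true * 2 ^ h := Nat.mul_le_mul_right _ h2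
    _ ≤ _ := h3

end LGI
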