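import Pool.Agent.LGI.Red

/-!
# LGI: the choice of the child
-/

namespace LGI

variable {α : Type}

/-- inserting below a child -/
theorem insd_through [LinearOrder α] {x c : α} {I l' Af Bf : List α}
    (h1 : ∀ y ∈ (Af ++ [c]).tail, y < x) (h2 : ∀ y ∈ Bf, x < y) (hi : Insd x (c :: I) l') :
    Insd x (Af ++ (c :: I) ++ Bf) (Af ++ l' ++ Bf) := by
  obtain ⟨l1, l2, hne, e1, e2, h3, h4⟩ := hi
  obtain ⟨b, t, rfl⟩ := List.exists_cons_of_ne_nil hne
  have hb : c = b := by
    have := congrArg List.head? e1
    simpa using this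
  subst hb
  refine ⟨Af ++ (c :: t), l2 ++ Bf, by simp, ?_, ?_, ?_, ?_⟩
  · rw [e1]
    simp only [List.append_assoc, List.cons_append]
  · rw [e2]
    simp only [List.append_assoc, List.cons_append]
  · intro y hy
    have e3 : Af ++ (c :: t) = (Af ++ [c]) ++ t := by
      simp only [List.append_assoc, List.cons_append, List.nil_append]
    rw [e3, List.tail_append_of_ne_nil (by simp)] at hy
    rcases List.mem_append.1 hy with hy | hy
    · exact h1 y hy
    · exact h3 y hy
  · intro y hy
    rcases List.mem_append.1 hy with hy | hy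
    · exact h4 y hy
    · exact h2 y hy

/-- the choice of the child and insertion below it -/
theorem loc_split [LinearOrder α] {h : ℕ} (x : α) (W : List (P α h)) (hW : W ≠ [])
    (hs : (W.flatMap (flat h)).tail.Pairwise (· < ·)) (hx : x ∉ (W.flatMap (flat h)).tail) :
    ∃ (A : List (P α h)) (c : P α h) (B : List (P α h)), W = A ++ c :: B ∧ loc x W = A.length ∧
      W.take (loc x W) = A ∧ W.drop (loc x W + 1) = B ∧ (∀ d, W.getD (loc x W) d = c) ∧
      (inorder h c.2).Pairwise (· < ·) ∧ x ∉ inorder h c.2 ∧
      ∀ l', Insd x (flat h c) l' →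
        Insd x (W.flatMap (flat h)) (A.flatMap (flat h) ++ l' ++ B.flatMap (flat h)) := by
  obtain ⟨w0, L, rfl⟩ := List.exists_cons_of_ne_nil hW
  obtain ⟨T, hT⟩ : ∃ T, T = L.takeWhile (fun p => decide (p.1 < x)) := ⟨_, rfl⟩
  obtain ⟨B, hB⟩ : ∃ B, B = L.dropWhile (fun p => decide (p.1 < x)) := ⟨_, rfl⟩
  have hL : L = T ++ B := by
    rw [hT, hB, List.takeWhile_append_dropWhile]
  have hTx : ∀ p ∈ T, p.1 < x := by
    intro p hp
    rw [hT] at hp
    have h1 := List.mem_takeWhile_imp hp
    exact of_decide_eq_true h1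
  have hBx : ∀ b B', B = b :: B' → ¬ b.1 < x := by
    intro b B' e
    have hne : L.dropWhile (fun p => decide (p.1 < x)) ≠ [] := by
      rw [← hB, e]
      simp
    have h1 := List.head_dropWhile_not (fun p : P α h => decide (p.1 < x)) hne
    have h2 : (L.dropWhile (fun p => decide (p.1 < x))).head hne = b := by
      simp only [← hB, e, List.head_cons]
    rw [h2] at h1
    exact of_decide_eq_false h1
  obtain ⟨A, c, hAc⟩ : ∃ A c, w0 :: T = A ++ [c] :=
    ⟨(w0 :: T).dropLast, (w0 :: T).getLast (by simp), (List.dropLast_append_getLast _).symm⟩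
  have hW' : w0 :: L = A ++ c :: B := by
    rw [hL, ← List.cons_append, hAc, List.append_assoc]
    rfl
  have hlen : A.length = T.length := by
    have := congrArg List.length hAc
    simp only [List.length_cons, List.length_append, List.length_nil] at this
    omega
  have hloc : loc x (w0 :: L) = A.length := by
    show (L.takeWhile (fun p => decide (p.1 < x))).length = _
    rw [← hT, hlen]
  have hcx : A ≠ [] → c.1 < x := by
    intro hA
    apply hTx
    obtain ⟨a, A', rfl⟩ := List.exists_cons_of_ne_nil hA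
    rw [List.cons_append] at hAc
    have := (List.cons.inj hAc).2
    rw [this]
    simp
  obtain ⟨Af, hAf⟩ : ∃ Af, Af = A.flatMap (flat h) := ⟨_, rfl⟩
  obtain ⟨Bf, hBf⟩ : ∃ Bf, Bf = B.flatMap (flat h) := ⟨_, rfl⟩
  have hflat : (w0 :: L).flatMap (flat h) = Af ++ (c.1 :: inorder h c.2) ++ Bf := by
    rw [hW', List.flatMap_append, List.flatMap_cons, hAf, hBf, List.append_assoc]
    rfl
  have htail : ((w0 :: L).flatMap (flat h)).tail =
      (Af ++ [c.1]).tail ++ (inorder h c.2 ++ Bf) := by
    have e3 : Af ++ (c.1 :: inorder h c.2) ++ Bf = (Af ++ [c.1]) ++ (inorder h c.2 ++ Bf) := by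
      simp only [List.append_assoc, List.cons_append, List.nil_append]
    rw [hflat, e3, List.tail_append_of_ne_nil (by simp)]
  rw [htail] at hs hx
  obtain ⟨s1, s2, s3⟩ := List.pairwise_append.1 hs
  obtain ⟨s4, s5, s6⟩ := List.pairwise_append.1 s2
  have hxI : x ∉ inorder h c.2 := fun hh =>
    hx (List.mem_append_right _ (List.mem_append_left _ hh))
  have hxB : x ∉ Bf := fun hh =>
    hx (List.mem_append_right _ (List.mem_append_right _ hh))
  have G1 : ∀ y ∈ (Af ++ [c.1]).tail, y < x := by
    intro y hy
    by_cases hA : A = []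
    · subst hA
      rw [hAf] at hy
      simp at hy
    · have hAfne : Af ≠ [] := by
        obtain ⟨a, A', rfl⟩ := List.exists_cons_of_ne_nil hA
        rw [hAf, List.flatMap_cons]
        simp [flat]
      rw [List.tail_append_of_ne_nil hAfne] at hy s1
      rcases List.mem_append.1 hy with hy | hy
      · exact lt_trans ((List.pairwise_append.1 s1).2.2 y hy c.1 (by simp)) (hcx hA)
      · rw [List.mem_singleton] at hy
        rw [hy]
        exact hcx hA
  have G2 : ∀ y ∈ Bf, x < y := by
    intro y hy
    cases B with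
    | nil =>
      rw [hBf] at hy
      simp at hy
    | cons b B' =>
      have e4 : Bf = b.1 :: (inorder h b.2 ++ B'.flatMap (flat h)) := by
        rw [hBf, List.flatMap_cons]
        rfl
      have hb := hBx b B' rfl
      have hbx : x < b.1 := by
        refine lt_of_le_of_ne (not_lt.1 hb) fun hh => hxB ?_
        rw [e4, hh]
        exact List.mem_cons_self
      rw [e4] at hy s5
      rcases List.mem_cons.1 hy with rfl | hy
      · exact hbx
      · exact lt_trans hbx (List.rel_of_pairwise_cons s5 hy)
  refine ⟨A, c, B, hW', hloc, ?_, ?_, ?_, s4, hxI, ?_⟩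
  · rw [hloc, hW', List.take_left' rfl]
  · rw [hloc, hW', ← List.drop_drop, List.drop_left' rfl]
    rfl
  · intro d
    rw [hloc, hW']
    simp
  · intro l' hl'
    rw [hflat, ← hAf, ← hBf]
    exact insd_through G1 G2 hl'

end LGI
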