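import Pool.Agent.LGI.Push
import Pool.Agent.LGI.Loc
import Pool.Agent.LGI.Depth

/-! # Project LGI: the insertion (helper99), from the restructuring procedure -/

set_option autoImplicit false

namespace LGI

variable {α : Type}

def PushRS (m : ℕ) : Prop := ∀ (α : Type) [Inhabited α] (h : ℕ) (ys : List (P α h)) (c : P α h),
  sz m h c = 1 → Dn m 2 h c.2 → (∀ y ∈ ys, Dn m 2 h y.2) → (∃ y ∈ ys, sz m h y ≠ m) →
    (∀ y ∈ (pushR m h c ys).1, Dn m 2 h y.2) ∧
    (pushR m h c ys).1.flatMap (flat h) = flat h c ++ ys.flatMap (flat h) ∧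
    (pushR m h c ys).1.length = ys.length ∧
    (pat m (ys.map (sz m h))).count true ≤ (pat m ((pushR m h c ys).1.map (sz m h))).count true ∧
    (pushR m h c ys).2 ≤ (ys.length + 1) * ((h + 1) * chg m (3 * m) + chg m m)

def PushLS (m : ℕ) : Prop := ∀ (α : Type) [Inhabited α] (h : ℕ) (ys : List (P α h)) (c : P α h),
  sz m h c = 1 → Dn m 2 h c.2 → (∀ y ∈ ys, Dn m 2 h y.2) → (∃ y ∈ ys, sz m h y ≠ m) →
    (∀ y ∈ (pushL m h c ys).1, Dn m 2 h y.2) ∧
    (pushL m h c ys).1.reverse.flatMap (flat h) = ys.reverse.flatMap (flat h) ++ flat h c ∧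
    (pushL m h c ys).1.length = ys.length ∧
    (pat m (ys.map (sz m h))).count true ≤ (pat m ((pushL m h c ys).1.map (sz m h))).count true ∧
    (pushL m h c ys).2 ≤ (ys.length + 1) * ((h + 1) * chg m (3 * m) + chg m m)

def LocS : Prop := ∀ (α : Type) [LinearOrder α] (h : ℕ) (x : α) (W : List (P α h)), W ≠ [] →
  (W.flatMap (flat h)).tail.Pairwise (· < ·) → x ∉ (W.flatMap (flat h)).tail →
  ∃ A c B, W = A ++ c :: B ∧ loc x W = A.length ∧ W.take (loc x W) = A ∧
    W.drop (loc x W + 1) = B ∧ (∀ d, W.getD (loc x W) d = c) ∧
    (inorder h c.2).Pairwise (· < ·) ∧ x ∉ inorder h c.2 ∧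
    ∀ l', Insd x (flat h c) l' →
      Insd x (W.flatMap (flat h)) (A.flatMap (flat h) ++ l' ++ B.flatMap (flat h))

/-- the steps allowed at height `h` for a node that fits -/
def bd (m h : ℕ) : ℕ := (h + 1) * (m + 1) ^ 2 + m * (h * chg m (3 * m) + chg m m)

/-- what `ins` does -/
def Good [LinearOrder α] (m : ℕ) (x : α) (h : ℕ) (p : P α h) (r : Res (P α h) × ℕ) : Prop :=
  (∃ p', r.1 = .fit p' ∧ Dn m 2 h p'.2 ∧ sz m h p ≤ sz m h p' ∧
    Insd x (flat h p) (flat h p') ∧ r.2 ≤ bd m h) ∨
  (∃ u s s' u', r.1 = .over [u, s] [s', u'] ∧ sz m h p = m ∧ Dn m 2 h u.2 ∧ Dn m 2 h s.2 ∧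
    Dn m 2 h s'.2 ∧ Dn m 2 h u'.2 ∧ sz m h s = m ∧ sz m h s' = m ∧
    (1 ≤ h → sz m h u = 1 ∧ sz m h u' = 1) ∧ Insd x (flat h p) (flat h u ++ flat h s) ∧
    Insd x (flat h p) (flat h s' ++ flat h u') ∧ r.2 ≤ (h + 1) * (m + 1) ^ 2)

theorem Insd_tail [LinearOrder α] {x : α} {k : α} {l l' : List α} (h : Insd x (k :: l) l')
    (hl : l.Pairwise (· < ·)) : ∃ l1 l2, l = l1 ++ l2 ∧ l' = k :: (l1 ++ x :: l2) ∧
      (l1 ++ x :: l2).Pairwise (· < ·) := by
  obtain ⟨l1, l2, hne, h1, h2, h3, h4⟩ := h
  match l1, hne with
  | a :: l1, _ =>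
    simp only [List.cons_append, List.cons.injEq] at h1
    obtain ⟨rfl, rfl⟩ := h1
    refine ⟨l1, l2, rfl, h2, ?_⟩
    rw [List.pairwise_append] at hl ⊢
    simp only [List.tail_cons] at h3
    refine ⟨hl.1, List.pairwise_cons.2 ⟨h4, hl.2.1⟩, ?_⟩
    intro a ha b hb
    rcases List.mem_cons.1 hb with rfl | hb
    · exact h3 a ha
    · exact hl.2.2 a ha b hb

theorem ok_mono {m : ℕ} {l l' : List Bool} (h : Ok m 2 l) (hl : l'.length = l.length)
    (ht : l.count true ≤ l'.count true) : Ok m 2 l' := by
  obtain ⟨h1, h2, h3⟩ := h
  have e := len_eq l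
  have e' := len_eq l'
  refine ⟨by omega, by omega, ?_⟩
  omega

/-- the pattern of three pieces -/
theorem pat3 (m h : ℕ) (A V B : List (P α h)) : pat m ((A ++ V ++ B).map (sz m h)) =
    pat m (A.map (sz m h)) ++ pat m (V.map (sz m h)) ++ pat m (B.map (sz m h)) := by
  simp [pat]

theorem ins_fit [LinearOrder α] [Inhabited α] {m : ℕ} {x : α} {h : ℕ} {p : P α (h + 1)}
    {A B : List (P α h)} {c c' : P α h} (h1 : (opn p).take (loc x (opn p)) = A)
    (h2 : (opn p).drop (loc x (opn p) + 1) = B) (h3 : (opn p).getD (loc x (opn p)) default = c)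
    (h4 : (ins m x h c).1 = .fit c') :
    ins m x (h + 1) p = (.fit (cls (A ++ [c'] ++ B)), (ins m x h c).2 + chg m (opn p).length) := by
  rw [ins]
  simp only [h1, h2, h3, h4]

theorem ins_over [LinearOrder α] [Inhabited α] {m : ℕ} {x : α} {h : ℕ} {p : P α (h + 1)}
    {A B : List (P α h)} {c u s s' u' : P α h} (h0 : loc x (opn p) = A.length)
    (h1 : (opn p).take (loc x (opn p)) = A)
    (h2 : (opn p).drop (loc x (opn p) + 1) = B) (h3 : (opn p).getD (loc x (opn p)) default = c)
    (h4 : (ins m x h c).1 = .over [u, s] [s', u']) :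
    ins m x (h + 1) p =
      if (pat m ((opn p).map (sz m h))).count false = 0 ∧ (opn p).length = m then
        (.over [cls ((A ++ (if A.length = 0 then [s', u'] else [u, s]) ++ B).take 1),
            cls ((A ++ (if A.length = 0 then [s', u'] else [u, s]) ++ B).drop 1)]
          [cls ((A ++ (if A.length = 0 then [s', u'] else [u, s]) ++ B).take m),
            cls ((A ++ (if A.length = 0 then [s', u'] else [u, s]) ++ B).drop m)],
          (ins m x h c).2 + chg m (opn p).length)
      else if (opn p).length < m ∧ ((pat m ((opn p).map (sz m h))).count false = 0 ∨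
          2 ≤ (pat m ((opn p).map (sz m h))).count true) then
        (.fit (cls (A ++ [u, s] ++ B)), (ins m x h c).2 + chg m (opn p).length)
      else if B.any (fun y => decide (sz m h y ≠ m)) then
        (.fit (cls (A ++ [s'] ++ (pushR m h u' B).1)),
          (ins m x h c).2 + chg m (opn p).length + (pushR m h u' B).2)
      else
        (.fit (cls ((pushL m h u A.reverse).1.reverse ++ [s] ++ B)),
          (ins m x h c).2 + chg m (opn p).length + (pushL m h u A.reverse).2) := by
  rw [ins]
  simp only [h1, h2, h3, h4, ← h0]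
  rfl

theorem chg_len {m n : ℕ} (h : n ≤ m) : chg m n ≤ (m + 1) ^ 2 := by
  unfold chg
  rw [pow_two]
  exact Nat.mul_le_mul_right _ (by omega)

theorem bd_succ (m h : ℕ) : bd m h + (m + 1) ^ 2 ≤ bd m (h + 1) := by
  unfold bd
  have h1 : m * (h * chg m (3 * m) + chg m m) ≤ m * ((h + 1) * chg m (3 * m) + chg m m) :=
    Nat.mul_le_mul_left _ (Nat.add_le_add_right (Nat.mul_le_mul_right _ (by omega)) _)
  have h2 : (h + 1 + 1) * (m + 1) ^ 2 = (h + 1) * (m + 1) ^ 2 + (m + 1) ^ 2 := by ring
  omega

theorem bd_over (m h k : ℕ) (hk : k ≤ (h + 1) * (m + 1) ^ 2) : k + (m + 1) ^ 2 ≤ bd m (h + 1) := by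
  unfold bd
  have h2 : (h + 1 + 1) * (m + 1) ^ 2 = (h + 1) * (m + 1) ^ 2 + (m + 1) ^ 2 := by ring
  omega

/-- the node after the child `c` has been replaced by `c'` -/
theorem step_fit [Inhabited α] {m : ℕ} {h : ℕ} {p : P α (h + 1)}
    {A B : List (P α h)} {c c' : P α h} (hm : 3 ≤ m) (hW : opn p = A ++ c :: B)
    (hd : Dn m 2 (h + 1) p.2) (hc : Dn m 2 h c'.2) (hs : sz m h c ≤ sz m h c') :
    Dn m 2 (h + 1) (cls (A ++ [c'] ++ B)).2 ∧
      sz m (h + 1) p ≤ sz m (h + 1) (cls (A ++ [c'] ++ B)) := by
  rw [dn_succ, hW] at hd
  obtain ⟨hok, hdn⟩ := hd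
  have hcm := (sz_pos hm hc).2
  constructor
  · refine dn_cls ?_ ?_
    · refine ok_mono hok ?_ ?_
      · simp [pat]
      · have e1 : pat m ((A ++ c :: B).map (sz m h)) = pat m (A.map (sz m h)) ++
            pat m ([c].map (sz m h)) ++ pat m (B.map (sz m h)) := by
          rw [← pat3]
          simp
        rw [e1, pat3]
        simp only [List.count_append]
        have : (pat m ([c].map (sz m h))).count true ≤ (pat m ([c'].map (sz m h))).count true := by
          simp only [pat, List.map_cons, List.map_nil]
          by_cases h1 : sz m h c = m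
          · have h2 : sz m h c' = m := by omega
            rw [h1, h2]
          · simp [h1]
        omega
    · intro d hd
      simp only [List.mem_append, List.mem_singleton] at hd
      rcases hd with (hd | rfl) | hd
      · exact hdn d (by simp [hd])
      · exact hc
      · exact hdn d (by simp [hd])
  · rw [sz_succ, sz_succ, opn_cls (by simp), hW]
    simp

/-- the two ways to cut an overfull word -/
theorem over_ok [Inhabited α] {m h : ℕ} (hm : 3 ≤ m) {V V1 Z : List (P α h)} {v0 z : P α h}
    (e1 : V = v0 :: V1) (e2 : V = Z ++ [z]) (hl : V.length = m + 1)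
    (hD : ∀ y ∈ V, Dn m 2 h y.2) (hf : (pat m (V.map (sz m h))).count false ≤ 1)
    (h0 : sz m h v0 = m) (hz : sz m h z = m) :
    (V.take 1 = [v0] ∧ V.drop 1 = V1 ∧ V.take m = Z ∧ V.drop m = [z]) ∧
    Dn m 2 (h + 1) (cls [v0]).2 ∧ Dn m 2 (h + 1) (cls V1).2 ∧ Dn m 2 (h + 1) (cls Z).2 ∧
    Dn m 2 (h + 1) (cls [z]).2 ∧ sz m (h + 1) (cls V1) = m ∧ sz m (h + 1) (cls Z) = m ∧
    sz m (h + 1) (cls [v0]) = 1 ∧ sz m (h + 1) (cls [z]) = 1 ∧ V1 ≠ [] ∧ Z ≠ [] := by
  have l1 : V1.length = m := by rw [e1] at hl; simpa using hl
  have l2 : Z.length = m := by rw [e2] at hl; simpa using hl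
  have n1 : V1 ≠ [] := by rintro rfl; simp at l1; omega
  have n2 : Z ≠ [] := by rintro rfl; simp at l2; omega
  have one : ∀ v : P α h, sz m h v = m → Dn m 2 h v.2 → Dn m 2 (h + 1) (cls [v]).2 := by
    intro v hv hd
    refine dn_cls ?_ (by simpa using hd)
    simp only [List.map_cons, List.map_nil, pat, hv]
    exact ⟨by simp, by simp; omega, Or.inl (by simp)⟩
  have many : ∀ Y : List (P α h), Y.length = m → (pat m (Y.map (sz m h))).count false ≤ 1 →
      (∀ y ∈ Y, Dn m 2 h y.2) → Dn m 2 (h + 1) (cls Y).2 := by
    intro Y hY hc hd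
    refine dn_cls (ok_of (by simp [pat, hY]) ?_) hd
    have := len_eq (pat m (Y.map (sz m h)))
    have e : (pat m (Y.map (sz m h))).length = m := by simp [pat, hY]
    omega
  have szs : ∀ Y : List (P α h), Y ≠ [] → sz m (h + 1) (cls Y) = Y.length := by
    intro Y hY
    rw [sz_succ, opn_cls hY]
  have f1 : (pat m (V1.map (sz m h))).count false ≤ 1 := by
    rw [e1] at hf
    refine le_trans ?_ hf
    simp only [pat, List.map_cons]
    exact List.count_le_count_cons
  have f2 : (pat m (Z.map (sz m h))).count false ≤ 1 := by
    rw [e2] at hf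
    refine le_trans ?_ hf
    simp only [pat, List.map_append, List.count_append]
    omega
  refine ⟨⟨?_, ?_, ?_, ?_⟩, one v0 h0 (hD v0 (by simp [e1])),
    many V1 l1 f1 (fun y hy => hD y (by simp [e1, hy])),
    many Z l2 f2 (fun y hy => hD y (by simp [e2, hy])), one z hz (hD z (by simp [e2])), ?_, ?_, ?_,
    ?_, n1, n2⟩
  · rw [e1]; simp
  · rw [e1]; simp
  · rw [e2, List.take_left' l2]
  · rw [e2, List.drop_left' l2]
  · rw [szs V1 n1, l1]
  · rw [szs Z n2, l2]
  · rw [szs _ (by simp)]; simp
  · rw [szs _ (by simp)]; simp

theorem ins_spec {m : ℕ} (hm : 3 ≤ m) (hR : PushRS m) (hL : PushLS m) (hC : LocS) {α : Type}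
    [LinearOrder α] [Inhabited α] (x : α) : ∀ (h : ℕ) (p : P α h), Dn m 2 h p.2 →
    (inorder h p.2).Pairwise (· < ·) → x ∉ inorder h p.2 → Good m x h p (ins m x h p) := by
  intro h
  induction h with
  | zero =>
    intro p _ _ _
    refine Or.inr ⟨p, (x, ()), p, (x, ()), rfl, rfl, trivial, trivial, trivial, trivial, rfl, rfl,
      fun h => by omega, ?_, ?_, ?_⟩
    · exact ⟨[p.1], [], by simp, rfl, rfl, by simp, by simp⟩
    · exact ⟨[p.1], [], by simp, rfl, rfl, by simp, by simp⟩
    · show chg m 0 ≤ _
      unfold chg
      nlinarith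
  | succ h ih =>
    intro p hd hp hx
    have htail : ((opn p).flatMap (flat h)).tail = inorder (h + 1) p.2 := by
      rw [← flat_succ]
      rfl
    obtain ⟨A, c, B, hW, h0, h1, h2, h3, h4, h5, h6⟩ := hC α h x (opn p) (opn_ne p)
      (by rw [htail]; exact hp) (by rw [htail]; exact hx)
    have hdn := (dn_succ p).1 hd
    have hlen : (opn p).length ≤ m := by
      have := hdn.1.2.1
      simpa [pat] using this
    have hDc : Dn m 2 h c.2 := hdn.2 c (by simp [hW])
    have hDA : ∀ y ∈ A, Dn m 2 h y.2 := fun y hy => hdn.2 y (by simp [hW, hy])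
    have hDB : ∀ y ∈ B, Dn m 2 h y.2 := fun y hy => hdn.2 y (by simp [hW, hy])
    have hchg := chg_len hlen
    rcases ih c hDc h4 h5 with ⟨c', e1, g1, g2, g3, g4⟩ |
      ⟨u, s, s', u', e1, g1, g2, g3, g4, g5, g6, g7, g8, g9, g10, g11⟩
    · -- the child fits
      rw [ins_fit h1 h2 (h3 default) e1]
      obtain ⟨k1, k2⟩ := step_fit hm hW hd g1 g2
      refine Or.inl ⟨_, rfl, k1, k2, ?_, ?_⟩
      · rw [flat_succ, flat_cls (by simp)]
        have := h6 _ g3
        simpa [List.flatMap_append] using this
      · have := bd_succ m h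
        show (ins m x h c).2 + chg m (opn p).length ≤ _
        omega
    · -- two nodes instead of the child
      rw [ins_over h0 h1 h2 (h3 default) e1]
      have i1 : Insd x (flat (h + 1) p) ((A ++ [u, s] ++ B).flatMap (flat h)) := by
        rw [flat_succ]
        have := h6 _ g9
        simpa [List.flatMap_append] using this
      have i2 : Insd x (flat (h + 1) p) ((A ++ [s', u'] ++ B).flatMap (flat h)) := by
        rw [flat_succ]
        have := h6 _ g10
        simpa [List.flatMap_append] using this
      have hpat : pat m ((opn p).map (sz m h)) = pat m (A.map (sz m h)) ++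
          pat m ([c].map (sz m h)) ++ pat m (B.map (sz m h)) := by
        rw [← pat3, hW]
        simp
      have hc1 : pat m ([c].map (sz m h)) = [true] := by simp [pat, g1]
      have hs1 : pat m ([s].map (sz m h)) = [true] := by simp [pat, g6]
      have hs2 : pat m ([s'].map (sz m h)) = [true] := by simp [pat, g7]
      by_cases c1 : (pat m ((opn p).map (sz m h))).count false = 0 ∧ (opn p).length = m
      · -- overfull
        rw [if_pos c1]
        obtain ⟨c1a, c1b⟩ := c1
        have hall : ∀ y ∈ opn p, sz m h y = m := by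
          intro y hy
          by_contra hne
          rw [List.count_eq_zero] at c1a
          exact c1a (List.mem_map.2 ⟨sz m h y, List.mem_map_of_mem hy, by simp [hne]⟩)
        have hAm : ∀ y ∈ A, sz m h y = m := fun y hy => hall y (by simp [hW, hy])
        have hBm : ∀ y ∈ B, sz m h y = m := fun y hy => hall y (by simp [hW, hy])
        have pz : ∀ Y : List (P α h), (∀ y ∈ Y, sz m h y = m) →
            (pat m (Y.map (sz m h))).count false = 0 := by
          intro Y hY
          rw [List.count_eq_zero]
          intro hmem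
          obtain ⟨k, hk, hk2⟩ := List.mem_map.1 hmem
          obtain ⟨y, hy, rfl⟩ := List.mem_map.1 hk
          simp [hY y hy] at hk2
        obtain ⟨V, hV⟩ : ∃ V, V = A ++ (if A.length = 0 then [s', u'] else [u, s]) ++ B := ⟨_, rfl⟩
        have hVl : V.length = m + 1 := by
          have : A.length + (B.length + 1) = m := by
            rw [hW] at c1b
            simpa using c1b
          rw [hV]
          split_ifs <;> simp <;> omega
        have hVD : ∀ y ∈ V, Dn m 2 h y.2 := by
          intro y hy
          rw [hV] at hy
          split_ifs at hy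
          · simp only [List.mem_append, List.mem_cons, List.not_mem_nil, or_false] at hy
            rcases hy with (hy | rfl | rfl) | hy
            · exact hDA y hy
            · exact g4
            · exact g5
            · exact hDB y hy
          · simp only [List.mem_append, List.mem_cons, List.not_mem_nil, or_false] at hy
            rcases hy with (hy | rfl | rfl) | hy
            · exact hDA y hy
            · exact g2
            · exact g3
            · exact hDB y hy
        have hVf : (pat m (V.map (sz m h))).count false ≤ 1 := by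
          rw [hV]
          split_ifs
          · rw [pat3]
            simp only [List.count_append, pz A hAm, pz B hBm]
            simp only [pat, List.map_cons, List.map_nil, g7]
            simp only [decide_true]
            rcases Bool.eq_false_or_eq_true (decide (sz m h u' = m)) with e | e <;> simp [e]
          · rw [pat3]
            simp only [List.count_append, pz A hAm, pz B hBm]
            simp only [pat, List.map_cons, List.map_nil, g6]
            simp only [decide_true]
            rcases Bool.eq_false_or_eq_true (decide (sz m h u = m)) with e | e <;> simp [e]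
        have hVI : Insd x (flat (h + 1) p) (V.flatMap (flat h)) := by
          rw [hV]
          split_ifs
          · exact i2
          · exact i1
        obtain ⟨v0, V1, E1, E2⟩ : ∃ v0 V1, V = v0 :: V1 ∧ sz m h v0 = m := by
          rw [hV]
          rcases A with _ | ⟨a0, A'⟩
          · exact ⟨s', u' :: B, by simp, g7⟩
          · exact ⟨a0, A' ++ [u, s] ++ B, by simp, hAm a0 (by simp)⟩
        obtain ⟨Z, z, E3, E4⟩ : ∃ Z z, V = Z ++ [z] ∧ sz m h z = m := by
          rcases List.eq_nil_or_concat B with rfl | ⟨B', b, rfl⟩
          · have hA0 : A.length ≠ 0 := by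
              intro h7
              rw [hW] at c1b
              simp only [List.length_append, List.length_cons, List.length_nil] at c1b
              omega
            refine ⟨A ++ [u], s, ?_, g6⟩
            rw [hV, if_neg hA0]
            simp
          · refine ⟨A ++ (if A.length = 0 then [s', u'] else [u, s]) ++ B', b, ?_,
              hBm b (by simp)⟩
            rw [hV]
            simp
        obtain ⟨⟨t1, t2, t3, t4⟩, d1, d2, d3, d4, z1, z2, z3, z4, n1, n2⟩ :=
          over_ok hm E1 E3 hVl hVD hVf E2 E4
        rw [← hV, t1, t2, t3, t4]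
        refine Or.inr ⟨_, _, _, _, rfl, ?_, d1, d2, d3, d4, z1, z2, fun _ => ⟨z3, z4⟩, ?_, ?_, ?_⟩
        · rw [sz_succ, c1b]
        · rw [flat_cls (by simp), flat_cls n1, ← List.flatMap_append, List.singleton_append, ← E1]
          exact hVI
        · rw [flat_cls n2, flat_cls (by simp), ← List.flatMap_append, ← E3]
          exact hVI
        · have h8 : (h + 1 + 1) * (m + 1) ^ 2 = (h + 1) * (m + 1) ^ 2 + (m + 1) ^ 2 := by ring
          show (ins m x h c).2 + chg m (opn p).length ≤ _
          omega
      rw [if_neg c1]
      by_cases c2 : (opn p).length < m ∧ ((pat m ((opn p).map (sz m h))).count false = 0 ∨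
          2 ≤ (pat m ((opn p).map (sz m h))).count true)
      · -- both nodes fit
        rw [if_pos c2]
        obtain ⟨c2a, c2b⟩ := c2
        refine Or.inl ⟨_, rfl, ?_, ?_, ?_, ?_⟩
        · refine dn_cls ?_ ?_
          · have hl : (pat m ((A ++ [u, s] ++ B).map (sz m h))).length = (opn p).length + 1 := by
              rw [hW]
              simp [pat]
              omega
            have ht : (pat m ((opn p).map (sz m h))).count true ≤
                (pat m ((A ++ [u, s] ++ B).map (sz m h))).count true := by
              rw [hpat, pat3, hc1]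
              simp only [List.count_append]
              have : 1 ≤ (pat m ([u, s].map (sz m h))).count true := by
                simp only [pat, List.map_cons, List.map_nil, g6, decide_true]
                rcases Bool.eq_false_or_eq_true (decide (sz m h u = m)) with e | e <;> simp [e]
              simp only [List.count_singleton_self]
              omega
            have e1 := len_eq (pat m ((opn p).map (sz m h)))
            have e2 := len_eq (pat m ((A ++ [u, s] ++ B).map (sz m h)))
            have e3 : (pat m ((opn p).map (sz m h))).length = (opn p).length := by simp [pat]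
            have e4 : 1 ≤ (opn p).length := by rw [hW]; simp; omega
            refine ⟨by omega, by omega, ?_⟩
            rcases c2b with c2b | c2b
            · rcases Nat.eq_zero_or_pos
                ((pat m ((A ++ [u, s] ++ B).map (sz m h))).count false) with c5 | c5
              · exact Or.inl c5
              · right; left; omega
            · right; right; omega
          · intro y hy
            simp only [List.mem_append, List.mem_cons, List.not_mem_nil, or_false] at hy
            rcases hy with (hy | rfl | rfl) | hy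
            · exact hDA y hy
            · exact g2
            · exact g3
            · exact hDB y hy
        · rw [sz_succ, sz_succ, opn_cls (by simp), hW]
          simp
        · rw [flat_cls (by simp)]
          exact i1
        · have := bd_over m h _ g11
          show (ins m x h c).2 + chg m (opn p).length ≤ _
          omega
      rw [if_neg c2]
      by_cases c3 : (B.any (fun y => decide (sz m h y ≠ m))) = true
      · -- push to the right
        rw [if_pos c3]
        obtain ⟨y, hy, hy2⟩ := List.any_eq_true.1 c3
        have hy3 : sz m h y ≠ m := of_decide_eq_true hy2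
        have hh : 1 ≤ h := by
          rcases Nat.eq_zero_or_pos h with rfl | hh
          · exact absurd rfl hy3
          · exact hh
        obtain ⟨r1, r2, r3, r4, r5⟩ := hR α h B u' (g8 hh).2 g5 hDB ⟨y, hy, hy3⟩
        refine Or.inl ⟨_, rfl, ?_, ?_, ?_, ?_⟩
        · refine dn_cls (ok_mono hdn.1 ?_ ?_) ?_
          · rw [hW]
            simp [pat, r3]
          · rw [hpat, pat3, hc1, hs2]
            simp only [List.count_append]
            omega
          · intro w hw
            simp only [List.mem_append, List.mem_singleton] at hw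
            rcases hw with (hw | rfl) | hw
            · exact hDA w hw
            · exact g4
            · exact r1 w hw
        · rw [sz_succ, sz_succ, opn_cls (by simp), hW]
          simp [r3]
        · rw [flat_cls (by simp)]
          have e : (A ++ [s'] ++ (pushR m h u' B).1).flatMap (flat h) =
              (A ++ [s', u'] ++ B).flatMap (flat h) := by
            simp only [List.flatMap_append, List.flatMap_cons, List.flatMap_nil, r2,
              List.append_nil, List.append_assoc]
          rw [e]
          exact i2
        · have hBl : B.length + 1 ≤ m := by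
            have : (opn p).length = A.length + (B.length + 1) := by rw [hW]; simp
            omega
          have := Nat.mul_le_mul_right ((h + 1) * chg m (3 * m) + chg m m) hBl
          have h8 : (h + 1 + 1) * (m + 1) ^ 2 = (h + 1) * (m + 1) ^ 2 + (m + 1) ^ 2 := by ring
          show (ins m x h c).2 + chg m (opn p).length + (pushR m h u' B).2 ≤ bd m (h + 1)
          unfold bd
          omega
      · -- push to the left
        rw [if_neg c3]
        have hB : ∀ y ∈ B, sz m h y = m := by
          intro y hy
          by_contra hne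
          exact c3 (List.any_eq_true.2 ⟨y, hy, decide_eq_true hne⟩)
        have hA : ∃ y ∈ A.reverse, sz m h y ≠ m := by
          by_contra hne
          push Not at hne
          have pz : ∀ Y : List (P α h), (∀ y ∈ Y, sz m h y = m) →
              (pat m (Y.map (sz m h))).count false = 0 := by
            intro Y hY
            rw [List.count_eq_zero]
            intro hmem
            obtain ⟨k, hk, hk2⟩ := List.mem_map.1 hmem
            obtain ⟨y, hy, rfl⟩ := List.mem_map.1 hk
            simp [hY y hy] at hk2
          have h9 : (pat m ((opn p).map (sz m h))).count false = 0 := by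
            rw [hpat, List.count_append, List.count_append,
              pz A (fun y hy => hne y (List.mem_reverse.2 hy)), pz B hB, hc1]
            rfl
          rcases Nat.lt_or_ge (opn p).length m with h10 | h10
          · exact c2 ⟨h10, Or.inl h9⟩
          · exact c1 ⟨h9, by omega⟩
        obtain ⟨y, hy, hy3⟩ := hA
        have hh : 1 ≤ h := by
          rcases Nat.eq_zero_or_pos h with rfl | hh
          · exact absurd rfl hy3
          · exact hh
        obtain ⟨r1, r2, r3, r4, r5⟩ := hL α h A.reverse u (g8 hh).1 g2
          (fun w hw => hDA w (List.mem_reverse.1 hw)) ⟨y, hy, hy3⟩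
        rw [List.reverse_reverse] at r2
        rw [List.length_reverse] at r3 r5
        have r4' : (pat m (A.map (sz m h))).count true ≤
            (pat m ((pushL m h u A.reverse).1.reverse.map (sz m h))).count true := by
          simp only [pat, List.map_reverse, List.count_reverse] at r4 ⊢
          exact r4
        refine Or.inl ⟨_, rfl, ?_, ?_, ?_, ?_⟩
        · refine dn_cls (ok_mono hdn.1 ?_ ?_) ?_
          · rw [hW]
            simp [pat, r3]
          · rw [hpat, pat3, hc1, hs1]
            simp only [List.count_append]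
            omega
          · intro w hw
            simp only [List.mem_append, List.mem_singleton] at hw
            rcases hw with (hw | rfl) | hw
            · exact r1 w (List.mem_reverse.1 hw)
            · exact g3
            · exact hDB w hw
        · rw [sz_succ, sz_succ, opn_cls (by simp), hW]
          simp [r3]
        · rw [flat_cls (by simp)]
          have e : ((pushL m h u A.reverse).1.reverse ++ [s] ++ B).flatMap (flat h) =
              (A ++ [u, s] ++ B).flatMap (flat h) := by
            simp only [List.flatMap_append, List.flatMap_cons, List.flatMap_nil, r2,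
              List.append_nil, List.append_assoc]
          rw [e]
          exact i1
        · have hAl : A.length + 1 ≤ m := by
            have : (opn p).length = A.length + (B.length + 1) := by rw [hW]; simp
            omega
          have := Nat.mul_le_mul_right ((h + 1) * chg m (3 * m) + chg m m) hAl
          have h8 : (h + 1 + 1) * (m + 1) ^ 2 = (h + 1) * (m + 1) ^ 2 + (m + 1) ^ 2 := by ring
          show (ins m x h c).2 + chg m (opn p).length + (pushL m h u A.reverse).2 ≤ bd m (h + 1)
          unfold bd
          omega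

theorem final_aux {m : ℕ} (hm : 3 ≤ m) (hR : PushRS m) (hL : PushLS m) (hC : LocS)
    (D : Depth m) : Final m := by
  intro α _ _ h t x hD hx
  obtain ⟨ht1, ht2, ht3⟩ := hD
  have hdep := D α h t ht2
  have hlog : h ≤ Nat.log 2 ((inorder (h + 1) t).length + 1) :=
    Nat.le_log_of_pow_le (by norm_num) hdep
  have hcost : ∀ k, k ≤ bd m (h + 1) → k + chg m 0 ≤
      4 * (m + 1) ^ 3 * (Nat.log 2 ((inorder (h + 1) t).length + 1) + 3) := by
    intro k hk
    refine le_trans ?_ (Nat.mul_le_mul_left _ (Nat.add_le_add_right hlog 3))
    unfold bd chg at hk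
    unfold chg
    have h1 : (h + 1 + 1) * (m + 1) ^ 2 + m * ((h + 1) * ((3 * m + 1) * (m + 1)) +
        (m + 1) * (m + 1)) + (0 + 1) * (m + 1) ≤ 4 * (m + 1) ^ 3 * (h + 3) := by
      nlinarith [Nat.zero_le (m ^ 3), Nat.zero_le (m ^ 2), Nat.zero_le (h * m ^ 3),
        Nat.zero_le (h * m ^ 2), Nat.zero_le (h * m)]
    omega
  rcases ins_spec hm hR hL hC x (h + 1) (x, t) ht2 ht3 hx with ⟨p', e1, g1, g2, g3, g4⟩ |
      ⟨u, s, s', u', e1, g1, g2, g3, g4, g5, g6, g7, g8, g9, g10, g11⟩
  · have e : insertT m x h t = (⟨h, p'.2⟩, (ins m x (h + 1) (x, t)).2 + chg m 0) := by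
      rw [insertT]
      simp only [e1]
    rw [e]
    obtain ⟨l1, l2, f1, f2, f3⟩ := Insd_tail (k := x) g3 ht3
    have f4 : inorder (h + 1) p'.2 = l1 ++ x :: l2 := by
      have := congrArg List.tail f2
      exact this
    refine ⟨⟨?_, g1, ?_⟩, ⟨l1, l2, f1, f4⟩, hcost _ g4⟩
    · exact le_trans ht1 g2
    · rw [f4]
      exact f3
  · have e : insertT m x h t = (⟨h + 1, (cls [u, s]).2⟩, (ins m x (h + 1) (x, t)).2 + chg m 0) := by
      rw [insertT]
      simp only [e1]
    rw [e]
    obtain ⟨l1, l2, f1, f2, f3⟩ := Insd_tail (k := x) g9 ht3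
    have f5 : flat (h + 1 + 1) (cls [u, s]) = flat (h + 1) u ++ flat (h + 1) s := by
      rw [flat_cls (by simp)]
      simp
    have f4 : inorder (h + 1 + 1) (cls [u, s]).2 = l1 ++ x :: l2 := by
      rw [f2] at f5
      have := congrArg List.tail f5
      exact this
    have hu : sz m (h + 1) u = 1 := (g8 (by omega)).1
    refine ⟨⟨?_, ?_, ?_⟩, ⟨l1, l2, f1, f4⟩, hcost _ ?_⟩
    · show 2 ≤ sz m (h + 1 + 1) (cls [u, s])
      rw [sz_succ, opn_cls (by simp)]
      simp
    · refine dn_cls ?_ ?_
      · have : decide (1 = m) = false := decide_eq_false (by omega)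
        simp only [pat, List.map_cons, List.map_nil, g6, hu, this]
        refine ⟨by simp, by simp; omega, Or.inr (Or.inl ⟨by simp, by simp⟩)⟩
      · intro w hw
        simp only [List.mem_cons, List.not_mem_nil, or_false] at hw
        rcases hw with hw | hw
        · rw [hw]
          exact g2
        · rw [hw]
          exact g3
    · rw [f4]
      exact f3
    · refine le_trans g11 ?_
      unfold bd
      omega

/-- everything from the restructuring procedure -/
theorem final_of {m : ℕ} (hm : 3 ≤ m) (H : OpSpec m) (D : Depth m) : Final m :=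
  final_aux hm (fun _ _ h ys c h1 h2 h3 h4 => pushR_spec hm H h ys c h1 h2 h3 h4)
    (fun _ _ h ys c h1 h2 h3 h4 => pushL_spec hm H h ys c h1 h2 h3 h4)
    (fun _ _ _ x W h1 h2 h3 => loc_split x W h1 h2 h3) D

end LGI
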