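import Pool.Agent.LGI.Red

/-!
# Project LGI: the pointer machine

Memory cells, programs whose only access to the memory are the two instructions `read` and `new`,
and their costs.
-/

namespace LGI

/-- The content of a cell of the memory (one internal node): the pointer to the first child and the
list of pairs (key, pointer to the next child). -/
abbrev Cell (α : Type) : Type := ℕ × List (α × ℕ)

/-- One, plus the number of keys, plus the number of pointers of a cell. -/
def wt {α : Type} (c : Cell α) : ℕ := 1 + c.2.length + (c.2.length + 1)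

/-- A memory: the cells with addresses below `next` are in use. -/
structure Mem (α : Type) where
  next : ℕ
  cell : ℕ → Cell α

/-- Programs with result in `β`: stop with a result, read the cell with address `a` and go on with
its content, or write `c` to a new cell and go on with its address. -/
inductive Prog (α β : Type) : Type
  | ret (b : β) : Prog α β
  | read (a : ℕ) (k : Cell α → Prog α β) : Prog α β
  | new (c : Cell α) (k : ℕ → Prog α β) : Prog α β

/-- Execution: result, final memory, number of steps.  Reading or writing a cell costs `wt`. -/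
def run {α β : Type} : Prog α β → Mem α → β × Mem α × ℕ
  | .ret b, M => (b, M, 0)
  | .read a k, M =>
    let r := run (k (M.cell a)) M
    (r.1, r.2.1, r.2.2 + wt (M.cell a))
  | .new c k, M =>
    let r := run (k M.next) ⟨M.next + 1, Function.update M.cell M.next c⟩
    (r.1, r.2.1, r.2.2 + wt c)

/-- The memory `M` holds the tree `t` of height `h` at the address `a` (leaves are not stored). -/
def Holds {α : Type} (M : Mem α) : (h : ℕ) → ℕ → Tr α h → Prop
  | 0, _, _ => True
  | h + 1, a, t => a < M.next ∧ Holds M h (M.cell a).1 t.1 ∧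
      List.Forall₂ (fun p q => p.1 = q.1 ∧ Holds M h p.2 q.2) (M.cell a).2 t.2

/-- For the pair `(m, r)` there is an insertion procedure with at most `C * log N` steps. -/
def LogInsertion (m r : ℕ) : Prop := ∃ C : ℕ, ∀ (α : Type) [LinearOrder α],
  ∃ proc : α → ℕ → ℕ → Prog α (ℕ × ℕ),
    ∀ (x : α) (M : Mem α) (h a : ℕ) (t : Tr α (h + 1)),
      Holds M (h + 1) a t → Dense m r h t → x ∉ inorder (h + 1) t →
      ∃ (h' a' : ℕ) (M' : Mem α) (n : ℕ) (t' : Tr α (h' + 1)),
        run (proc x h a) M = ((h', a'), M', n) ∧ Holds M' (h' + 1) a' t' ∧ Dense m r h' t' ∧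
        (∀ y, y ∈ inorder (h' + 1) t' ↔ y = x ∨ y ∈ inorder (h + 1) t) ∧
        n ≤ C * Nat.log 2 ((inorder (h + 1) t).length + 1)

/-! ## Programs -/

variable {α β γ : Type}

/-- First `p`, then `f` with the result of `p`. -/
def Prog.bind : Prog α β → (β → Prog α γ) → Prog α γ
  | .ret b, f => f b
  | .read a k, f => .read a (fun c => (k c).bind f)
  | .new c k, f => .new c (fun n => (k n).bind f)

theorem run_bind (p : Prog α β) (f : β → Prog α γ) (M : Mem α) :
    run (p.bind f) M = ((run (f (run p M).1) (run p M).2.1).1,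
      (run (f (run p M).1) (run p M).2.1).2.1,
      (run p M).2.2 + (run (f (run p M).1) (run p M).2.1).2.2) := by
  induction p generalizing M with
  | ret b => simp [Prog.bind, run]
  | read a k ih =>
    simp only [Prog.bind, run, ih]
    ext <;> simp
    omega
  | new c k ih =>
    simp only [Prog.bind, run, ih]
    ext <;> simp
    omega

/-- The cells in use are kept. -/
def Ext (M M' : Mem α) : Prop := M.next ≤ M'.next ∧ ∀ a, a < M.next → M'.cell a = M.cell a

theorem Ext.refl (M : Mem α) : Ext M M := ⟨le_rfl, fun _ _ => rfl⟩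

theorem Ext.trans {M M' M'' : Mem α} (h : Ext M M') (h' : Ext M' M'') : Ext M M'' :=
  ⟨h.1.trans h'.1, fun a ha => (h'.2 a (ha.trans_le h.1)).trans (h.2 a ha)⟩

/-- Run with at most `k` steps and with a result that has the property `Q`. -/
def Sim (M : Mem α) (p : Prog α β) (k : ℕ) (Q : Mem α → β → Prop) : Prop :=
  Ext M (run p M).2.1 ∧ Q (run p M).2.1 (run p M).1 ∧ (run p M).2.2 ≤ k

theorem Sim.ret {M : Mem α} {b : β} {Q : Mem α → β → Prop} (k : ℕ) (h : Q M b) :
    Sim M (.ret b) k Q := ⟨Ext.refl M, h, Nat.zero_le _⟩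

theorem Sim.bind {M : Mem α} {p : Prog α β} {f : β → Prog α γ} {k k' : ℕ}
    {Q : Mem α → β → Prop} {Q' : Mem α → γ → Prop} (h1 : Sim M p k Q)
    (h2 : ∀ M' b, Ext M M' → Q M' b → Sim M' (f b) k' Q') : Sim M (p.bind f) (k + k') Q' := by
  obtain ⟨e1, q1, s1⟩ := h1
  obtain ⟨e2, q2, s2⟩ := h2 _ _ e1 q1
  rw [Sim, run_bind]
  exact ⟨e1.trans e2, q2, Nat.add_le_add s1 s2⟩

theorem Sim.mono {M : Mem α} {p : Prog α β} {k k' : ℕ} {Q Q' : Mem α → β → Prop}
    (h : Sim M p k Q) (hk : k ≤ k') (hQ : ∀ M' b, Ext M M' → Q M' b → Q' M' b) :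
    Sim M p k' Q' := ⟨h.1, hQ _ _ h.1 h.2.1, h.2.2.trans hk⟩

theorem Sim.le {M : Mem α} {p : Prog α β} {k k' : ℕ} {Q : Mem α → β → Prop}
    (h : Sim M p k Q) (hk : k ≤ k') : Sim M p k' Q := h.mono hk (fun _ _ _ h => h)

theorem Holds.ext {M M' : Mem α} (e : Ext M M') : ∀ {h : ℕ} {a : ℕ} {t : Tr α h},
    Holds M h a t → Holds M' h a t
  | 0, _, _, _ => trivial
  | h + 1, a, t, hh => by
    obtain ⟨h1, h2, h3⟩ := hh
    refine ⟨h1.trans_le e.1, ?_, ?_⟩
    · rw [e.2 a h1]; exact Holds.ext e h2
    · rw [e.2 a h1]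
      exact h3.imp (fun p q hpq => ⟨hpq.1, Holds.ext e hpq.2⟩)

/-- Key and pointer against key and tree. -/
def HP (M : Mem α) (h : ℕ) (p : α × ℕ) (q : P α h) : Prop := p.1 = q.1 ∧ Holds M h p.2 q.2

/-- The same for lists. -/
def HL (M : Mem α) (h : ℕ) : List (α × ℕ) → List (P α h) → Prop := List.Forall₂ (HP M h)

theorem HP.ext {M M' : Mem α} (e : Ext M M') {h : ℕ} {p : α × ℕ} {q : P α h}
    (hh : HP M h p q) : HP M' h p q := ⟨hh.1, Holds.ext e hh.2⟩

theorem HL.ext {M M' : Mem α} (e : Ext M M') {h : ℕ} {p : List (α × ℕ)} {q : List (P α h)}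
    (hh : HL M h p q) : HL M' h p q := List.Forall₂.imp (fun _ _ h => h.ext e) hh

/-! ## Elementary programs -/

/-- Open a node. -/
def rdP (p : α × ℕ) : Prog α (List (α × ℕ)) := .read p.2 fun c => .ret ((p.1, c.1) :: c.2)

theorem rdP_sim {M : Mem α} {m h : ℕ} {p : α × ℕ} {q : P α (h + 1)} (hp : HP M (h + 1) p q)
    (hs : sz m (h + 1) q ≤ m) :
    Sim M (rdP p) (2 * m) (fun M' l => M' = M ∧ HL M h l (opn q)) := by
  obtain ⟨k, a⟩ := p
  obtain ⟨k', t, l⟩ := q
  obtain ⟨hk, h1, h2, h3⟩ := hp
  refine ⟨Ext.refl M, ⟨rfl, ?_⟩, ?_⟩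
  · exact List.Forall₂.cons ⟨hk, h2⟩ h3
  · have := h3.length_eq
    simp only [rdP, run, wt]
    simp only [sz, szT, kids, List.length_cons, List.length_map] at hs
    dsimp only at this hs ⊢
    omega

/-- Make a node. -/
def mkP (d : α) : List (α × ℕ) → Prog α (α × ℕ)
  | [] => .ret (d, 0)
  | (k, c) :: l => .new (c, l) fun a => .ret (k, a)

theorem mkP_sim [Inhabited α] {M : Mem α} {h K : ℕ} {d : α} {l : List (α × ℕ)}
    {L : List (P α h)} (hl : HL M h l L) (hne : L ≠ []) (hK : L.length ≤ K) :
    Sim M (mkP d l) (2 * K) (fun M' p => HP M' (h + 1) p (cls L)) := by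
  cases hl with
  | nil => exact absurd rfl hne
  | @cons p q l L hp hl =>
    obtain ⟨k, c⟩ := p
    have e : Ext M ⟨M.next + 1, Function.update M.cell M.next (c, l)⟩ := by
      refine ⟨Nat.le_succ _, fun a ha => ?_⟩
      exact Function.update_of_ne (Nat.ne_of_lt ha) _ _
    refine ⟨e, ⟨hp.1, ?_⟩, ?_⟩
    · refine ⟨Nat.lt_succ_self _, ?_, ?_⟩
      · show Holds _ h (Function.update M.cell M.next (c, l) M.next).1 q.2
        rw [Function.update_self]
        exact Holds.ext e hp.2
      · show List.Forall₂ _ (Function.update M.cell M.next (c, l) M.next).2 L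
        rw [Function.update_self]
        exact HL.ext e hl
    · have := hl.length_eq
      simp only [List.length_cons] at hK
      simp only [mkP, run, wt]
      omega

/-- Number of children of a node. -/
def szP (m : ℕ) : ℕ → α × ℕ → Prog α ℕ
  | 0, _ => .ret m
  | _ + 1, p => .read p.2 fun c => .ret (c.2.length + 1)

theorem szP_sim {M : Mem α} {m h : ℕ} {p : α × ℕ} {q : P α h} (hp : HP M h p q)
    (hs : sz m h q ≤ m) :
    Sim M (szP m h p) (2 * m) (fun M' n => M' = M ∧ n = sz m h q) := by
  cases h with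
  | zero => exact Sim.ret _ ⟨rfl, rfl⟩
  | succ h =>
    obtain ⟨k, a⟩ := p
    obtain ⟨k', t, l⟩ := q
    obtain ⟨hk, h1, h2, h3⟩ := hp
    have := h3.length_eq
    dsimp only at this
    refine ⟨Ext.refl M, ⟨rfl, ?_⟩, ?_⟩
    · simp only [szP, run, sz, szT, kids, List.length_cons, List.length_map]
      omega
    · simp only [sz, szT, kids, List.length_cons, List.length_map] at hs
      simp only [szP, run, wt]
      omega

/-- Numbers of children of a list of nodes. -/
def szsP (m h : ℕ) : List (α × ℕ) → Prog α (List ℕ)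
  | [] => .ret []
  | p :: l => (szP m h p).bind fun n => (szsP m h l).bind fun q => .ret (n :: q)

theorem szsP_sim {M : Mem α} {m h : ℕ} {l : List (α × ℕ)} {L : List (P α h)} (hl : HL M h l L)
    (hs : ∀ q ∈ L, sz m h q ≤ m) :
    Sim M (szsP m h l) (2 * m * L.length) (fun M' n => M' = M ∧ n = L.map (sz m h)) := by
  induction hl with
  | nil => exact Sim.ret _ ⟨rfl, rfl⟩
  | @cons p q l L hp hl ih =>
    refine ((szP_sim hp (hs q (by simp))).bind (k' := 2 * m * L.length + 0) ?_).le
      (by simp [Nat.mul_add]; omega)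
    rintro M' n - ⟨rfl, rfl⟩
    refine (ih (fun q hq => hs q (by simp [hq]))).bind ?_
    rintro M'' n - ⟨rfl, rfl⟩
    exact Sim.ret _ ⟨rfl, rfl⟩

/-- Cut off `f` and `g`, where `f` and `g` have the same shape. -/
theorem HL.append {M : Mem α} {h : ℕ} {l1 l2 : List (α × ℕ)} {L1 L2 : List (P α h)}
    (h1 : HL M h l1 L1) (h2 : HL M h l2 L2) : HL M h (l1 ++ l2) (L1 ++ L2) :=
  List.rel_append h1 h2

theorem HL.take {M : Mem α} {h : ℕ} {l : List (α × ℕ)} {L : List (P α h)}
    (hl : HL M h l L) (n : ℕ) : HL M h (l.take n) (L.take n) := List.forall₂_take n hl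

theorem HL.drop {M : Mem α} {h : ℕ} {l : List (α × ℕ)} {L : List (P α h)}
    (hl : HL M h l L) (n : ℕ) : HL M h (l.drop n) (L.drop n) := List.forall₂_drop n hl

theorem HL.length {M : Mem α} {h : ℕ} {l : List (α × ℕ)} {L : List (P α h)}
    (hl : HL M h l L) : l.length = L.length := hl.length_eq

/-- Related options. -/
def HO (M : Mem α) (h : ℕ) : Option (List (α × ℕ)) → Option (List (P α h)) → Prop :=
  Option.Rel (HL M h)

/-! ## Reductions -/

/-- `rwf` as a program. -/
def rwfP {β : Type} (k : ℕ) (f : List β → Prog α (Option (List β))) :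
    List β → Prog α (Option (List β))
  | [] => .ret none
  | a :: l => (f ((a :: l).take k)).bind fun o =>
    match o with
    | some v => .ret (some (v ++ (a :: l).drop k))
    | none => (rwfP k f l).bind fun o' => .ret (o'.map (fun v => a :: v))

theorem rwfP_sim {M : Mem α} {h k c : ℕ} {f : List (α × ℕ) → Prog α (Option (List (α × ℕ)))}
    {g : List (P α h) → Option (List (P α h))} {l : List (α × ℕ)} {L : List (P α h)}
    (hf : ∀ (M' : Mem α) w W, (∀ q ∈ W, q ∈ L) → HL M' h w W →
      Sim M' (f w) c (fun M'' o => HO M'' h o (g W)))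
    (hl : HL M h l L) :
    Sim M (rwfP k f l) (c * L.length) (fun M' o => HO M' h o (rwf k g L)) := by
  induction L generalizing M l with
  | nil =>
    cases hl
    exact Sim.ret _ Option.Rel.none
  | cons q L ih =>
    cases hl with
    | @cons p _ l _ hp hl =>
    have hpl : HL M h (p :: l) (q :: L) := List.Forall₂.cons hp hl
    refine ((hf M _ _ (fun q' hq' => List.mem_of_mem_take hq') (hpl.take k)).bind
      (k' := c * L.length + 0) ?_).le (by simp [Nat.mul_add]; omega)
    intro M' o e ho
    have hpl' := hpl.ext e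
    have hp' := hp.ext e
    have hl' := HL.ext e hl
    rw [rwf]
    cases hg : g ((q :: L).take k) with
    | some V =>
      rw [hg] at ho
      cases ho with
      | some hv => exact Sim.ret _ (Option.Rel.some (HL.append hv (hpl'.drop k)))
    | none =>
      rw [hg] at ho
      cases ho with
      | none =>
        refine (ih (fun M' w W hW => hf M' w W (fun q hq => List.mem_cons_of_mem _ (hW q hq)))
          hl').bind ?_
        intro M'' o' e' ho'
        refine Sim.ret _ ?_
        cases hr : rwf k g L with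
        | none =>
          rw [hr] at ho'
          cases ho' with
          | none => exact Option.Rel.none
        | some V =>
          rw [hr] at ho'
          cases ho' with
          | some hv => exact Option.Rel.some (List.Forall₂.cons (hp'.ext e') hv)

/-- `f2` as a program. -/
def f2P (m : ℕ) : List (α × ℕ) → Prog α (Option (List (α × ℕ)))
  | [a, b] => (rdP a).bind fun la => (rdP b).bind fun lb =>
      if la.length ≠ m ∧ lb.length ≠ m ∧ la.length + lb.length ≤ m then
        (mkP a.1 (la ++ lb)).bind fun c => .ret (some [c])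
      else .ret none
  | _ => .ret none

theorem dn_le {m h : ℕ} (hm : 3 ≤ m) {L : List (P α h)} (hd : ∀ q ∈ L, Dn m 2 h q.2) :
    ∀ q ∈ L, sz m h q ≤ m := fun q hq => (sz_pos hm (hd q hq)).2

theorem f2P_sim [Inhabited α] {M : Mem α} {m h : ℕ} (hm : 3 ≤ m) {w : List (α × ℕ)}
    {W : List (P α (h + 1))} (hd : ∀ q ∈ W, Dn m 2 (h + 1) q.2) (hw : HL M (h + 1) w W) :
    Sim M (f2P m w) (6 * m) (fun M' o => HO M' (h + 1) o (f2 m W)) := by
  have hs := dn_le hm hd
  unfold HL at hw
  match w, W, hw with
  | [], _, .nil => exact Sim.ret _ Option.Rel.none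
  | [a], _, .cons _ .nil => exact Sim.ret _ Option.Rel.none
  | a :: b :: c :: w, _, .cons _ (.cons _ (.cons _ _)) => exact Sim.ret _ Option.Rel.none
  | [a, b], [A, B], .cons ha (.cons hb .nil) =>
    rw [f2P]
    refine ((rdP_sim ha (hs A (by simp))).bind (k' := 2 * m + (2 * m + 0)) ?_).le (by omega)
    rintro _ la - ⟨rfl, hla⟩
    refine (rdP_sim hb (hs B (by simp))).bind ?_
    rintro _ lb - ⟨rfl, hlb⟩
    rw [f2, sz_succ, sz_succ, ← hla.length, ← hlb.length]
    split_ifs with hc
    · refine (mkP_sim (hla.append hlb) (by simp [opn_ne]) (K := m) ?_).bind ?_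
      · rw [← (hla.append hlb).length, List.length_append]; exact hc.2.2
      · intro M' c e hcc
        exact Sim.ret _ (Option.Rel.some (List.Forall₂.cons hcc List.Forall₂.nil))
    · exact Sim.ret _ Option.Rel.none

/-- `f3` as a program. -/
def f3P (m h : ℕ) : List (α × ℕ) → Prog α (Option (List (α × ℕ)))
  | [a, b, c] => (rdP a).bind fun la => (rdP b).bind fun lb => (rdP c).bind fun lc =>
      if la.length ≠ m ∧ lb.length ≠ m ∧ lc.length ≠ m ∧
          la.length + lb.length + lc.length ≤ 2 * m then
        (szsP m h (la ++ lb ++ lc)).bind fun q =>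
          match findj m (pat m q) with
          | some j => (mkP a.1 ((la ++ lb ++ lc).take j)).bind fun u =>
              (mkP a.1 ((la ++ lb ++ lc).drop j)).bind fun v => .ret (some [u, v])
          | none => .ret none
      else .ret none
  | _ => .ret none

theorem f3P_sim [Inhabited α] {M : Mem α} {m h : ℕ} (hm : 3 ≤ m) {w : List (α × ℕ)}
    {W : List (P α (h + 1))} (hd : ∀ q ∈ W, Dn m 2 (h + 1) q.2) (hw : HL M (h + 1) w W) :
    Sim M (f3P m h w) (14 * m + 4 * m * m) (fun M' o => HO M' (h + 1) o (f3 m W)) := by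
  have hs := dn_le hm hd
  unfold HL at hw
  match w, W, hw with
  | [], _, .nil => exact Sim.ret _ Option.Rel.none
  | [a], _, .cons _ .nil => exact Sim.ret _ Option.Rel.none
  | [a, b], _, .cons _ (.cons _ .nil) => exact Sim.ret _ Option.Rel.none
  | a :: b :: c :: d :: w, _, .cons _ (.cons _ (.cons _ (.cons _ _))) =>
    exact Sim.ret _ Option.Rel.none
  | [a, b, c], [A, B, C], .cons ha (.cons hb (.cons hc .nil)) =>
    rw [f3P]
    refine ((rdP_sim ha (hs A (by simp))).bind
      (k' := 2 * m + (2 * m + (2 * m * (2 * m) + (2 * (2 * m) + (2 * (2 * m) + 0))))) ?_).le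
      (by nlinarith)
    rintro _ la - ⟨rfl, hla⟩
    refine (rdP_sim hb (hs B (by simp))).bind ?_
    rintro _ lb - ⟨rfl, hlb⟩
    refine (rdP_sim hc (hs C (by simp))).bind ?_
    rintro _ lc - ⟨rfl, hlc⟩
    rw [f3, sz_succ, sz_succ, sz_succ, ← hla.length, ← hlb.length, ← hlc.length]
    have hX := (hla.append hlb).append hlc
    have hdX : ∀ q ∈ opn A ++ opn B ++ opn C, Dn m 2 h q.2 := by
      intro q hq
      simp only [List.mem_append] at hq
      rcases hq with (hq | hq) | hq
      · exact ((dn_succ A).1 (hd A (by simp))).2 q hq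
      · exact ((dn_succ B).1 (hd B (by simp))).2 q hq
      · exact ((dn_succ C).1 (hd C (by simp))).2 q hq
    split_ifs with hcc
    · have hlen : (opn A ++ opn B ++ opn C).length ≤ 2 * m := by
        rw [← hX.length, List.length_append, List.length_append]; exact hcc.2.2.2
      refine ((szsP_sim hX (dn_le hm hdX)).le (Nat.mul_le_mul_left _ hlen)).bind ?_
      rintro _ q - ⟨rfl, rfl⟩
      dsimp only
      cases hj : findj m (pat m ((opn A ++ opn B ++ opn C).map (sz m h))) with
      | none => exact Sim.ret _ Option.Rel.none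
      | some j =>
        have hj' := List.find?_some hj
        simp only [decide_eq_true_eq] at hj'
        have ne1 : (opn A ++ opn B ++ opn C).take j ≠ [] := by
          intro h0
          have := hj'.1.1
          rw [pat, ← List.map_take, ← List.map_take, h0] at this
          simp at this
        have ne2 : (opn A ++ opn B ++ opn C).drop j ≠ [] := by
          intro h0
          have := hj'.2.1
          rw [pat, ← List.map_drop, ← List.map_drop, h0] at this
          simp at this
        refine (mkP_sim (hX.take j) ne1 (K := 2 * m) ?_).bind ?_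
        · rw [List.length_take]; omega
        intro M' u e hu
        refine (mkP_sim ((hX.drop j).ext e) ne2 (K := 2 * m) ?_).bind ?_
        · rw [List.length_drop]; omega
        intro M'' v e' hv
        exact Sim.ret _ (Option.Rel.some
          (List.Forall₂.cons (hu.ext e') (List.Forall₂.cons hv List.Forall₂.nil)))
    · exact Sim.ret _ Option.Rel.none

/-- `red1` as a program. -/
def red1P (m : ℕ) : (h : ℕ) → List (α × ℕ) → Prog α (Option (List (α × ℕ)))
  | 0, _ => .ret none
  | h + 1, W => (rwfP 2 (f2P m) W).bind fun o =>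
    match o with
    | some v => .ret (some v)
    | none => rwfP 3 (f3P m h) W

/-- A constant. -/
def c1 (m n : ℕ) : ℕ := 6 * m * n + (14 * m + 4 * m * m) * n

theorem red1P_sim [Inhabited α] {M : Mem α} {m h : ℕ} (hm : 3 ≤ m) {w : List (α × ℕ)}
    {W : List (P α h)} (hd : ∀ q ∈ W, Dn m 2 h q.2) (hw : HL M h w W) :
    Sim M (red1P m h w) (c1 m W.length) (fun M' o => HO M' h o (red1 m h W)) := by
  cases h with
  | zero => exact Sim.ret _ Option.Rel.none
  | succ h =>
    rw [red1P, red1]
    refine (rwfP_sim (g := f2 m) (fun M' w' W' hW' hw' =>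
      f2P_sim hm (fun q hq => hd q (hW' q hq)) hw') hw).bind ?_
    intro M' o e ho
    cases hr : rwf 2 (f2 m) W with
    | some V =>
      rw [hr] at ho
      cases ho with
      | some hv => exact Sim.ret _ (Option.Rel.some hv)
    | none =>
      rw [hr] at ho
      cases ho with
      | none =>
        exact rwfP_sim (g := f3 m) (fun M' w' W' hW' hw' =>
          f3P_sim hm (fun q hq => hd q (hW' q hq)) hw') (hw.ext e)

/-- `redn` as a program. -/
def rednP (m h : ℕ) : ℕ → List (α × ℕ) → Prog α (List (α × ℕ))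
  | 0, W => .ret W
  | n + 1, W => (red1P m h W).bind fun o =>
    match o with
    | some v => rednP m h n v
    | none => .ret W

theorem c1_mono (m : ℕ) {n n' : ℕ} (h : n ≤ n') : c1 m n ≤ c1 m n' := by
  unfold c1
  gcongr

theorem rednP_sim [Inhabited α] {M : Mem α} {m h : ℕ} (hm : 3 ≤ m) (n K : ℕ)
    {w : List (α × ℕ)} {W : List (P α h)} (hd : ∀ q ∈ W, Dn m 2 h q.2) (hw : HL M h w W)
    (hK : W.length ≤ K) :
    Sim M (rednP m h n w) (n * c1 m K) (fun M' v => HL M' h v (redn m h n W)) := by
  induction n generalizing M w W with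
  | zero => exact Sim.ret _ hw
  | succ n ih =>
    rw [rednP, redn]
    refine (((red1P_sim hm hd hw).le (c1_mono m hK)).bind (k' := n * c1 m K) ?_).le
      (by rw [Nat.succ_mul]; omega)
    intro M' o e ho
    cases hr : red1 m h W with
    | some V =>
      rw [hr] at ho
      cases ho with
      | some hv =>
        have := red1_some hd hr
        exact ih this.1 hv (by omega)
    | none =>
      rw [hr] at ho
      cases ho with
      | none => exact Sim.ret _ (hw.ext e)

end LGI
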