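import Pool.Agent.LGI.Red

/-!
# Project LGI: the restructuring procedure is correct
-/

namespace LGI

variable {α : Type}

theorem app_pair {m : ℕ} {g : Goal} (hg : g ≠ .T) {q : List ℕ} (h : App m g q) :
    ∃ a b, q = [a, b] ∧ ¬ (a = m ∧ b = m) ∧ m < a + b ∧ (m = 3 → a = m ∨ b = m) := by
  match g, q, h with
  | .R, [a, b], h => exact ⟨a, b, rfl, h⟩
  | .L, [a, b], h => exact ⟨a, b, rfl, h⟩
  | .T, _, _ => exact absurd rfl hg

theorem app_trip {m : ℕ} {q : List ℕ} (h : App m .T q) :
    ∃ a b c, q = [a, b, c] ∧ a ≠ m ∧ b ≠ m ∧ c ≠ m ∧ 2 * m < a + b + c ∧ 4 ≤ m := by
  match q, h with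
  | [a, b, c], h => exact ⟨a, b, c, rfl, h⟩

theorem app_ne {m : ℕ} {g : Goal} {q : List ℕ} (h : App m g q) : ∃ n ∈ q, n ≠ m := by
  by_cases hg : g = .T
  · subst hg
    obtain ⟨a, b, c, rfl, h1, _⟩ := app_trip h
    exact ⟨a, by simp, h1⟩
  · obtain ⟨a, b, rfl, h1, _⟩ := app_pair hg h
    by_cases ha : a = m
    · exact ⟨b, by simp, fun hb => h1 ⟨ha, hb⟩⟩
    · exact ⟨a, by simp, ha⟩

theorem app_len {m : ℕ} {g : Goal} {q : List ℕ} (h : App m g q) : q.length = ar g := by
  by_cases hg : g = .T
  · subst hg
    obtain ⟨a, b, c, rfl, _⟩ := app_trip h
    rfl
  · obtain ⟨a, b, rfl, _⟩ := app_pair hg h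
    cases g
    · rfl
    · rfl
    · exact absurd rfl hg

theorem cut_map {β γ : Type} (m : ℕ) (g : Goal) (f : β → γ) (W : List β) :
    cut m g (W.map f) = (cut m g W).map (List.map f) := by
  cases g <;> simp only [cut, List.length_map] <;> split_ifs <;>
    simp [List.map_take, List.map_drop]

theorem cut_flatten {β : Type} (m : ℕ) (g : Goal) (W : List β) :
    (cut m g W).flatten = W := by
  cases g <;> simp only [cut] <;> split_ifs <;> simp

/-- Closing after a cut. -/
theorem fin [Inhabited α] {m h : ℕ} (hm : 3 ≤ m) {g : Goal} {V : List (P α h)}
    (hd : ∀ p ∈ V, Dn m 2 h p.2) (hok : OkCut m g (pat m (V.map (sz m h))))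
    (h1 : tgt m g ≤ V.length) (h2 : V.length < ar g * m) :
    (∀ p ∈ (cut m g V).map cls, Dn m 2 (h + 1) p.2) ∧
    ((cut m g V).map cls).flatMap (flat (h + 1)) = V.flatMap (flat h) ∧
    pat m (((cut m g V).map cls).map (sz m (h + 1))) ∈ outs g ∧
    (((cut m g V).map cls).map (sz m (h + 1))).sum = V.length := by
  have hok' : ∀ X ∈ cut m g V, Ok m 2 (pat m (X.map (sz m h))) := by
    intro X hX
    apply hok
    rw [pat, cut_map, cut_map]
    rw [List.mem_map]
    exact ⟨X.map (sz m h), List.mem_map_of_mem hX, rfl⟩
  have hne : ∀ X ∈ cut m g V, X ≠ [] := by
    intro X hX h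
    have := (hok' X hX).1
    rw [h] at this
    simp [pat] at this
  have hsub : ∀ X ∈ cut m g V, ∀ c ∈ X, c ∈ V := by
    intro X hX c hc
    rw [← cut_flatten m g V]
    exact List.mem_flatten.2 ⟨X, hX, hc⟩
  have hsz : ((cut m g V).map cls).map (sz m (h + 1)) = (cut m g V).map List.length := by
    rw [List.map_map]
    apply List.map_congr_left
    intro X hX
    rw [Function.comp_apply, sz_succ, opn_cls (hne X hX)]
  refine ⟨?_, ?_, ?_, ?_⟩
  · intro p hp
    obtain ⟨X, hX, rfl⟩ := List.mem_map.1 hp
    exact dn_cls (hok' X hX) (fun c hc => hd c (hsub X hX c hc))
  · have : ((cut m g V).map cls).flatMap (flat (h + 1)) =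
        (cut m g V).flatMap (fun X => X.flatMap (flat h)) := by
      rw [List.flatMap_map]
      rw [List.flatMap_def, List.flatMap_def]
      congr 1
      apply List.map_congr_left
      intro X hX
      exact flat_cls (hne X hX)
    rw [this]
    conv_rhs => rw [← cut_flatten m g V]
    rw [List.flatMap_def, List.flatMap_def, List.map_flatten, List.flatten_flatten]
    rw [List.map_map]
    rfl
  · rw [hsz]
    cases g
    · simp only [tgt, ar] at h1 h2
      by_cases hV : V.length ≤ m
      · simp only [cut, hV, if_true, List.map_cons, List.map_nil]
        have : V.length = m := le_antisymm hV h1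
        simp [pat, outs, this]
      · simp only [cut, hV, if_false, List.map_cons, List.map_nil, List.length_take,
          List.length_drop]
        have e1 : min m V.length = m := by omega
        have e2 : V.length - m ≠ m := by omega
        simp [pat, outs, e1, e2]
    · simp only [tgt, ar] at h1 h2
      by_cases hV : V.length ≤ m
      · simp only [cut, hV, if_true, List.map_cons, List.map_nil]
        have : V.length = m := le_antisymm hV h1
        simp [pat, outs, this]
      · simp only [cut, hV, if_false, List.map_cons, List.map_nil, List.length_take,
          List.length_drop]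
        have e1 : V.length - m ≠ m := by omega
        have e2 : V.length - (V.length - m) = m := by omega
        simp [pat, outs, e1, e2]
    · simp only [tgt, ar] at h1 h2
      by_cases hV : V.length ≤ 2 * m
      · simp only [cut, hV, if_true, List.map_cons, List.map_nil, List.length_take,
          List.length_drop]
        have e1 : min m V.length = m := by omega
        have e2 : V.length - m = m := by omega
        simp [pat, outs, e1, e2]
      · simp only [cut, hV, if_false, List.map_cons, List.map_nil, List.length_take,
          List.length_drop]
        have e1 : min m V.length = m := by omega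
        have e2 : min (V.length - 2 * m) (V.length - m) ≠ m := by omega
        have e3 : V.length - m - (V.length - 2 * m) = m := by omega
        simp [pat, outs, e1, e2, e3]
  · rw [hsz]
    conv_rhs => rw [← cut_flatten m g V]
    rw [List.length_flatten]

/-- The sizes list after the reductions allows a cut or has a good window. -/
theorem main [Inhabited α] {m h : ℕ} (hm : 3 ≤ m) {g : Goal} {F : List (P α (h + 1))}
    (hd : ∀ p ∈ F, Dn m 2 (h + 1) p.2) (happ : App m g (F.map (sz m (h + 1))))
    {W0 W : List (P α h)} (hW0d : W0 = F.flatMap opn)
    (hWd : redn m h (W0.length - tgt m g) W0 = W) :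
    tgt m g ≤ W.length ∧ W.length ≤ W0.length ∧ W0.length < ar g * m ∧
    (∀ p ∈ W0, Dn m 2 h p.2) ∧
    (OkCut m g (pat m (W.map (sz m h))) ∨
      (tgt m g < W.length ∧ Win m g (W.map (sz m h)))) := by
  have hd0 : ∀ p ∈ W0, Dn m 2 h p.2 := by
    intro p hp
    rw [hW0d] at hp
    obtain ⟨A, hA, hpA⟩ := List.mem_flatMap.1 hp
    exact ((dn_succ A).1 (hd A hA)).2 p hpA
  obtain ⟨s1, s2, s3, s4, s5, s6⟩ := redn_spec (W0.length - tgt m g) hd0
  have ssame := redn_same (W0.length - tgt m g) hd0
  rw [hWd] at s1 s2 s3 s4 s5 s6 ssame
  by_cases hg : g = .T
  · subst hg
    obtain ⟨a, b, c, hF, ha, hb, hc, hT, hm4⟩ := app_trip happ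
    obtain ⟨A, B, C, rfl⟩ : ∃ A B C, F = [A, B, C] := by
      match F, hF with
      | [A, B, C], _ => exact ⟨A, B, C, rfl⟩
    simp only [List.map_cons, List.map_nil, List.cons.injEq] at hF
    obtain ⟨rfl, rfl, rfl, -⟩ := hF
    have hdA := (dn_succ A).1 (hd A (by simp))
    have hdB := (dn_succ B).1 (hd B (by simp))
    have hdC := (dn_succ C).1 (hd C (by simp))
    have pA := sz_pos hm (hd A (by simp))
    have pB := sz_pos hm (hd B (by simp))
    have pC := sz_pos hm (hd C (by simp))
    have hW0 : W0 = opn A ++ opn B ++ opn C := by simp [hW0d]
    have hW0l : W0.length = sz m (h + 1) A + sz m (h + 1) B + sz m (h + 1) C := by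
      rw [hW0, sz_succ, sz_succ, sz_succ, List.length_append, List.length_append]
    have sA : 2 ≤ (pat m ((opn A).map (sz m h))).count true :=
      hdA.1.s2 (by rw [pat_length, List.length_map, ← sz_succ (m := m)]; omega)
    have sC : 2 ≤ (pat m ((opn C).map (sz m h))).count true :=
      hdC.1.s2 (by rw [pat_length, List.length_map, ← sz_succ (m := m)]; omega)
    have dA : 2 ≤ (pat m ((W0.map (sz m h)).take (m - 1))).count true := by
      refine le_trans ?_ (cT_take_mono m _ (i := (opn A).length) ?_)
      · rw [hW0, List.append_assoc, List.map_append,
          List.take_left' (by rw [List.length_map])]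
        exact sA
      · rw [← sz_succ (m := m)]; omega
    have dC : 2 ≤ (pat m ((W0.map (sz m h)).reverse.take m)).count true := by
      refine le_trans ?_ (cT_take_mono m _ (i := (opn C).length) ?_)
      · rw [hW0, List.map_append, List.reverse_append,
          List.take_left' (by rw [List.length_reverse, List.length_map]), pat_reverse,
          List.count_reverse]
        exact sC
      · rw [← sz_succ (m := m)]; omega
    have dA' := le_trans dA (s5 (m - 1)).1
    have dC' := le_trans dC (s5 m).2
    have t1 : tgt m .T ≤ W.length := by
      simp only [tgt] at s4 ⊢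
      omega
    refine ⟨t1, s3, by rw [hW0l]; simp only [ar]; omega, hd0, ?_⟩
    have hWl : (W.map (sz m h)).length = W.length := List.length_map ..
    by_cases hl : W.length = 2 * m
    · left
      intro v hv
      have hlen : (pat m (W.map (sz m h))).length ≤ 2 * m := by
        rw [pat_length, hWl, hl]
      simp only [cut, hlen, if_true, List.mem_cons, List.not_mem_nil, or_false] at hv
      rcases hv with rfl | rfl
      · refine ok_of (by rw [List.length_take]; omega) ?_
        refine le_trans dA' ?_
        have e : (pat m (W.map (sz m h))).take m = pat m ((W.map (sz m h)).take m) := by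
          simp [pat, List.map_take]
        rw [e]
        exact cT_take_mono m _ (by omega)
      · refine ok_of (by rw [List.length_drop, pat_length, hWl]; omega) ?_
        have e : (pat m (W.map (sz m h))).drop m =
            (pat m ((W.map (sz m h)).reverse.take m)).reverse := by
          rw [← pat_reverse, List.reverse_take, List.reverse_reverse, List.length_reverse, hWl]
          have : W.length - m = m := by omega
          rw [this]
          simp [pat, List.map_drop]
        rw [e, List.count_reverse]
        exact dC'
    · simp only [tgt] at t1
      have hgt : 2 * m < W.length := lt_of_le_of_ne t1 (Ne.symm hl)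
      have hnone : red1 m h W = none := by
        rcases s6 with s6 | s6
        · exfalso
          simp only [tgt] at s6
          omega
        · exact s6
      have hn := nrm_of_none hm s1 hnone
      have := tripT hm4 hn (by rw [List.length_map]; exact hgt)
        (by rw [List.length_map]; have : W.length ≤ W0.length := s3; omega) dA' dC'
      rcases this with h' | h'
      · exact Or.inl h'
      · exact Or.inr ⟨hgt, h'⟩
  · obtain ⟨a, b, hF, hab, hT, hm3⟩ := app_pair hg happ
    obtain ⟨A, B, rfl⟩ : ∃ A B, F = [A, B] := by
      match F, hF with
      | [A, B], _ => exact ⟨A, B, rfl⟩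
    simp only [List.map_cons, List.map_nil, List.cons.injEq] at hF
    obtain ⟨rfl, rfl, -⟩ := hF
    have hdA := (dn_succ A).1 (hd A (by simp))
    have hdB := (dn_succ B).1 (hd B (by simp))
    have pA := sz_pos hm (hd A (by simp))
    have pB := sz_pos hm (hd B (by simp))
    have htg : tgt m g = m := by
      cases g
      · rfl
      · rfl
      · exact absurd rfl hg
    have har : ar g = 2 := by
      cases g
      · rfl
      · rfl
      · exact absurd rfl hg
    have hW0 : W0 = opn A ++ opn B := by simp [hW0d]
    have hW0l : W0.length = sz m (h + 1) A + sz m (h + 1) B := by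
      rw [hW0, sz_succ, sz_succ, List.length_append]
    have hlA : (pat m ((opn A).map (sz m h))).length = sz m (h + 1) A := by
      rw [pat_length, List.length_map, sz_succ]
    have hlB : (pat m ((opn B).map (sz m h))).length = sz m (h + 1) B := by
      rw [pat_length, List.length_map, sz_succ]
    have sA := hdA.1.s1
    have sB := hdB.1.s1
    have sA2 : 3 ≤ sz m (h + 1) A → 2 ≤ (pat m ((opn A).map (sz m h))).count true :=
      fun h => hdA.1.s2 (by omega)
    have sB2 : 3 ≤ sz m (h + 1) B → 2 ≤ (pat m ((opn B).map (sz m h))).count true :=
      fun h => hdB.1.s2 (by omega)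
    have c0 : (pat m (W0.map (sz m h))).count true =
        (pat m ((opn A).map (sz m h))).count true +
          (pat m ((opn B).map (sz m h))).count true := by
      rw [hW0, List.map_append, pat_append, List.count_append]
    have hWW : W.length ≤ W0.length := s3
    have cW : (pat m (W0.map (sz m h))).count true ≤ (pat m (W.map (sz m h))).count true :=
      dom_full s5 (by rw [List.length_map, List.length_map]; exact s3)
    have dA : (pat m ((opn A).map (sz m h))).count true ≤
        (pat m ((W.map (sz m h)).take m)).count true := by
      refine le_trans ?_ (s5 m).1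
      refine le_trans ?_ (cT_take_mono m _ (i := (opn A).length) ?_)
      · rw [hW0, List.map_append, List.take_left' (by rw [List.length_map])]
      · rw [← sz_succ (m := m)]; exact pA.2
    have dB : (pat m ((opn B).map (sz m h))).count true ≤
        (pat m ((W.map (sz m h)).reverse.take m)).count true := by
      refine le_trans ?_ (s5 m).2
      refine le_trans ?_ (cT_take_mono m _ (i := (opn B).length) ?_)
      · rw [hW0, List.map_append, List.reverse_append,
          List.take_left' (by rw [List.length_reverse, List.length_map]), pat_reverse,
          List.count_reverse]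
      · rw [← sz_succ (m := m)]; exact pB.2
    have t1 : m ≤ W.length := by
      rw [htg] at s4
      omega
    rw [htg, har]
    refine ⟨t1, s3, by omega, hd0, ?_⟩
    have hWl : (W.map (sz m h)).length = W.length := List.length_map ..
    by_cases hl : W.length = m
    · left
      have hlen : (pat m (W.map (sz m h))).length = m := by rw [pat_length, hWl, hl]
      have hcut : cut m g (pat m (W.map (sz m h))) = [pat m (W.map (sz m h))] := by
        cases g
        · simp [cut, hlen]
        · simp [cut, hlen]
        · exact absurd rfl hg
      intro v hv
      rw [hcut, List.mem_singleton] at hv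
      subst hv
      exact ok_of (le_of_eq hlen) (by omega)
    · have hgt : m < W.length := lt_of_le_of_ne t1 (Ne.symm hl)
      have hnone : red1 m h W = none := by
        rcases s6 with s6 | s6
        · exfalso
          rw [htg] at s6
          omega
        · exact s6
      have hn := nrm_of_none hm s1 hnone
      have goalR : g = .R → OkCut m .R (pat m (W.map (sz m h))) ∨ Win m .R (W.map (sz m h)) := by
        intro _
        by_cases hm4 : 4 ≤ m
        · apply pairR hm4 hn
          · omega
          · omega
          · by_cases h3 : 3 ≤ sz m (h + 1) A
            · have := sA2 h3; omega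
            · have := sB2 (by omega); omega
          · intro h4
            have := sA2 (by omega)
            have := sB2 (by omega)
            omega
          · omega
          · intro h4
            have : ¬ 3 ≤ sz m (h + 1) A := by
              intro h3; have := sA2 h3; omega
            omega
        · have hm' : m = 3 := by omega
          subst hm'
          by_cases h4 : W.length = 4
          · apply t4R hn.pos (by omega)
            rcases hm3 rfl with e | e
            · have := sA2 (by omega); omega
            · have := sB2 (by omega); omega
          · have h5 : W.length = W0.length := by omega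
            have eW : W = W0 := ssame h5
            rw [eW, hW0] at hn ⊢
            rcases hm3 rfl with e | e
            · left
              have e3 : ((opn A).map (sz 3 h)).length = 3 := by
                rw [List.length_map, ← sz_succ (m := 3)]; exact e
              apply t5R'
              · rw [List.map_append, List.length_append, e3, List.length_map,
                  ← sz_succ (m := 3)]
                omega
              · rw [List.map_append, List.take_left' e3]; exact hdA.1
              · rw [List.map_append, List.drop_left' e3]; exact hdB.1
            · have e2 : ((opn A).map (sz 3 h)).length = 2 := by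
                rw [List.length_map, ← sz_succ (m := 3)]; omega
              apply t5R hn.pos
              · rw [List.map_append, List.length_append, e2, List.length_map,
                  ← sz_succ (m := 3)]
                omega
              · rw [List.map_append, List.take_left' e2]; exact hdA.1
              · rw [List.map_append, List.drop_left' e2]; exact hdB.1
      have goalL : g = .L → OkCut m .L (pat m (W.map (sz m h))) ∨ Win m .L (W.map (sz m h)) := by
        intro _
        by_cases hm4 : 4 ≤ m
        · apply pairL hm4 hn
          · omega
          · omega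
          · by_cases h3 : 3 ≤ sz m (h + 1) A
            · have := sA2 h3; omega
            · have := sB2 (by omega); omega
          · intro h4
            have := sA2 (by omega)
            have := sB2 (by omega)
            omega
          · omega
          · intro h4
            have : ¬ 3 ≤ sz m (h + 1) B := by
              intro h3; have := sB2 h3; omega
            omega
        · have hm' : m = 3 := by omega
          subst hm'
          have hn' := nrm_reverse hn
          have hlr : ((W.map (sz 3 h)).reverse).length = W.length := by
            rw [List.length_reverse, hWl]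
          have key : OkCut 3 .R (pat 3 (W.map (sz 3 h)).reverse) ∨
              Win 3 .R (W.map (sz 3 h)).reverse := by
            by_cases h4 : W.length = 4
            · apply t4R hn'.pos (by omega)
              rw [pat_reverse, List.count_reverse]
              rcases hm3 rfl with e | e
              · have := sA2 (by omega); omega
              · have := sB2 (by omega); omega
            · have h5 : W.length = W0.length := by omega
              have eW : W = W0 := ssame h5
              have er : (W.map (sz 3 h)).reverse =
                  ((opn B).map (sz 3 h)).reverse ++ ((opn A).map (sz 3 h)).reverse := by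
                rw [eW, hW0, List.map_append, List.reverse_append]
              have hlr5 : ((W.map (sz 3 h)).reverse).length = 5 := by rw [hlr]; omega
              rcases hm3 rfl with e | e
              · have e2 : ((opn B).map (sz 3 h)).reverse.length = 2 := by
                  rw [List.length_reverse, List.length_map, ← sz_succ (m := 3)]; omega
                apply t5R hn'.pos hlr5
                · rw [er, List.take_left' e2, pat_reverse, ok_reverse]; exact hdB.1
                · rw [er, List.drop_left' e2, pat_reverse, ok_reverse]; exact hdA.1
              · left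
                have e3 : ((opn B).map (sz 3 h)).reverse.length = 3 := by
                  rw [List.length_reverse, List.length_map, ← sz_succ (m := 3)]; omega
                apply t5R' hlr5
                · rw [er, List.take_left' e3, pat_reverse, ok_reverse]; exact hdB.1
                · rw [er, List.drop_left' e3, pat_reverse, ok_reverse]; exact hdA.1
          rcases key with k | k
          · left; apply okcut_mir; rwa [← pat_reverse]
          · right; exact win_mir k
      cases g
      · rcases goalR rfl with k | k
        · exact Or.inl k
        · exact Or.inr ⟨hgt, k⟩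
      · rcases goalL rfl with k | k
        · exact Or.inl k
        · exact Or.inr ⟨hgt, k⟩
      · exact absurd rfl hg

theorem plan_none {m : ℕ} {g : Goal} {q : List ℕ} (h : plan m g q = none) (hw : Win m g q) :
    OkCut m g (pat m q) := by
  unfold plan at h
  split_ifs at h with hc
  · exact hc
  · exfalso
    obtain ⟨x, w, y, g', hq, hlen, happ, ho⟩ := hw
    have hmem : (x.length, g') ∈ (List.range q.length).flatMap
        (fun i => [(i, Goal.R), (i, Goal.L), (i, Goal.T)]) := by
      rw [List.mem_flatMap]
      refine ⟨x.length, ?_, by cases g' <;> simp⟩
      rw [List.mem_range, hq]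
      have : 0 < ar g' := by cases g' <;> simp [ar]
      simp only [List.length_append]
      omega
    have := List.find?_eq_none.1 h _ hmem
    apply this
    simp only [decide_eq_true_eq]
    have e1 : q.take x.length = x := by rw [hq, List.append_assoc, List.take_left' rfl]
    have e2 : (q.drop x.length).take (ar g') = w := by
      rw [hq, List.append_assoc, List.drop_left' rfl, List.take_left' hlen]
    have e3 : q.drop (x.length + ar g') = y := by
      rw [hq, List.drop_left' (by rw [List.length_append, hlen])]
    refine ⟨?_, ?_⟩
    · rw [e2]; exact happ
    · rw [e1, e3]; exact ho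

theorem plan_some {m : ℕ} {g : Goal} {q : List ℕ} {w : ℕ × Goal} (h : plan m g q = some w) :
    ¬ OkCut m g (pat m q) ∧ Gw m g q w := by
  unfold plan at h
  split_ifs at h with hc
  have := List.find?_some h
  simp only [decide_eq_true_eq] at this
  exact ⟨hc, this⟩

theorem chg_mono {m a b : ℕ} (h : a ≤ b) : chg m a ≤ chg m b :=
  Nat.mul_le_mul_right _ (by omega)

theorem outs_len {g : Goal} {o : List Bool} (h : o ∈ outs g) :
    o.length = ar g ∨ o.length + 1 = ar g := by
  cases g <;> simp [outs] at h <;> rcases h with rfl | rfl <;> simp [ar]

/-- The restructuring procedure is correct. -/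
theorem op_spec {m : ℕ} (hm : 3 ≤ m) : OpSpec m := by
  intro α _ h
  induction h with
  | zero =>
    intro g F _ happ
    exfalso
    obtain ⟨n, hn, hne⟩ := app_ne happ
    obtain ⟨p, _, rfl⟩ := List.mem_map.1 hn
    exact hne rfl
  | succ h ih =>
    intro g F hd happ
    obtain ⟨t1, t2, t3, hd0, t4⟩ := main hm hd happ rfl rfl
    obtain ⟨s1, s2, s3, s4, s5, s6⟩ :=
      redn_spec ((F.flatMap opn).length - tgt m g) hd0
    have hflat : F.flatMap (flat (h + 1)) = (F.flatMap opn).flatMap (flat h) := by
      rw [List.flatMap_assoc]
      have : (fun p : P α (h + 1) => (opn p).flatMap (flat h)) = flat (h + 1) := by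
        funext p
        exact (flat_succ p).symm
      rw [this]
    have hsum : (F.map (sz m (h + 1))).sum = (F.flatMap opn).length := by
      rw [List.length_flatMap]
      congr 1
      apply List.map_congr_left
      intro p _
      exact sz_succ p
    have har : ar g ≤ 3 := by cases g <;> simp [ar]
    have h3m : ar g * m ≤ 3 * m := Nat.mul_le_mul_right _ har
    rw [op]
    dsimp only
    obtain ⟨W, hW⟩ : ∃ W, redn m h ((F.flatMap opn).length - tgt m g) (F.flatMap opn) = W :=
      ⟨_, rfl⟩
    rw [hW] at t1 t2 t4 s1 s2 s3 s4 s5 s6 ⊢
    split
    · rename_i hp
      have hok : OkCut m g (pat m (W.map (sz m h))) := by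
        rcases t4 with t4 | t4
        · exact t4
        · exact plan_none hp t4.2
      obtain ⟨f1, f2', f3', f4⟩ := fin hm s1 hok t1 (lt_of_le_of_lt t2 t3)
      refine ⟨f1, ?_, f3', ?_, ?_⟩
      · rw [f2', s2, hflat]
      · rw [f4, hsum]; exact t2
      · have := chg_mono (m := m) (a := (F.flatMap opn).length) (b := 3 * m) (by omega)
        dsimp only
        nlinarith
    · rename_i w hp
      obtain ⟨hno, happ', hout⟩ := plan_some hp
      have hgt : tgt m g < W.length := by
        rcases t4 with t4 | t4
        · exact absurd t4 hno
        · exact t4.1
      have hdF : ∀ p ∈ (W.drop w.1).take (ar w.2), Dn m 2 h p.2 := fun p hp =>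
        s1 p (List.mem_of_mem_drop (List.mem_of_mem_take hp))
      have happ'' : App m w.2 (((W.drop w.1).take (ar w.2)).map (sz m h)) := by
        rw [List.map_take, List.map_drop]; exact happ'
      obtain ⟨r1, r2, r3, r4, r5⟩ := ih w.2 _ hdF happ''
      obtain ⟨r, hr⟩ : ∃ r, op m h w.2 ((W.drop w.1).take (ar w.2)) = r := ⟨_, rfl⟩
      rw [hr] at r1 r2 r3 r4 r5 ⊢
      have hlen := app_len happ''
      rw [List.length_map] at hlen
      have hsplit : W.take w.1 ++ (W.drop w.1).take (ar w.2) ++ W.drop (w.1 + ar w.2) = W := by
        rw [List.append_assoc, ← List.drop_drop, List.take_append_drop, List.take_append_drop]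
      have hWlen : W.length = (W.take w.1).length + ar w.2 + (W.drop (w.1 + ar w.2)).length := by
        conv_lhs => rw [← hsplit]
        rw [List.length_append, List.length_append, hlen]
      have hrlen : r.1.length = ar w.2 ∨ r.1.length + 1 = ar w.2 := by
        have := outs_len r3
        rwa [pat_length, List.length_map] at this
      obtain ⟨V, hV⟩ : ∃ V, W.take w.1 ++ r.1 ++ W.drop (w.1 + ar w.2) = V := ⟨_, rfl⟩
      rw [hV]
      have hVlen : V.length = (W.take w.1).length + r.1.length +
          (W.drop (w.1 + ar w.2)).length := by
        rw [← hV, List.length_append, List.length_append]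
      have hVd : ∀ p ∈ V, Dn m 2 h p.2 := by
        intro p hp
        rw [← hV] at hp
        simp only [List.mem_append] at hp
        rcases hp with (hp | hp) | hp
        · exact s1 p (List.mem_of_mem_take hp)
        · exact r1 p hp
        · exact s1 p (List.mem_of_mem_drop hp)
      have hVok : OkCut m g (pat m (V.map (sz m h))) := by
        have := hout _ r3
        have e : pat m (V.map (sz m h)) = pat m ((W.map (sz m h)).take w.1) ++
            pat m (r.1.map (sz m h)) ++ pat m ((W.map (sz m h)).drop (w.1 + ar w.2)) := by
          rw [← hV, List.map_append, List.map_append, pat_append, pat_append, List.map_take,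
            List.map_drop]
        rw [e]
        exact this
      obtain ⟨f1, f2', f3', f4⟩ := fin hm hVd hVok (by omega) (by omega)
      refine ⟨f1, ?_, f3', ?_, ?_⟩
      · rw [f2', hflat, ← s2, ← hV, ← hsplit]
        simp only [List.flatMap_append]
        rw [hsplit, r2]
      · rw [f4, hsum]; omega
      · have := chg_mono (m := m) (a := (F.flatMap opn).length) (b := 3 * m) (by omega)
        dsimp only
        nlinarith

end LGI
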