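import Pool.Agent.LGI.Mach
import Pool.Agent.LGI.Op

/-!
# Project LGI: the restructuring procedure on the pointer machine
-/

namespace LGI

variable {α β γ : Type}

/-- Open a list of nodes. -/
def opensP : List (α × ℕ) → Prog α (List (α × ℕ))
  | [] => .ret []
  | p :: l => (rdP p).bind fun a => (opensP l).bind fun b => .ret (a ++ b)

theorem opensP_sim {M : Mem α} {m h : ℕ} (hm : 3 ≤ m) {l : List (α × ℕ)}
    {L : List (P α (h + 1))} (hd : ∀ q ∈ L, Dn m 2 (h + 1) q.2) (hl : HL M (h + 1) l L) :
    Sim M (opensP l) (2 * m * L.length) (fun M' v => M' = M ∧ HL M h v (L.flatMap opn)) := by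
  induction L generalizing l with
  | nil =>
    cases hl
    exact Sim.ret _ ⟨rfl, List.Forall₂.nil⟩
  | cons q L ih =>
    cases hl with
    | @cons p _ l _ hp hl =>
    refine ((rdP_sim hp (dn_le hm hd q (by simp))).bind (k' := 2 * m * L.length + 0) ?_).le
      (by simp [Nat.mul_add]; omega)
    rintro _ a - ⟨rfl, ha⟩
    refine (ih (fun q hq => hd q (List.mem_cons_of_mem _ hq)) hl).bind ?_
    rintro _ b - ⟨rfl, hb⟩
    refine Sim.ret _ ⟨rfl, ?_⟩
    rw [List.flatMap_cons]
    exact HL.append ha hb

/-- Make several nodes. -/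
def mksP (d : α) : List (List (α × ℕ)) → Prog α (List (α × ℕ))
  | [] => .ret []
  | x :: l => (mkP d x).bind fun a => (mksP d l).bind fun b => .ret (a :: b)

theorem mksP_sim [Inhabited α] {M : Mem α} {h K : ℕ} {d : α} {l : List (List (α × ℕ))}
    {L : List (List (P α h))} (hl : List.Forall₂ (HL M h) l L) (hne : ∀ X ∈ L, X ≠ [])
    (hK : ∀ X ∈ L, X.length ≤ K) :
    Sim M (mksP d l) (2 * K * L.length) (fun M' v => HL M' (h + 1) v (L.map cls)) := by
  induction L generalizing M l with
  | nil =>
    cases hl
    exact Sim.ret _ List.Forall₂.nil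
  | cons q L ih =>
    cases hl with
    | @cons p _ l _ hp hl =>
    refine ((mkP_sim hp (hne q (by simp)) (hK q (by simp))).bind
      (k' := 2 * K * L.length + 0) ?_).le (by simp [Nat.mul_add]; omega)
    intro M' a e ha
    refine (ih (List.Forall₂.imp (fun _ _ h => HL.ext e h) hl)
      (fun X hX => hne X (by simp [hX])) (fun X hX => hK X (by simp [hX]))).bind ?_
    intro M'' b e' hb
    exact Sim.ret _ (List.Forall₂.cons (ha.ext e') hb)

theorem cut_rel {M : Mem α} {h : ℕ} (m : ℕ) (g : Goal) {w : List (α × ℕ)} {W : List (P α h)}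
    (hw : HL M h w W) : List.Forall₂ (HL M h) (cut m g w) (cut m g W) := by
  have hl := hw.length
  cases g
  · simp only [cut, hl]
    split_ifs
    · exact .cons hw .nil
    · exact .cons (hw.take _) (.cons (hw.drop _) .nil)
  · simp only [cut, hl]
    split_ifs
    · exact .cons hw .nil
    · exact .cons (hw.take _) (.cons (hw.drop _) .nil)
  · simp only [cut, hl]
    split_ifs
    · exact .cons (hw.take _) (.cons (hw.drop _) .nil)
    · exact .cons (hw.take _) (.cons ((hw.drop _).take _) (.cons ((hw.drop _).drop _) .nil))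

theorem cut_len {β : Type} (m : ℕ) (g : Goal) (W : List β) : (cut m g W).length ≤ 3 := by
  cases g <;> simp only [cut] <;> split_ifs <;> simp

theorem cut_mem_len {β : Type} {m : ℕ} {g : Goal} {W X : List β} (hX : X ∈ cut m g W) :
    X.length ≤ W.length := by
  have h1 : X.Sublist (cut m g W).flatten := List.sublist_flatten_of_mem hX
  rw [cut_flatten] at h1
  exact h1.length_le

theorem cut_ne {h m : ℕ} {g : Goal} {V : List (P α h)}
    (hok : OkCut m g (pat m (V.map (sz m h)))) : ∀ X ∈ cut m g V, X ≠ [] := by
  have hok' : ∀ X ∈ cut m g V, Ok m 2 (pat m (X.map (sz m h))) := by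
    intro X hX
    apply hok
    rw [pat, cut_map, cut_map]
    rw [List.mem_map]
    exact ⟨X.map (sz m h), List.mem_map_of_mem hX, rfl⟩
  intro X hX h
  have := (hok' X hX).1
  rw [h] at this
  simp [pat] at this

/-- `op` as a program. -/
def opP [Inhabited α] (m : ℕ) : (h : ℕ) → Goal → List (α × ℕ) → Prog α (List (α × ℕ))
  | 0, _, F => .ret F
  | h + 1, g, F => (opensP F).bind fun W0 =>
    (rednP m h (W0.length - tgt m g) W0).bind fun W => (szsP m h W).bind fun q =>
      match plan m g q with
      | none => mksP default (cut m g W)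
      | some w => (opP m h w.2 ((W.drop w.1).take (ar w.2))).bind fun r =>
          mksP default (cut m g (W.take w.1 ++ r ++ W.drop (w.1 + ar w.2)))

/-- A constant. -/
def c2 (m : ℕ) : ℕ := 2 * m * 3 + (3 * m * c1 m (3 * m) + (2 * m * (3 * m) + 2 * (3 * m) * 3))

theorem opP_sim [Inhabited α] {m : ℕ} (hm : 3 ≤ m) (h : ℕ) (g : Goal) {M : Mem α}
    {l : List (α × ℕ)} {F : List (P α h)} (hd : ∀ p ∈ F, Dn m 2 h p.2)
    (happ : App m g (F.map (sz m h))) (hl : HL M h l F) :
    Sim M (opP m h g l) (h * c2 m) (fun M' r => HL M' h r (op m h g F).1) := by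
  induction h generalizing g M l with
  | zero => exact Sim.ret _ hl
  | succ h ih =>
    obtain ⟨t1, t2, t3, hd0, t4⟩ := main hm hd happ rfl rfl
    obtain ⟨s1, s2, s3, s4, s5, s6⟩ :=
      redn_spec ((F.flatMap opn).length - tgt m g) hd0
    have har : ar g ≤ 3 := by cases g <;> simp [ar]
    have h3m : ar g * m ≤ 3 * m := Nat.mul_le_mul_right _ har
    have hF : F.length ≤ 3 := by
      have := app_len happ
      rw [List.length_map] at this
      omega
    rw [op, opP]
    dsimp only
    refine (((opensP_sim hm hd hl).le (Nat.mul_le_mul_left _ hF)).bind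
      (k' := 3 * m * c1 m (3 * m) + (2 * m * (3 * m) + (h * c2 m + 2 * (3 * m) * 3))) ?_).le
      (by
        have e1 : (h + 1) * c2 m = h * c2 m + c2 m := Nat.succ_mul _ _
        have e2 : c2 m = 2 * m * 3 +
          (3 * m * c1 m (3 * m) + (2 * m * (3 * m) + 2 * (3 * m) * 3)) := rfl
        omega)
    rintro _ w0 - ⟨rfl, hw0⟩
    rw [hw0.length]
    refine ((rednP_sim hm ((F.flatMap opn).length - tgt m g) (3 * m) hd0 hw0 (by omega)).le
      (Nat.mul_le_mul_right _ (by omega))).bind ?_
    intro M1 w e1 hw
    obtain ⟨W, hW⟩ : ∃ W, redn m h ((F.flatMap opn).length - tgt m g) (F.flatMap opn) = W :=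
      ⟨_, rfl⟩
    rw [hW] at t1 t2 t4 s1 s2 s3 s4 s5 s6 hw ⊢
    refine ((szsP_sim hw (dn_le hm s1)).le
      (Nat.mul_le_mul_left _ (by omega : W.length ≤ 3 * m))).bind ?_
    rintro _ q - ⟨rfl, rfl⟩
    cases hp : plan m g (W.map (sz m h)) with
    | none =>
      have hok : OkCut m g (pat m (W.map (sz m h))) := by
        rcases t4 with t4 | t4
        · exact t4
        · exact plan_none hp t4.2
      refine (mksP_sim (cut_rel m g hw) (cut_ne hok) (K := 3 * m)
        (fun X hX => (cut_mem_len hX).trans (by omega))).le ?_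
      have := Nat.mul_le_mul_left (2 * (3 * m)) (cut_len m g W)
      omega
    | some w' =>
      obtain ⟨hno, happ', hout⟩ := plan_some hp
      have hgt : tgt m g < W.length := by
        rcases t4 with t4 | t4
        · exact absurd t4 hno
        · exact t4.1
      have hdF : ∀ p ∈ (W.drop w'.1).take (ar w'.2), Dn m 2 h p.2 := fun p hp =>
        s1 p (List.mem_of_mem_drop (List.mem_of_mem_take hp))
      have happ'' : App m w'.2 (((W.drop w'.1).take (ar w'.2)).map (sz m h)) := by
        rw [List.map_take, List.map_drop]; exact happ'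
      obtain ⟨r1, r2, r3, r4, r5⟩ := op_spec hm α h w'.2 _ hdF happ''
      refine (ih w'.2 hdF happ'' ((hw.drop _).take _)).bind ?_
      intro M2 r e2 hr
      obtain ⟨R, hR⟩ : ∃ R, op m h w'.2 ((W.drop w'.1).take (ar w'.2)) = R := ⟨_, rfl⟩
      rw [hR] at r1 r2 r3 r4 r5 hr
      dsimp only
      rw [hR]
      have hlen := app_len happ''
      rw [List.length_map] at hlen
      have hrlen : R.1.length = ar w'.2 ∨ R.1.length + 1 = ar w'.2 := by
        have := outs_len r3
        rwa [pat_length, List.length_map] at this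
      have hsplit : W.take w'.1 ++ (W.drop w'.1).take (ar w'.2) ++ W.drop (w'.1 + ar w'.2) = W := by
        rw [List.append_assoc, ← List.drop_drop, List.take_append_drop, List.take_append_drop]
      have hWlen : W.length = (W.take w'.1).length + ar w'.2 +
          (W.drop (w'.1 + ar w'.2)).length := by
        conv_lhs => rw [← hsplit]
        rw [List.length_append, List.length_append, hlen]
      obtain ⟨V, hV⟩ : ∃ V, W.take w'.1 ++ R.1 ++ W.drop (w'.1 + ar w'.2) = V := ⟨_, rfl⟩
      have hVlen : V.length = (W.take w'.1).length + R.1.length +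
          (W.drop (w'.1 + ar w'.2)).length := by
        rw [← hV, List.length_append, List.length_append]
      have hVok : OkCut m g (pat m (V.map (sz m h))) := by
        have := hout _ r3
        have e : pat m (V.map (sz m h)) = pat m ((W.map (sz m h)).take w'.1) ++
            pat m (R.1.map (sz m h)) ++ pat m ((W.map (sz m h)).drop (w'.1 + ar w'.2)) := by
          rw [← hV, List.map_append, List.map_append, pat_append, pat_append, List.map_take,
            List.map_drop]
        rw [e]
        exact this
      have hVr := (((hw.take w'.1).ext e2).append hr).append ((hw.drop (w'.1 + ar w'.2)).ext e2)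
      rw [hV] at hVr ⊢
      refine (mksP_sim (cut_rel m g hVr) (cut_ne hVok) (K := 3 * m)
        (fun X hX => (cut_mem_len hX).trans (by omega))).le ?_
      exact Nat.mul_le_mul_left (2 * (3 * m)) (cut_len m g V)

end LGI
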