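import Pool.Agent.LGI.Mach2
import Pool.Agent.LGI.Ins

/-!
# Project LGI: the insertion on the pointer machine
-/

namespace LGI

variable {α β γ : Type}

/-- `mrg` as a program. -/
def mrgP (d : α) : ℕ → α × ℕ → α × ℕ → Prog α (α × ℕ)
  | 0, a, _ => .ret a
  | _ + 1, a, b => (rdP a).bind fun la => (rdP b).bind fun lb => mkP d (la ++ lb)

theorem mrgP_sim [Inhabited α] {M : Mem α} {m h : ℕ} (hm : 3 ≤ m) {d : α} {a b : α × ℕ}
    {A B : P α h} (ha : HP M h a A) (hb : HP M h b B) (hdA : Dn m 2 h A.2)
    (hdB : Dn m 2 h B.2) :
    Sim M (mrgP d h a b) (8 * m) (fun M' c => HP M' h c (mrg h A B)) := by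
  cases h with
  | zero => exact Sim.ret _ ha
  | succ h =>
    have sA := (sz_pos hm hdA).2
    have sB := (sz_pos hm hdB).2
    rw [mrgP]
    refine ((rdP_sim ha sA).bind (k' := 2 * m + 2 * (2 * m)) ?_).le (by omega)
    rintro _ la - ⟨rfl, hla⟩
    refine (rdP_sim hb sB).bind ?_
    rintro _ lb - ⟨rfl, hlb⟩
    refine mkP_sim (hla.append hlb) (by simp [opn_ne]) ?_
    rw [sz_succ] at sA sB
    rw [List.length_append]
    omega

/-- `pushR` as a program. -/
def pushRP [Inhabited α] (m h : ℕ) (c : α × ℕ) : List (α × ℕ) → Prog α (List (α × ℕ))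
  | [] => .ret [c]
  | y :: ys => (szP m h y).bind fun n =>
      if n ≠ m then (mrgP default h c y).bind fun z => .ret (z :: ys) else
      (opP m h .R [c, y]).bind fun r =>
        match r with
        | [s, c'] => (pushRP m h c' ys).bind fun e => .ret (s :: e)
        | l => .ret (l ++ ys)

theorem pushRP_sim [Inhabited α] {m : ℕ} (hm : 3 ≤ m) {h : ℕ} {M : Mem α} {ys : List (α × ℕ)}
    {Ys : List (P α h)} {c : α × ℕ} {C : P α h} (hC : sz m h C = 1) (hdC : Dn m 2 h C.2)
    (hd : ∀ y ∈ Ys, Dn m 2 h y.2) (hc : HP M h c C) (hys : HL M h ys Ys) :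
    Sim M (pushRP m h c ys) (Ys.length * (10 * m + h * c2 m))
      (fun M' v => HL M' h v (pushR m h C Ys).1) := by
  induction Ys generalizing M ys c C with
  | nil =>
    cases hys
    exact Sim.ret _ (.cons hc .nil)
  | cons Y Ys ih =>
    cases hys with
    | @cons y _ ys _ hy hys =>
    have hdY : Dn m 2 h Y.2 := hd Y List.mem_cons_self
    rw [pushRP, pushR]
    have e0 : (Y :: Ys).length * (10 * m + h * c2 m) =
        2 * m + (8 * m + h * c2 m + Ys.length * (10 * m + h * c2 m)) := by
      rw [List.length_cons]; ring
    rw [e0]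
    refine (szP_sim hy (sz_pos hm hdY).2).bind ?_
    rintro _ n - ⟨rfl, rfl⟩
    by_cases hYm : sz m h Y = m
    · rw [if_neg (by simpa using hYm), if_neg (by simpa using hYm)]
      dsimp only
      have happ : App m .R ([C, Y].map (sz m h)) := by
        show ¬ (sz m h C = m ∧ sz m h Y = m) ∧ m < sz m h C + sz m h Y ∧
          (m = 3 → sz m h C = m ∨ sz m h Y = m)
        rw [hC, hYm]
        exact ⟨by omega, by omega, fun _ => Or.inr rfl⟩
      have hdd : ∀ p ∈ [C, Y], Dn m 2 h p.2 := by
        intro p hp
        simp only [List.mem_cons, List.not_mem_nil, or_false] at hp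
        rcases hp with rfl | rfl
        · exact hdC
        · exact hdY
      obtain ⟨o1, o2, o3, o4, o5⟩ := op_spec hm α h .R [C, Y] hdd happ
      refine ((opP_sim hm h .R hdd happ (.cons hc (.cons hy .nil))).bind
        (k' := Ys.length * (10 * m + h * c2 m)) ?_).le (by omega)
      intro M1 r e1 hr
      have hys' := HL.ext e1 hys
      rcases outs_R o3 with ⟨a, b, e, ha, hb⟩ | ⟨a, e, ha⟩
      · obtain ⟨S, C', E, rfl, rfl⟩ := map_two e
        rw [E] at hr o1 o4 ⊢
        have hsum : sz m h C' ≤ 1 := by
          simp only [List.map_cons, List.map_nil, List.sum_cons, List.sum_nil] at o4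
          omega
        have hdC' : Dn m 2 h C'.2 := o1 C' (by simp)
        have hC' : sz m h C' = 1 := by
          have := (sz_pos hm hdC').1
          omega
        cases hr with
        | @cons s _ _ _ hs hr =>
        cases hr with
        | @cons c' _ _ _ hc' hr =>
        cases hr
        dsimp only
        refine (ih hC' hdC' (fun y hy => hd y (List.mem_cons_of_mem _ hy)) hc' hys').bind
          (k' := 0) ?_
        intro M2 e2 e3 he2
        exact Sim.ret _ (.cons (hs.ext e3) he2)
      · obtain ⟨S, E, rfl⟩ := map_one e
        rw [E] at hr ⊢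
        cases hr with
        | @cons s _ _ _ hs hr =>
        cases hr
        exact Sim.ret _ (.cons hs hys')
    · rw [if_pos hYm, if_pos hYm]
      refine ((mrgP_sim hm hc hy hdC hdY).bind (k' := 0) ?_).le (by omega)
      intro M1 z e1 hz
      exact Sim.ret _ (.cons hz (HL.ext e1 hys))

/-- `pushL` as a program. -/
def pushLP [Inhabited α] (m h : ℕ) (c : α × ℕ) : List (α × ℕ) → Prog α (List (α × ℕ))
  | [] => .ret [c]
  | y :: ys => (szP m h y).bind fun n =>
      if n ≠ m then (mrgP default h y c).bind fun z => .ret (z :: ys) else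
      (opP m h .L [y, c]).bind fun r =>
        match r with
        | [c', s] => (pushLP m h c' ys).bind fun e => .ret (s :: e)
        | l => .ret (l.reverse ++ ys)

theorem pushLP_sim [Inhabited α] {m : ℕ} (hm : 3 ≤ m) {h : ℕ} {M : Mem α} {ys : List (α × ℕ)}
    {Ys : List (P α h)} {c : α × ℕ} {C : P α h} (hC : sz m h C = 1) (hdC : Dn m 2 h C.2)
    (hd : ∀ y ∈ Ys, Dn m 2 h y.2) (hc : HP M h c C) (hys : HL M h ys Ys) :
    Sim M (pushLP m h c ys) (Ys.length * (10 * m + h * c2 m))
      (fun M' v => HL M' h v (pushL m h C Ys).1) := by
  induction Ys generalizing M ys c C with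
  | nil =>
    cases hys
    exact Sim.ret _ (.cons hc .nil)
  | cons Y Ys ih =>
    cases hys with
    | @cons y _ ys _ hy hys =>
    have hdY : Dn m 2 h Y.2 := hd Y List.mem_cons_self
    rw [pushLP, pushL]
    have e0 : (Y :: Ys).length * (10 * m + h * c2 m) =
        2 * m + (8 * m + h * c2 m + Ys.length * (10 * m + h * c2 m)) := by
      rw [List.length_cons]; ring
    rw [e0]
    refine (szP_sim hy (sz_pos hm hdY).2).bind ?_
    rintro _ n - ⟨rfl, rfl⟩
    by_cases hYm : sz m h Y = m
    · rw [if_neg (by simpa using hYm), if_neg (by simpa using hYm)]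
      dsimp only
      have happ : App m .L ([Y, C].map (sz m h)) := by
        show ¬ (sz m h Y = m ∧ sz m h C = m) ∧ m < sz m h Y + sz m h C ∧
          (m = 3 → sz m h Y = m ∨ sz m h C = m)
        rw [hC, hYm]
        exact ⟨by omega, by omega, fun _ => Or.inl rfl⟩
      have hdd : ∀ p ∈ [Y, C], Dn m 2 h p.2 := by
        intro p hp
        simp only [List.mem_cons, List.not_mem_nil, or_false] at hp
        rcases hp with rfl | rfl
        · exact hdY
        · exact hdC
      obtain ⟨o1, o2, o3, o4, o5⟩ := op_spec hm α h .L [Y, C] hdd happ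
      refine ((opP_sim hm h .L hdd happ (.cons hy (.cons hc .nil))).bind
        (k' := Ys.length * (10 * m + h * c2 m)) ?_).le (by omega)
      intro M1 r e1 hr
      have hys' := HL.ext e1 hys
      rcases outs_L o3 with ⟨a, b, e, ha, hb⟩ | ⟨a, e, ha⟩
      · obtain ⟨C', S, E, rfl, rfl⟩ := map_two e
        rw [E] at hr o1 o4 ⊢
        have hsum : sz m h C' ≤ 1 := by
          simp only [List.map_cons, List.map_nil, List.sum_cons, List.sum_nil] at o4
          omega
        have hdC' : Dn m 2 h C'.2 := o1 C' (by simp)
        have hC' : sz m h C' = 1 := by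
          have := (sz_pos hm hdC').1
          omega
        cases hr with
        | @cons c' _ _ _ hc' hr =>
        cases hr with
        | @cons s _ _ _ hs hr =>
        cases hr
        dsimp only
        refine (ih hC' hdC' (fun y hy => hd y (List.mem_cons_of_mem _ hy)) hc' hys').bind
          (k' := 0) ?_
        intro M2 e2 e3 he2
        exact Sim.ret _ (.cons (hs.ext e3) he2)
      · obtain ⟨S, E, rfl⟩ := map_one e
        rw [E] at hr ⊢
        cases hr with
        | @cons s _ _ _ hs hr =>
        cases hr
        exact Sim.ret _ (.cons hs hys')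
    · rw [if_pos hYm, if_pos hYm]
      refine ((mrgP_sim hm hy hc hdY hdC).bind (k' := 0) ?_).le (by omega)
      intro M1 z e1 hz
      exact Sim.ret _ (.cons hz (HL.ext e1 hys))

theorem HL.reverse {M : Mem α} {h : ℕ} {l : List (α × ℕ)} {L : List (P α h)}
    (hl : HL M h l L) : HL M h l.reverse L.reverse := List.rel_reverse hl

theorem HL.getD {M : Mem α} {h : ℕ} {l : List (α × ℕ)} {L : List (P α h)}
    (hl : HL M h l L) {j : ℕ} (hj : j < L.length) (d : α × ℕ) (D : P α h) :
    HP M h (l.getD j d) (L.getD j D) := by
  induction L generalizing l j with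
  | nil => simp at hj
  | cons q L ih =>
    cases hl with
    | @cons p _ l _ hp hl =>
    cases j with
    | zero => exact hp
    | succ j =>
      simp only [List.getD_cons_succ]
      exact ih hl (by simpa using hj)

theorem HL.loc [LinearOrder α] {M : Mem α} {h : ℕ} (x : α) {l : List (α × ℕ)}
    {L : List (P α h)} (hl : HL M h l L) : loc x l = loc x L := by
  have key : ∀ (l : List (α × ℕ)) (L : List (P α h)), HL M h l L →
      (l.takeWhile (fun p => decide (p.1 < x))).length =
        (L.takeWhile (fun p => decide (p.1 < x))).length := by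
    intro l L
    induction L generalizing l with
    | nil => intro hl; cases hl; rfl
    | cons q L ih =>
      intro hl
      cases hl with
      | @cons p _ l _ hp hl =>
      rw [List.takeWhile_cons, List.takeWhile_cons, hp.1]
      split
      · rw [List.length_cons, List.length_cons, ih l hl]
      · rfl
  unfold LGI.loc
  cases hl with
  | nil => rfl
  | cons hp hl => exact key _ _ hl

/-- Insertion as a program. -/
def insP [LinearOrder α] [Inhabited α] (m : ℕ) (x : α) : ℕ → α × ℕ → Prog α (Res (α × ℕ))
  | 0, p => .ret (.over [p, (x, 0)] [p, (x, 0)])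
  | h + 1, p => (rdP p).bind fun W =>
    (insP m x h (W.getD (loc x W) default)).bind fun r =>
    match r with
    | .fit c => (mkP default (W.take (loc x W) ++ [c] ++ W.drop (loc x W + 1))).bind fun z =>
        .ret (.fit z)
    | .over a b => (szsP m h W).bind fun q =>
      if (pat m q).count false = 0 ∧ W.length = m then
        let V := W.take (loc x W) ++ (if loc x W = 0 then b else a) ++ W.drop (loc x W + 1)
        (mkP default (V.take 1)).bind fun z1 => (mkP default (V.drop 1)).bind fun z2 =>
        (mkP default (V.take m)).bind fun z3 => (mkP default (V.drop m)).bind fun z4 =>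
        .ret (.over [z1, z2] [z3, z4])
      else if W.length < m ∧ ((pat m q).count false = 0 ∨ 2 ≤ (pat m q).count true) then
        (mkP default (W.take (loc x W) ++ a ++ W.drop (loc x W + 1))).bind fun z => .ret (.fit z)
      else if (q.drop (loc x W + 1)).any (fun n => decide (n ≠ m)) then
        (pushRP m h (b.getD 1 default) (W.drop (loc x W + 1))).bind fun e =>
          (mkP default (W.take (loc x W) ++ [b.getD 0 default] ++ e)).bind fun z => .ret (.fit z)
      else
        (pushLP m h (a.getD 0 default) (W.take (loc x W)).reverse).bind fun e =>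
          (mkP default (e.reverse ++ [a.getD 1 default] ++ W.drop (loc x W + 1))).bind fun z =>
            .ret (.fit z)

/-- Related results. -/
def HR (M : Mem α) (h : ℕ) : Res (α × ℕ) → Res (P α h) → Prop
  | .fit c, .fit C => HP M h c C
  | .over a b, .over A B => HL M h a A ∧ HL M h b B
  | _, _ => False

/-- One for `fit`. -/
def fl {β : Type} : Res β → ℕ
  | .fit _ => 1
  | .over _ _ => 0

/-- A constant. -/
def c3 (m : ℕ) : ℕ := 2 * m + (2 * m * m + 8 * (m + 1))

/-- A bound. -/
def c4 (m h : ℕ) : ℕ := m * (10 * m + h * c2 m)

theorem c4_mono (m : ℕ) {h h' : ℕ} (e : h ≤ h') : c4 m h ≤ c4 m h' := by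
  unfold c4
  gcongr

theorem insP_sim [LinearOrder α] [Inhabited α] {m : ℕ} (hm : 3 ≤ m) (x : α) (h : ℕ)
    {M : Mem α} {p : α × ℕ} {q : P α h} (hpq : HP M h p q) (hd : Dn m 2 h q.2)
    (hp : (inorder h q.2).Pairwise (· < ·)) (hx : x ∉ inorder h q.2) :
    Sim M (insP m x h p) (h * c3 m + fl (ins m x h q).1 * c4 m h)
      (fun M' r => HR M' h r (ins m x h q).1) := by
  have hR : PushRS m := fun _ _ h ys c h1 h2 h3 h4 => pushR_spec hm (op_spec hm) h ys c h1 h2 h3 h4
  have hL : PushLS m := fun _ _ h ys c h1 h2 h3 h4 => pushL_spec hm (op_spec hm) h ys c h1 h2 h3 h4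
  have hC : LocS := fun _ _ _ x W h1 h2 h3 => loc_split x W h1 h2 h3
  induction h generalizing M p with
  | zero => exact Sim.ret _ ⟨.cons hpq (.cons ⟨rfl, trivial⟩ .nil),
      .cons hpq (.cons ⟨rfl, trivial⟩ .nil)⟩
  | succ h ih =>
    have htail : ((opn q).flatMap (flat h)).tail = inorder (h + 1) q.2 := by
      rw [← flat_succ]
      rfl
    obtain ⟨A, c, B, hW, h0, h1, h2, h3, h4, h5, h6⟩ := hC α h x (opn q) (opn_ne q)
      (by rw [htail]; exact hp) (by rw [htail]; exact hx)
    have hdn := (dn_succ q).1 hd
    have hlen : (opn q).length ≤ m := by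
      have := hdn.1.2.1
      simpa [pat] using this
    have hDc : Dn m 2 h c.2 := hdn.2 c (by simp [hW])
    have hDA : ∀ y ∈ A, Dn m 2 h y.2 := fun y hy => hdn.2 y (by simp [hW, hy])
    have hDB : ∀ y ∈ B, Dn m 2 h y.2 := fun y hy => hdn.2 y (by simp [hW, hy])
    have hWl : (opn q).length = A.length + (B.length + 1) := by rw [hW]; simp
    rw [insP]
    have hc4 : c4 m h ≤ c4 m (h + 1) := c4_mono m (Nat.le_succ h)
    have hc3 : (h + 1) * c3 m = h * c3 m + c3 m := Nat.succ_mul _ _
    have hc3' : c3 m = 2 * m + (2 * m * m + 8 * (m + 1)) := rfl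
    have main : ∀ M' w, M' = M → HL M' h w (opn q) → Sim M'
        ((insP m x h (w.getD (loc x w) default)).bind fun r =>
          match r with
          | .fit c => (mkP default (w.take (loc x w) ++ [c] ++ w.drop (loc x w + 1))).bind fun z =>
              .ret (.fit z)
          | .over a b => (szsP m h w).bind fun q =>
            if (pat m q).count false = 0 ∧ w.length = m then
              let V := w.take (loc x w) ++ (if loc x w = 0 then b else a) ++ w.drop (loc x w + 1)
              (mkP default (V.take 1)).bind fun z1 => (mkP default (V.drop 1)).bind fun z2 =>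
              (mkP default (V.take m)).bind fun z3 => (mkP default (V.drop m)).bind fun z4 =>
              .ret (.over [z1, z2] [z3, z4])
            else if w.length < m ∧ ((pat m q).count false = 0 ∨ 2 ≤ (pat m q).count true) then
              (mkP default (w.take (loc x w) ++ a ++ w.drop (loc x w + 1))).bind fun z =>
                .ret (.fit z)
            else if (q.drop (loc x w + 1)).any (fun n => decide (n ≠ m)) then
              (pushRP m h (b.getD 1 default) (w.drop (loc x w + 1))).bind fun e =>
                (mkP default (w.take (loc x w) ++ [b.getD 0 default] ++ e)).bind fun z =>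
                  .ret (.fit z)
            else
              (pushLP m h (a.getD 0 default) (w.take (loc x w)).reverse).bind fun e =>
                (mkP default (e.reverse ++ [a.getD 1 default] ++ w.drop (loc x w + 1))).bind
                  fun z => .ret (.fit z))
        (h * c3 m + (2 * m * m + 8 * (m + 1)) + fl (ins m x (h + 1) q).1 * c4 m (h + 1))
        (fun M' r => HR M' (h + 1) r (ins m x (h + 1) q).1) := by
      intro M1 w _ hw
      rw [hw.loc x]
      have hg : HP M1 h (w.getD (loc x (opn q)) default) c := by
        have := hw.getD (j := loc x (opn q)) (by rw [h0, hWl]; omega) default default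
        rwa [h3] at this
      have hsim := ih hg hDc h4 h5
      have hwA : ∀ M', Ext M1 M' → HL M' h (w.take (loc x (opn q))) A := by
        intro M' e
        have := (hw.ext e).take (loc x (opn q))
        rwa [h1] at this
      have hwB : ∀ M', Ext M1 M' → HL M' h (w.drop (loc x (opn q) + 1)) B := by
        intro M' e
        have := (hw.ext e).drop (loc x (opn q) + 1)
        rwa [h2] at this
      rcases ins_spec hm hR hL hC x h c hDc h4 h5 with ⟨c', e1, g1, g2, g3, g4⟩ |
        ⟨u, s, s', u', e1, g1, g2, g3, g4, g5, g6, g7, g8, g9, g10, g11⟩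
      · -- the child fits
        rw [ins_fit h1 h2 (h3 default) e1]
        rw [e1] at hsim
        refine (hsim.bind (k' := 2 * m) ?_).le ?_
        · intro M2 r e2 hr
          rcases r with r | ⟨_, _⟩
          · dsimp only
            refine ((mkP_sim (((hwA M2 e2).append (.cons hr .nil)).append (hwB M2 e2))
              (by simp) (K := m) ?_).bind (k' := 0) ?_)
            · simp only [List.length_append, List.length_cons, List.length_nil]
              omega
            · intro M3 z e3 hz
              exact Sim.ret _ hz
          · exact absurd hr id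
        · simp only [fl]
          nlinarith
      · -- two nodes instead of the child
        rw [e1] at hsim
        have hcase := ins_over h0 h1 h2 (h3 default) e1
        refine (hsim.bind (k' := 2 * m * m + 8 * (m + 1) +
          fl (ins m x (h + 1) q).1 * c4 m (h + 1)) ?_).le (by simp only [fl]; omega)
        intro M2 r e2 hr
        rcases r with _ | ⟨a, b⟩
        · exact absurd hr id
        obtain ⟨ha, hb⟩ := hr
        dsimp only
        rw [Nat.add_assoc]
        refine ((szsP_sim (hw.ext e2) (dn_le hm hdn.2)).le
          (Nat.mul_le_mul_left _ hlen)).bind ?_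
        rintro M3 qq - ⟨e3, rfl⟩
        obtain rfl : M2 = M3 := e3.symm
        have hwA' := hwA M2 e2
        have hwB' := hwB M2 e2
        have hwl : w.length = (opn q).length := hw.length
        unfold HL at ha hb
        cases ha with
        | @cons u0 _ _ _ hu0 ha =>
        cases ha with
        | @cons s0 _ _ _ hs0 ha =>
        cases ha
        cases hb with
        | @cons s1 _ _ _ hs1 hb =>
        cases hb with
        | @cons u1 _ _ _ hu1 hb =>
        cases hb
        rw [hcase]
        rw [hwl]
        by_cases q1 : (pat m ((opn q).map (sz m h))).count false = 0 ∧ (opn q).length = m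
        · rw [if_pos q1, if_pos q1, ← h0]
          dsimp only
          obtain ⟨V, hV⟩ : ∃ V, V = A ++ (if loc x (opn q) = 0 then [s', u'] else [u, s]) ++ B :=
            ⟨_, rfl⟩
          obtain ⟨v, hv⟩ : ∃ v, v = w.take (loc x (opn q)) ++
              (if loc x (opn q) = 0 then [s1, u1] else [u0, s0]) ++
              w.drop (loc x (opn q) + 1) := ⟨_, rfl⟩
          rw [← hV, ← hv]
          have hVl : V.length = m + 1 := by
            rw [hV]
            split_ifs <;> simp <;> omega
          have hvV : HL M2 h v V := by
            rw [hv, hV]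
            refine (hwA'.append ?_).append hwB'
            split_ifs
            · exact .cons hs1 (.cons hu1 .nil)
            · exact .cons hu0 (.cons hs0 .nil)
          have n1 : V.take 1 ≠ [] := by
            apply List.ne_nil_of_length_pos
            rw [List.length_take]; omega
          have n2 : V.drop 1 ≠ [] := by
            apply List.ne_nil_of_length_pos
            rw [List.length_drop]; omega
          have n3 : V.take m ≠ [] := by
            apply List.ne_nil_of_length_pos
            rw [List.length_take]; omega
          have n4 : V.drop m ≠ [] := by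
            apply List.ne_nil_of_length_pos
            rw [List.length_drop]; omega
          have l1 : (V.take 1).length ≤ m + 1 := by rw [List.length_take]; omega
          have l2 : (V.drop 1).length ≤ m + 1 := by rw [List.length_drop]; omega
          have l3 : (V.take m).length ≤ m + 1 := by rw [List.length_take]; omega
          have l4 : (V.drop m).length ≤ m + 1 := by rw [List.length_drop]; omega
          refine ((mkP_sim (hvV.take 1) n1 l1).bind
            (k' := 2 * (m + 1) + (2 * (m + 1) + (2 * (m + 1) + 0))) ?_).le (by omega)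
          intro M3 z1 e3 hz1
          refine (mkP_sim ((hvV.drop 1).ext e3) n2 l2).bind ?_
          intro M4 z2 e4 hz2
          refine (mkP_sim ((hvV.take m).ext (e3.trans e4)) n3 l3).bind ?_
          intro M5 z3 e5 hz3
          refine (mkP_sim ((hvV.drop m).ext ((e3.trans e4).trans e5)) n4 l4).bind ?_
          intro M6 z4 e6 hz4
          exact Sim.ret _ ⟨.cons (hz1.ext ((e4.trans e5).trans e6)) (.cons
            (hz2.ext (e5.trans e6)) .nil), .cons (hz3.ext e6) (.cons hz4 .nil)⟩
        rw [if_neg q1, if_neg q1]
        by_cases q2 : (opn q).length < m ∧ ((pat m ((opn q).map (sz m h))).count false = 0 ∨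
            2 ≤ (pat m ((opn q).map (sz m h))).count true)
        · rw [if_pos q2, if_pos q2]
          refine ((mkP_sim ((hwA'.append (.cons hu0 (.cons hs0 .nil))).append hwB')
            (by simp) (K := m + 1) ?_).bind (k' := 0) ?_).le (by omega)
          · simp only [List.length_append, List.length_cons, List.length_nil]
            omega
          · intro M3 z e3 hz
            exact Sim.ret _ hz
        rw [if_neg q2, if_neg q2]
        have hany : (((opn q).map (sz m h)).drop (loc x (opn q) + 1)).any
            (fun n => decide (n ≠ m)) = B.any (fun y => decide (sz m h y ≠ m)) := by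
          rw [← List.map_drop, h2, List.any_map]
          rfl
        rw [hany]
        by_cases q3 : (B.any (fun y => decide (sz m h y ≠ m))) = true
        · rw [if_pos q3, if_pos q3]
          obtain ⟨y, hy, hy2⟩ := List.any_eq_true.1 q3
          have hy3 : sz m h y ≠ m := of_decide_eq_true hy2
          have hh : 1 ≤ h := by
            rcases Nat.eq_zero_or_pos h with rfl | hh
            · exact absurd rfl hy3
            · exact hh
          obtain ⟨r1, r2, r3, r4, r5⟩ := hR α h B u' (g8 hh).2 g5 hDB ⟨y, hy, hy3⟩
          have hcost : B.length * (10 * m + h * c2 m) ≤ c4 m h :=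
            Nat.mul_le_mul_right _ (by omega)
          refine ((pushRP_sim hm (g8 hh).2 g5 hDB hu1 hwB').bind
            (k' := 2 * (m + 1)) ?_).le (by simp only [fl]; omega)
          intro M3 e e3 he
          refine (mkP_sim (((hwA'.ext e3).append (.cons (hs1.ext e3) .nil)).append he)
            (by simp) (K := m + 1) ?_).bind (k' := 0) ?_
          · simp only [List.length_append, List.length_cons, List.length_nil, r3]
            omega
          · intro M3 z e3 hz
            exact Sim.ret _ hz
        · rw [if_neg q3, if_neg q3]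
          have hB : ∀ y ∈ B, sz m h y = m := by
            intro y hy
            by_contra hne
            exact q3 (List.any_eq_true.2 ⟨y, hy, decide_eq_true hne⟩)
          have hA : ∃ y ∈ A.reverse, sz m h y ≠ m := by
            by_contra hne
            push Not at hne
            have hall : ∀ y ∈ opn q, sz m h y = m := by
              intro y hy
              rw [hW] at hy
              rcases List.mem_append.1 hy with hy | hy
              · exact hne y (List.mem_reverse.2 hy)
              · rcases List.mem_cons.1 hy with rfl | hy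
                · exact g1
                · exact hB y hy
            have h9 : (pat m ((opn q).map (sz m h))).count false = 0 := by
              rw [List.count_eq_zero]
              intro hmem
              obtain ⟨k, hk, hk2⟩ := List.mem_map.1 hmem
              obtain ⟨y, hy, rfl⟩ := List.mem_map.1 hk
              simp [hall y hy] at hk2
            rcases Nat.lt_or_ge (opn q).length m with h10 | h10
            · exact q2 ⟨h10, Or.inl h9⟩
            · exact q1 ⟨h9, by omega⟩
          obtain ⟨y, hy, hy3⟩ := hA
          have hh : 1 ≤ h := by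
            rcases Nat.eq_zero_or_pos h with rfl | hh
            · exact absurd rfl hy3
            · exact hh
          have hDA' : ∀ y ∈ A.reverse, Dn m 2 h y.2 := fun w hw => hDA w (List.mem_reverse.1 hw)
          obtain ⟨r1, r2, r3, r4, r5⟩ := hL α h A.reverse u (g8 hh).1 g2 hDA' ⟨y, hy, hy3⟩
          have hcost : A.reverse.length * (10 * m + h * c2 m) ≤ c4 m h :=
            Nat.mul_le_mul_right _ (by rw [List.length_reverse]; omega)
          refine ((pushLP_sim hm (g8 hh).1 g2 hDA' hu0 hwA'.reverse).bind
            (k' := 2 * (m + 1)) ?_).le (by simp only [fl]; omega)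
          intro M3 e e3 he
          refine (mkP_sim ((he.reverse.append (.cons (hs0.ext e3) .nil)).append (hwB'.ext e3))
            (by simp) (K := m + 1) ?_).bind (k' := 0) ?_
          · rw [List.length_append, List.length_append, List.length_reverse, r3,
              List.length_reverse]
            simp only [List.length_cons, List.length_nil]
            omega
          · intro M3 z e3 hz
            exact Sim.ret _ hz
    have := (rdP_sim (m := m) hpq (by rw [sz_succ]; exact hlen)).bind
      (fun M' w _ hw => main M' w hw.1 (hw.1 ▸ hw.2))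
    exact this.le (by omega)

/-- The whole insertion as a program. -/
def insertTP [LinearOrder α] [Inhabited α] (m : ℕ) (x : α) (h a : ℕ) : Prog α (ℕ × ℕ) :=
  (insP m x (h + 1) (x, a)).bind fun r =>
    match r with
    | .fit p => .ret (h, p.2)
    | .over l _ => (mkP default l).bind fun z => .ret (h + 1, z.2)

theorem insertTP_sim [LinearOrder α] [Inhabited α] {m : ℕ} (hm : 3 ≤ m) (x : α) (h a : ℕ)
    {M : Mem α} {t : Tr α (h + 1)} (ht : Holds M (h + 1) a t) (hD : Dense m 2 h t)
    (hx : x ∉ inorder (h + 1) t) :
    Sim M (insertTP m x h a) ((h + 1) * c3 m + c4 m (h + 1) + 4)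
      (fun M' r => ∃ t' : Tr α (r.1 + 1), (insertT m x h t).1 = ⟨r.1, t'⟩ ∧
        Holds M' (r.1 + 1) r.2 t') := by
  have hR : PushRS m := fun _ _ h ys c h1 h2 h3 h4 => pushR_spec hm (op_spec hm) h ys c h1 h2 h3 h4
  have hL : PushLS m := fun _ _ h ys c h1 h2 h3 h4 => pushL_spec hm (op_spec hm) h ys c h1 h2 h3 h4
  have hC : LocS := fun _ _ _ x W h1 h2 h3 => loc_split x W h1 h2 h3
  obtain ⟨ht1, ht2, ht3⟩ := hD
  have hsim := insP_sim hm x (h + 1) (M := M) (p := (x, a)) (q := (x, t)) ⟨rfl, ht⟩ ht2 ht3 hx
  rw [insertTP, insertT]
  rcases ins_spec hm hR hL hC x (h + 1) (x, t) ht2 ht3 hx with ⟨p', e1, g1, g2, g3, g4⟩ |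
      ⟨u, s, s', u', e1, g1, g2, g3, g4, g5, g6, g7, g8, g9, g10, g11⟩
  · rw [e1] at hsim
    refine (hsim.bind (k' := 0) ?_).le (by simp only [fl]; omega)
    intro M1 r e hr
    rcases r with r | ⟨_, _⟩
    · exact Sim.ret _ ⟨p'.2, by simp only [e1], hr.2⟩
    · exact absurd hr id
  · rw [e1] at hsim
    refine (hsim.bind (k' := 4 + 0) ?_).le (by simp only [fl]; omega)
    intro M1 r e hr
    rcases r with _ | ⟨l, _⟩
    · exact absurd hr id
    · refine (mkP_sim hr.1 (by simp) (K := 2) (by simp)).bind ?_
      intro M2 z e2 hz
      exact Sim.ret _ ⟨(cls [u, s]).2, by simp only [e1], hz.2⟩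

/-- For every `m ≥ 3` and `r = 2` insertion is possible in logarithmic time. -/
theorem logInsertion {m : ℕ} (hm : 3 ≤ m) : LogInsertion m 2 := by
  refine ⟨2 * c3 m + 2 * (m * (10 * m + c2 m)) + 4,
    fun α _ => ⟨fun x h a => @insertTP α _ ⟨x⟩ m x h a, fun x M h a t hM hD hx => ?_⟩⟩
  let _ : Inhabited α := ⟨x⟩
  obtain ⟨e, ⟨t', et, ht'⟩, hk⟩ := insertTP_sim hm x h a hM hD hx
  obtain ⟨f1, ⟨l1, l2, f2, f3⟩, -⟩ := final_of hm (op_spec hm) (depth hm) α h t x hD hx
  rw [et] at f1 f3
  refine ⟨(run (insertTP m x h a) M).1.1, (run (insertTP m x h a) M).1.2,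
    (run (insertTP m x h a) M).2.1, (run (insertTP m x h a) M).2.2, t', rfl, ht', f1, ?_, ?_⟩
  · intro y
    dsimp only at f3
    rw [f3, f2]
    simp only [List.mem_append, List.mem_cons]
    tauto
  · have hdep := depth hm α h t hD.2.1
    have hlog : h ≤ Nat.log 2 ((inorder (h + 1) t).length + 1) :=
      Nat.le_log_of_pow_le (by norm_num) hdep
    have hpos : 1 ≤ Nat.log 2 ((inorder (h + 1) t).length + 1) := by
      refine Nat.le_log_of_pow_le (by norm_num) ?_
      obtain ⟨c, l⟩ := t
      have h2 : 2 ≤ (kids (h := h) (c, l)).length := hD.1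
      cases l with
      | nil => simp [kids] at h2
      | cons q l =>
        simp only [inorder, List.flatMap_cons, List.length_append, List.length_cons]
        omega
    refine hk.trans ?_
    generalize Nat.log 2 ((inorder (h + 1) t).length + 1) = L at hlog hpos
    unfold c4
    have h1 : (h + 1) * c3 m ≤ (2 * L) * c3 m := Nat.mul_le_mul_right _ (by omega)
    have h2 : m * (10 * m + (h + 1) * c2 m) ≤ m * (10 * m * (2 * L) + (2 * L) * c2 m) := by
      apply Nat.mul_le_mul_left
      apply Nat.add_le_add
      · exact Nat.le_mul_of_pos_right _ (by omega)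
      · exact Nat.mul_le_mul_right _ (by omega)
    have h3 : (2 * c3 m + 2 * (m * (10 * m + c2 m)) + 4) * L =
        (2 * L) * c3 m + m * (10 * m * (2 * L) + (2 * L) * c2 m) + 4 * L := by ring
    rw [h3]
    omega

end LGI
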