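import Pool.Agent.LGI.Red

/-!
# LGI: moving a unary node to the nearest unsaturated brother
-/

namespace LGI

variable {α : Type}

theorem pat_cons (m a : ℕ) (l : List ℕ) : pat m (a :: l) = decide (a = m) :: pat m l := rfl

theorem cT_cons (m a : ℕ) (l : List ℕ) :
    (pat m (a :: l)).count true = (pat m l).count true + if a = m then 1 else 0 := by
  rw [pat_cons, List.count_cons]
  by_cases h : a = m
  · rw [if_pos h]
    simp [h]
  · rw [if_neg h]
    simp [h]

/-- merging a unary node `c` and an unsaturated node `y` (in this order) -/
theorem mrg_right {m : ℕ} (hm : 3 ≤ m) [Inhabited α] (h : ℕ) (c y : P α h) (hc : sz m h c = 1)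
    (hdc : Dn m 2 h c.2) (hdy : Dn m 2 h y.2) (hy : sz m h y ≠ m) :
    Dn m 2 h (mrg h c y).2 ∧ flat h (mrg h c y) = flat h c ++ flat h y := by
  cases h with
  | zero => exact absurd hc (by show m ≠ 1; omega)
  | succ h =>
    have h1 := (dn_succ c).1 hdc
    have h2 := (dn_succ y).1 hdy
    have h3 := (sz_pos hm hdy).2
    rw [sz_succ] at hc hy h3
    have hne : opn c ++ opn y ≠ [] := by
      intro h0
      exact opn_ne c (List.append_eq_nil_iff.1 h0).1
    constructor
    · show Dn m 2 (h + 1) (cls (opn c ++ opn y)).2
      refine dn_cls ?_ ?_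
      · rw [List.map_append, pat_append]
        refine ok_of ?_ ?_
        · rw [List.length_append, pat_length, pat_length, List.length_map, List.length_map, hc]
          omega
        · rw [List.count_append]
          have := h1.1.s1
          have := h2.1.s1
          omega
      · intro a ha
        rcases List.mem_append.1 ha with ha | ha
        · exact h1.2 a ha
        · exact h2.2 a ha
    · show flat (h + 1) (cls (opn c ++ opn y)) = _
      rw [flat_cls hne, List.flatMap_append, flat_succ, flat_succ]

/-- merging an unsaturated node `y` and a unary node `c` (in this order) -/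
theorem mrg_left {m : ℕ} (hm : 3 ≤ m) [Inhabited α] (h : ℕ) (c y : P α h) (hc : sz m h c = 1)
    (hdc : Dn m 2 h c.2) (hdy : Dn m 2 h y.2) (hy : sz m h y ≠ m) :
    Dn m 2 h (mrg h y c).2 ∧ flat h (mrg h y c) = flat h y ++ flat h c := by
  cases h with
  | zero => exact absurd hc (by show m ≠ 1; omega)
  | succ h =>
    have h1 := (dn_succ c).1 hdc
    have h2 := (dn_succ y).1 hdy
    have h3 := (sz_pos hm hdy).2
    rw [sz_succ] at hc hy h3
    have hne : opn y ++ opn c ≠ [] := by
      intro h0
      exact opn_ne y (List.append_eq_nil_iff.1 h0).1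
    constructor
    · show Dn m 2 (h + 1) (cls (opn y ++ opn c)).2
      refine dn_cls ?_ ?_
      · rw [List.map_append, pat_append]
        refine ok_of ?_ ?_
        · rw [List.length_append, pat_length, pat_length, List.length_map, List.length_map, hc]
          omega
        · rw [List.count_append]
          have := h1.1.s1
          have := h2.1.s1
          omega
      · intro a ha
        rcases List.mem_append.1 ha with ha | ha
        · exact h2.2 a ha
        · exact h1.2 a ha
    · show flat (h + 1) (cls (opn y ++ opn c)) = _
      rw [flat_cls hne, List.flatMap_append, flat_succ, flat_succ]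

theorem map_two {β γ : Type} {f : β → γ} {l : List β} {a b : γ} (h : l.map f = [a, b]) :
    ∃ x y, l = [x, y] ∧ f x = a ∧ f y = b := by
  match l, h with
  | [x, y], h =>
    simp only [List.map_cons, List.map_nil, List.cons.injEq, and_true] at h
    exact ⟨x, y, rfl, h.1, h.2⟩

theorem map_one {β γ : Type} {f : β → γ} {l : List β} {a : γ} (h : l.map f = [a]) :
    ∃ x, l = [x] ∧ f x = a := by
  match l, h with
  | [x], h =>
    simp only [List.map_cons, List.map_nil, List.cons.injEq, and_true] at h
    exact ⟨x, rfl, h⟩

/-- reading off the possible results of `R` -/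
theorem outs_R {m : ℕ} {q : List ℕ} (h : pat m q ∈ outs .R) :
    (∃ a b, q = [a, b] ∧ a = m ∧ b ≠ m) ∨ (∃ a, q = [a] ∧ a = m) := by
  simp only [outs, List.mem_cons, List.not_mem_nil, or_false] at h
  rcases h with h | h
  · left
    obtain ⟨a, b, e, h1, h2⟩ := map_two h
    exact ⟨a, b, e, of_decide_eq_true h1, of_decide_eq_false h2⟩
  · right
    obtain ⟨a, e, h1⟩ := map_one h
    exact ⟨a, e, of_decide_eq_true h1⟩

/-- reading off the possible results of `L` -/
theorem outs_L {m : ℕ} {q : List ℕ} (h : pat m q ∈ outs .L) :
    (∃ a b, q = [a, b] ∧ a ≠ m ∧ b = m) ∨ (∃ a, q = [a] ∧ a = m) := by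
  simp only [outs, List.mem_cons, List.not_mem_nil, or_false] at h
  rcases h with h | h
  · left
    obtain ⟨a, b, e, h1, h2⟩ := map_two h
    exact ⟨a, b, e, of_decide_eq_false h1, of_decide_eq_true h2⟩
  · right
    obtain ⟨a, e, h1⟩ := map_one h
    exact ⟨a, e, of_decide_eq_true h1⟩

theorem pushR_spec {m : ℕ} (hm : 3 ≤ m) (H : OpSpec m) {α : Type} [Inhabited α] (h : ℕ) :
    ∀ (ys : List (P α h)) (c : P α h), sz m h c = 1 → Dn m 2 h c.2 →
    (∀ y ∈ ys, Dn m 2 h y.2) → (∃ y ∈ ys, sz m h y ≠ m) →
    (∀ y ∈ (pushR m h c ys).1, Dn m 2 h y.2) ∧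
    (pushR m h c ys).1.flatMap (flat h) = flat h c ++ ys.flatMap (flat h) ∧
    (pushR m h c ys).1.length = ys.length ∧
    (pat m (ys.map (sz m h))).count true ≤ (pat m ((pushR m h c ys).1.map (sz m h))).count true ∧
    (pushR m h c ys).2 ≤ (ys.length + 1) * ((h + 1) * chg m (3 * m) + chg m m) := by
  intro ys
  induction ys with
  | nil =>
    intro c _ _ _ hex
    obtain ⟨y, hy, _⟩ := hex
    exact absurd hy List.not_mem_nil
  | cons y ys ih =>
    intro c hc hdc hd hex
    have hdy : Dn m 2 h y.2 := hd y List.mem_cons_self
    by_cases hy : sz m h y = m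
    · have happ : App m .R ([c, y].map (sz m h)) := by
        show ¬ (sz m h c = m ∧ sz m h y = m) ∧ m < sz m h c + sz m h y ∧
          (m = 3 → sz m h c = m ∨ sz m h y = m)
        rw [hc, hy]
        exact ⟨by omega, by omega, fun _ => Or.inr rfl⟩
      have hdd : ∀ p ∈ [c, y], Dn m 2 h p.2 := by
        intro p hp
        simp only [List.mem_cons, List.not_mem_nil, or_false] at hp
        rcases hp with rfl | rfl
        · exact hdc
        · exact hdy
      obtain ⟨o1, o2, o3, o4, o5⟩ := H α h .R [c, y] hdd happ
      have hex' : ∃ y' ∈ ys, sz m h y' ≠ m := by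
        obtain ⟨y', hy', hne⟩ := hex
        rcases List.mem_cons.1 hy' with rfl | hy'
        · exact absurd hy hne
        · exact ⟨y', hy', hne⟩
      rcases outs_R o3 with ⟨a, b, e, ha, hb⟩ | ⟨a, e, ha⟩
      · obtain ⟨s, c', e1, rfl, rfl⟩ := map_two e
        have hsum : sz m h c' ≤ 1 := by
          rw [e1] at o4
          simp only [List.map_cons, List.map_nil, List.sum_cons, List.sum_nil] at o4
          omega
        have hdc' : Dn m 2 h c'.2 := o1 c' (by rw [e1]; simp)
        have hds : Dn m 2 h s.2 := o1 s (by rw [e1]; simp)
        have hc' : sz m h c' = 1 := by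
          have := (sz_pos hm hdc').1
          omega
        obtain ⟨i1, i2, i3, i4, i5⟩ := ih c' hc' hdc' (fun y' hy' => hd y' (List.mem_cons_of_mem _ hy'))
          hex'
        have hp : pushR m h c (y :: ys) = (s :: (pushR m h c' ys).1,
            (op m h .R [c, y]).2 + (pushR m h c' ys).2 + chg m m) := by
          rw [pushR, if_neg (by simpa using hy)]
          simp only [e1]
        rw [hp]
        refine ⟨?_, ?_, ?_, ?_, ?_⟩
        · intro z hz
          rcases List.mem_cons.1 hz with rfl | hz
          · exact hds
          · exact i1 z hz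
        · show (s :: (pushR m h c' ys).1).flatMap (flat h) = _
          rw [List.flatMap_cons, i2]
          rw [e1] at o2
          simp only [List.flatMap_cons, List.flatMap_nil, List.append_nil] at o2
          rw [List.flatMap_cons, ← List.append_assoc, o2, List.append_assoc]
        · show (pushR m h c' ys).1.length + 1 = ys.length + 1
          rw [i3]
        · show (pat m (sz m h y :: ys.map (sz m h))).count true ≤
            (pat m (sz m h s :: (pushR m h c' ys).1.map (sz m h))).count true
          rw [cT_cons, cT_cons, if_pos hy, if_pos ha]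
          omega
        · show (op m h .R [c, y]).2 + (pushR m h c' ys).2 + chg m m ≤ (ys.length + 1 + 1) * _
          rw [Nat.add_mul (ys.length + 1) 1, one_mul]
          omega
      · obtain ⟨s, e1, rfl⟩ := map_one e
        have hds : Dn m 2 h s.2 := o1 s (by rw [e1]; simp)
        have hp : pushR m h c (y :: ys) = ([s] ++ ys, (op m h .R [c, y]).2 + chg m m) := by
          rw [pushR, if_neg (by simpa using hy)]
          simp only [e1]
        rw [hp]
        refine ⟨?_, ?_, ?_, ?_, ?_⟩
        · intro z hz
          rcases List.mem_cons.1 hz with rfl | hz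
          · exact hds
          · exact hd z (List.mem_cons_of_mem _ hz)
        · show (s :: ys).flatMap (flat h) = _
          rw [e1] at o2
          simp only [List.flatMap_cons, List.flatMap_nil, List.append_nil] at o2
          rw [List.flatMap_cons, List.flatMap_cons, ← List.append_assoc, o2]
        · rfl
        · show (pat m (sz m h y :: ys.map (sz m h))).count true ≤
            (pat m (sz m h s :: ys.map (sz m h))).count true
          rw [cT_cons, cT_cons, if_pos hy, if_pos ha]
        · show (op m h .R [c, y]).2 + chg m m ≤ (ys.length + 1 + 1) * _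
          rw [Nat.add_mul (ys.length + 1) 1, one_mul]
          omega
    · obtain ⟨m1, m2⟩ := mrg_right hm h c y hc hdc hdy hy
      have hp : pushR m h c (y :: ys) = (mrg h c y :: ys, chg m m) := by
        rw [pushR, if_pos hy]
      rw [hp]
      refine ⟨?_, ?_, ?_, ?_, ?_⟩
      · intro z hz
        rcases List.mem_cons.1 hz with rfl | hz
        · exact m1
        · exact hd z (List.mem_cons_of_mem _ hz)
      · show (mrg h c y :: ys).flatMap (flat h) = _
        rw [List.flatMap_cons, List.flatMap_cons, m2, List.append_assoc]
      · rfl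
      · show (pat m (sz m h y :: ys.map (sz m h))).count true ≤
          (pat m (sz m h (mrg h c y) :: ys.map (sz m h))).count true
        rw [cT_cons, cT_cons, if_neg hy]
        omega
      · show chg m m ≤ (ys.length + 1 + 1) * _
        rw [Nat.add_mul (ys.length + 1) 1, one_mul]
        omega

theorem pushL_spec {m : ℕ} (hm : 3 ≤ m) (H : OpSpec m) {α : Type} [Inhabited α] (h : ℕ) :
    ∀ (ys : List (P α h)) (c : P α h), sz m h c = 1 → Dn m 2 h c.2 →
    (∀ y ∈ ys, Dn m 2 h y.2) → (∃ y ∈ ys, sz m h y ≠ m) →
    (∀ y ∈ (pushL m h c ys).1, Dn m 2 h y.2) ∧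
    (pushL m h c ys).1.reverse.flatMap (flat h) = ys.reverse.flatMap (flat h) ++ flat h c ∧
    (pushL m h c ys).1.length = ys.length ∧
    (pat m (ys.map (sz m h))).count true ≤ (pat m ((pushL m h c ys).1.map (sz m h))).count true ∧
    (pushL m h c ys).2 ≤ (ys.length + 1) * ((h + 1) * chg m (3 * m) + chg m m) := by
  intro ys
  induction ys with
  | nil =>
    intro c _ _ _ hex
    obtain ⟨y, hy, _⟩ := hex
    exact absurd hy List.not_mem_nil
  | cons y ys ih =>
    intro c hc hdc hd hex
    have hdy : Dn m 2 h y.2 := hd y List.mem_cons_self
    by_cases hy : sz m h y = m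
    · have happ : App m .L ([y, c].map (sz m h)) := by
        show ¬ (sz m h y = m ∧ sz m h c = m) ∧ m < sz m h y + sz m h c ∧
          (m = 3 → sz m h y = m ∨ sz m h c = m)
        rw [hc, hy]
        exact ⟨by omega, by omega, fun _ => Or.inl rfl⟩
      have hdd : ∀ p ∈ [y, c], Dn m 2 h p.2 := by
        intro p hp
        simp only [List.mem_cons, List.not_mem_nil, or_false] at hp
        rcases hp with rfl | rfl
        · exact hdy
        · exact hdc
      obtain ⟨o1, o2, o3, o4, o5⟩ := H α h .L [y, c] hdd happ
      have hex' : ∃ y' ∈ ys, sz m h y' ≠ m := by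
        obtain ⟨y', hy', hne⟩ := hex
        rcases List.mem_cons.1 hy' with rfl | hy'
        · exact absurd hy hne
        · exact ⟨y', hy', hne⟩
      rcases outs_L o3 with ⟨a, b, e, ha, hb⟩ | ⟨a, e, ha⟩
      · obtain ⟨c', s, e1, rfl, rfl⟩ := map_two e
        have hsum : sz m h c' ≤ 1 := by
          rw [e1] at o4
          simp only [List.map_cons, List.map_nil, List.sum_cons, List.sum_nil] at o4
          omega
        have hdc' : Dn m 2 h c'.2 := o1 c' (by rw [e1]; simp)
        have hds : Dn m 2 h s.2 := o1 s (by rw [e1]; simp)
        have hc' : sz m h c' = 1 := by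
          have := (sz_pos hm hdc').1
          omega
        obtain ⟨i1, i2, i3, i4, i5⟩ := ih c' hc' hdc' (fun y' hy' => hd y' (List.mem_cons_of_mem _ hy'))
          hex'
        have hp : pushL m h c (y :: ys) = (s :: (pushL m h c' ys).1,
            (op m h .L [y, c]).2 + (pushL m h c' ys).2 + chg m m) := by
          rw [pushL, if_neg (by simpa using hy)]
          simp only [e1]
        rw [hp]
        refine ⟨?_, ?_, ?_, ?_, ?_⟩
        · intro z hz
          rcases List.mem_cons.1 hz with rfl | hz
          · exact hds
          · exact i1 z hz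
        · show (s :: (pushL m h c' ys).1).reverse.flatMap (flat h) = _
          rw [e1] at o2
          simp only [List.flatMap_cons, List.flatMap_nil, List.append_nil] at o2
          rw [List.reverse_cons, List.flatMap_append, i2, List.reverse_cons, List.flatMap_append]
          simp only [List.flatMap_cons, List.flatMap_nil, List.append_nil]
          rw [List.append_assoc, List.append_assoc, o2]
        · show (pushL m h c' ys).1.length + 1 = ys.length + 1
          rw [i3]
        · show (pat m (sz m h y :: ys.map (sz m h))).count true ≤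
            (pat m (sz m h s :: (pushL m h c' ys).1.map (sz m h))).count true
          rw [cT_cons, cT_cons, if_pos hy, if_pos hb]
          omega
        · show (op m h .L [y, c]).2 + (pushL m h c' ys).2 + chg m m ≤ (ys.length + 1 + 1) * _
          rw [Nat.add_mul (ys.length + 1) 1, one_mul]
          omega
      · obtain ⟨s, e1, rfl⟩ := map_one e
        have hds : Dn m 2 h s.2 := o1 s (by rw [e1]; simp)
        have hp : pushL m h c (y :: ys) = ([s].reverse ++ ys, (op m h .L [y, c]).2 + chg m m) := by
          rw [pushL, if_neg (by simpa using hy)]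
          simp only [e1]
        rw [hp]
        refine ⟨?_, ?_, ?_, ?_, ?_⟩
        · intro z hz
          rcases List.mem_cons.1 hz with rfl | hz
          · exact hds
          · exact hd z (List.mem_cons_of_mem _ hz)
        · show (s :: ys).reverse.flatMap (flat h) = _
          rw [e1] at o2
          simp only [List.flatMap_cons, List.flatMap_nil, List.append_nil] at o2
          rw [List.reverse_cons, List.flatMap_append, List.reverse_cons, List.flatMap_append]
          simp only [List.flatMap_cons, List.flatMap_nil, List.append_nil]
          rw [List.append_assoc, o2]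
        · rfl
        · show (pat m (sz m h y :: ys.map (sz m h))).count true ≤
            (pat m (sz m h s :: ys.map (sz m h))).count true
          rw [cT_cons, cT_cons, if_pos hy, if_pos ha]
        · show (op m h .L [y, c]).2 + chg m m ≤ (ys.length + 1 + 1) * _
          rw [Nat.add_mul (ys.length + 1) 1, one_mul]
          omega
    · obtain ⟨m1, m2⟩ := mrg_left hm h c y hc hdc hdy hy
      have hp : pushL m h c (y :: ys) = (mrg h y c :: ys, chg m m) := by
        rw [pushL, if_pos hy]
      rw [hp]
      refine ⟨?_, ?_, ?_, ?_, ?_⟩
      · intro z hz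
        rcases List.mem_cons.1 hz with rfl | hz
        · exact m1
        · exact hd z (List.mem_cons_of_mem _ hz)
      · show (mrg h y c :: ys).reverse.flatMap (flat h) = _
        rw [List.reverse_cons, List.flatMap_append, List.reverse_cons, List.flatMap_append]
        simp only [List.flatMap_cons, List.flatMap_nil, List.append_nil]
        rw [m2, List.append_assoc]
      · rfl
      · show (pat m (sz m h y :: ys.map (sz m h))).count true ≤
          (pat m (sz m h (mrg h y c) :: ys.map (sz m h))).count true
        rw [cT_cons, cT_cons, if_neg hy]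
        omega
      · show chg m m ≤ (ys.length + 1 + 1) * _
        rw [Nat.add_mul (ys.length + 1) 1, one_mul]
        omega

end LGI
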