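import Pool.Agent.LGI.Word3

/-!
# Project LGI: opening and closing nodes, free reductions
-/

namespace LGI

variable {α : Type}

theorem opn_ne {h : ℕ} (p : P α (h + 1)) : opn p ≠ [] := by simp [opn]

theorem opn_cls [Inhabited α] {h : ℕ} {l : List (P α h)} (hl : l ≠ []) : opn (cls l) = l := by
  match l, hl with
  | p :: l, _ => rfl

theorem sz_succ {m h : ℕ} (p : P α (h + 1)) : sz m (h + 1) p = (opn p).length := by
  simp [sz, szT, kids, opn]

theorem flat_succ {h : ℕ} (p : P α (h + 1)) : flat (h + 1) p = (opn p).flatMap (flat h) := by
  obtain ⟨k, c, l⟩ := p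
  simp only [flat, opn, inorder, List.flatMap_cons, List.cons_append]
  rfl

theorem flat_cls [Inhabited α] {h : ℕ} {l : List (P α h)} (hl : l ≠ []) :
    flat (h + 1) (cls l) = l.flatMap (flat h) := by rw [flat_succ, opn_cls hl]

theorem kids_opn {h : ℕ} (p : P α (h + 1)) : kids p.2 = (opn p).map Prod.snd := by
  simp [kids, opn]

theorem dn_succ {m h : ℕ} (p : P α (h + 1)) : Dn m 2 (h + 1) p.2 ↔
    Ok m 2 (pat m ((opn p).map (sz m h))) ∧ ∀ c ∈ opn p, Dn m 2 h c.2 := by
  have e : (kids p.2).map (satT m h) = pat m ((opn p).map (sz m h)) := by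
    rw [kids_opn, pat, List.map_map, List.map_map]
    rfl
  rw [Dn, e, kids_opn]
  constructor
  · rintro ⟨h1, h2⟩
    exact ⟨h1, fun c hc => h2 _ (List.mem_map_of_mem hc)⟩
  · rintro ⟨h1, h2⟩
    refine ⟨h1, fun c hc => ?_⟩
    obtain ⟨q, hq, rfl⟩ := List.mem_map.1 hc
    exact h2 q hq

theorem dn_cls [Inhabited α] {m h : ℕ} {l : List (P α h)}
    (h1 : Ok m 2 (pat m (l.map (sz m h)))) (h2 : ∀ c ∈ l, Dn m 2 h c.2) :
    Dn m 2 (h + 1) (cls l).2 := by
  have hl : l ≠ [] := by
    intro h
    have := h1.1
    rw [h] at this
    simp [pat] at this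
  rw [dn_succ, opn_cls hl]
  exact ⟨h1, h2⟩

theorem sz_pos {m h : ℕ} (hm : 3 ≤ m) {p : P α h} (hd : Dn m 2 h p.2) :
    1 ≤ sz m h p ∧ sz m h p ≤ m := by
  cases h with
  | zero => simp only [sz, szT]; omega
  | succ h =>
    have h1 := ((dn_succ p).1 hd).1
    have h2 := h1.1
    have h3 := h1.2.1
    rw [pat_length, List.length_map] at h2 h3
    rw [sz_succ]
    exact ⟨h2, h3⟩

/-! ## Rewriting in a window -/

theorem rwf_some {β : Type} {k : ℕ} {f : List β → Option (List β)} {W W' : List β}
    (h : rwf k f W = some W') :
    ∃ x w v y, W = x ++ w ++ y ∧ f w = some v ∧ W' = x ++ v ++ y := by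
  induction W generalizing W' with
  | nil => simp [rwf] at h
  | cons a l ih =>
    rw [rwf] at h
    split at h
    · rename_i v hv
      refine ⟨[], (a :: l).take k, v, (a :: l).drop k, by simp, hv, ?_⟩
      simpa using h.symm
    · rw [Option.map_eq_some_iff] at h
      obtain ⟨v, hv, rfl⟩ := h
      obtain ⟨x, w, v', y, h1, h2, h3⟩ := ih hv
      exact ⟨a :: x, w, v', y, by simp [h1], h2, by simp [h3]⟩

theorem rwf_none {β : Type} {k : ℕ} (hk : 1 ≤ k) {f : List β → Option (List β)} {W : List β}
    (h : rwf k f W = none) (x w y : List β) (hW : W = x ++ w ++ y) (hw : w.length = k) :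
    f w = none := by
  induction W generalizing x with
  | nil =>
    exfalso
    have h1 : x ++ w ++ y = [] := hW.symm
    simp only [List.append_eq_nil_iff] at h1
    rw [h1.1.2] at hw
    simp at hw
    omega
  | cons a l ih =>
    rw [rwf] at h
    split at h
    · simp at h
    · rename_i hv
      rw [Option.map_eq_none_iff] at h
      cases x with
      | nil =>
        have e : (a :: l).take k = w := by
          rw [hW, List.nil_append, List.take_left' hw]
        rwa [e] at hv
      | cons b x =>
        apply ih h x
        simpa using (List.cons.inj hW).2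

/-! ## Domination -/

/-- Saturated letters do not get lost in initial and final segments. -/
def Dom (m : ℕ) (q q' : List ℕ) : Prop := ∀ k,
  (pat m (q.take k)).count true ≤ (pat m (q'.take k)).count true ∧
  (pat m (q.reverse.take k)).count true ≤ (pat m (q'.reverse.take k)).count true

theorem Dom.refl (m : ℕ) (q : List ℕ) : Dom m q q := fun _ => ⟨le_rfl, le_rfl⟩

theorem Dom.trans {m : ℕ} {a b c : List ℕ} (h : Dom m a b) (h' : Dom m b c) : Dom m a c :=
  fun k => ⟨(h k).1.trans (h' k).1, (h k).2.trans (h' k).2⟩

theorem cT_take_mono (m : ℕ) (y : List ℕ) {i j : ℕ} (h : i ≤ j) :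
    (pat m (y.take i)).count true ≤ (pat m (y.take j)).count true := by
  have e : y.take i = (y.take j).take i := by rw [List.take_take, min_eq_left h]
  have : (pat m (y.take i)).Sublist (pat m (y.take j)) := by
    rw [e]; exact (List.take_sublist i _).map _
  exact this.count_le true

theorem cT_win (m : ℕ) (x w v y : List ℕ) (hw : (pat m w).count true = 0)
    (hv : v.length ≤ w.length) (k : ℕ) :
    (pat m ((x ++ w ++ y).take k)).count true ≤ (pat m ((x ++ v ++ y).take k)).count true := by
  simp only [List.take_append, pat_append, List.count_append, List.length_append]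
  have h1 : (pat m (w.take (k - x.length))).count true ≤ (pat m w).count true :=
    ((List.take_sublist _ w).map _).count_le true
  have h2 := cT_take_mono m y (i := k - (x.length + w.length)) (j := k - (x.length + v.length))
    (by omega)
  omega

theorem dom_win (m : ℕ) (x w v y : List ℕ) (hw : (pat m w).count true = 0)
    (hv : v.length ≤ w.length) : Dom m (x ++ w ++ y) (x ++ v ++ y) := by
  intro k
  refine ⟨cT_win m x w v y hw hv k, ?_⟩
  have := cT_win m y.reverse w.reverse v.reverse x.reverse
    (by rw [pat_reverse, List.count_reverse, hw]) (by simpa using hv) k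
  simpa using this

theorem dom_full {m : ℕ} {q q' : List ℕ} (h : Dom m q q') (hl : q'.length ≤ q.length) :
    (pat m q).count true ≤ (pat m q').count true := by
  have := (h q.length).1
  rwa [List.take_length, List.take_of_length_le hl] at this

/-! ## Reductions -/

theorem f2_some [Inhabited α] {m h : ℕ} {w v : List (P α (h + 1))} (e : f2 m w = some v) :
    ∃ a b, w = [a, b] ∧ sz m (h + 1) a ≠ m ∧ sz m (h + 1) b ≠ m ∧
      sz m (h + 1) a + sz m (h + 1) b ≤ m ∧ v = [cls (opn a ++ opn b)] := by
  match w, e with
  | [a, b], e =>
    rw [f2] at e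
    split_ifs at e with hc
    exact ⟨a, b, rfl, hc.1, hc.2.1, hc.2.2, (Option.some.inj e).symm⟩

theorem f3_some [Inhabited α] {m h : ℕ} {w v : List (P α (h + 1))} (e : f3 m w = some v) :
    ∃ a b c j, w = [a, b, c] ∧ sz m (h + 1) a ≠ m ∧ sz m (h + 1) b ≠ m ∧
      sz m (h + 1) c ≠ m ∧
      Ok m 2 (pat m (((opn a ++ opn b ++ opn c).take j).map (sz m h))) ∧
      Ok m 2 (pat m (((opn a ++ opn b ++ opn c).drop j).map (sz m h))) ∧
      v = [cls ((opn a ++ opn b ++ opn c).take j), cls ((opn a ++ opn b ++ opn c).drop j)] := by
  match w, e with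
  | [a, b, c], e =>
    rw [f3] at e
    split_ifs at e with hc
    dsimp only at e
    rw [Option.map_eq_some_iff] at e
    obtain ⟨j, hj, hv⟩ := e
    have := List.find?_some hj
    simp only [decide_eq_true_eq] at this
    refine ⟨a, b, c, j, rfl, hc.1, hc.2.1, hc.2.2.1, ?_, ?_, hv.symm⟩
    · have h1 := this.1
      rwa [pat, ← List.map_take, ← List.map_take] at h1
    · have h1 := this.2
      rwa [pat, ← List.map_drop, ← List.map_drop] at h1

theorem red1_some [Inhabited α] {m h : ℕ} {W W' : List (P α h)}
    (hd : ∀ p ∈ W, Dn m 2 h p.2) (e : red1 m h W = some W') :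
    (∀ p ∈ W', Dn m 2 h p.2) ∧ W'.flatMap (flat h) = W.flatMap (flat h) ∧
      W'.length + 1 = W.length ∧ Dom m (W.map (sz m h)) (W'.map (sz m h)) := by
  cases h with
  | zero => simp [red1] at e
  | succ h =>
    rw [red1] at e
    split at e
    · rename_i v hv
      cases Option.some.inj e
      obtain ⟨x, w, v, y, h1, h2, h3⟩ := rwf_some hv
      obtain ⟨a, b, hw, ha, hb, hab, hv'⟩ := f2_some h2
      subst h1 h3 hw hv'
      have hda := (dn_succ a).1 (hd a (by simp))
      have hdb := (dn_succ b).1 (hd b (by simp))
      have hne : opn a ++ opn b ≠ [] := by simp [opn_ne]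
      refine ⟨?_, ?_, ?_, ?_⟩
      · intro p hp
        simp only [List.mem_append, List.mem_cons, List.not_mem_nil, or_false] at hp
        rcases hp with (hp | rfl) | hp
        · exact hd p (by simp [hp])
        · apply dn_cls
          · rw [List.map_append, pat_append]
            refine ok_of ?_ ?_
            · rw [sz_succ, sz_succ] at hab
              simpa [pat_length] using hab
            · rw [List.count_append]
              have := hda.1.s1
              have := hdb.1.s1
              omega
          · intro c hc
            rw [List.mem_append] at hc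
            rcases hc with hc | hc
            · exact hda.2 c hc
            · exact hdb.2 c hc
        · exact hd p (by simp [hp])
      · simp only [List.flatMap_append, List.flatMap_cons, List.flatMap_nil, List.append_nil]
        rw [flat_cls hne, flat_succ, flat_succ, List.flatMap_append]
      · simp
        omega
      · rw [List.map_append, List.map_append, List.map_append, List.map_append]
        apply dom_win
        · simp [pat, ha, hb]
        · simp
    · obtain ⟨x, w, v, y, h1, h2, h3⟩ := rwf_some e
      obtain ⟨a, b, c, j, hw, ha, hb, hc, ho1, ho2, hv'⟩ := f3_some h2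
      subst h1 h3 hw hv'
      have hda := (dn_succ a).1 (hd a (by simp))
      have hdb := (dn_succ b).1 (hd b (by simp))
      have hdc := (dn_succ c).1 (hd c (by simp))
      have hall : ∀ c' ∈ opn a ++ opn b ++ opn c, Dn m 2 h c'.2 := by
        intro c' hc'
        simp only [List.mem_append] at hc'
        rcases hc' with (hc' | hc') | hc'
        · exact hda.2 c' hc'
        · exact hdb.2 c' hc'
        · exact hdc.2 c' hc'
      have ne1 : (opn a ++ opn b ++ opn c).take j ≠ [] := by
        intro h
        have := ho1.1
        rw [h] at this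
        simp [pat] at this
      have ne2 : (opn a ++ opn b ++ opn c).drop j ≠ [] := by
        intro h
        have := ho2.1
        rw [h] at this
        simp [pat] at this
      refine ⟨?_, ?_, ?_, ?_⟩
      · intro p hp
        simp only [List.mem_append, List.mem_cons, List.not_mem_nil, or_false] at hp
        rcases hp with (hp | rfl | rfl) | hp
        · exact hd p (by simp [hp])
        · exact dn_cls ho1 (fun c' hc' => hall c' (List.mem_of_mem_take hc'))
        · exact dn_cls ho2 (fun c' hc' => hall c' (List.mem_of_mem_drop hc'))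
        · exact hd p (by simp [hp])
      · simp only [List.flatMap_append, List.flatMap_cons, List.flatMap_nil, List.append_nil]
        rw [flat_cls ne1, flat_cls ne2, ← List.flatMap_append, List.take_append_drop,
          flat_succ, flat_succ, flat_succ, List.flatMap_append, List.flatMap_append]
        simp
      · simp
        omega
      · rw [List.map_append, List.map_append, List.map_append, List.map_append]
        apply dom_win
        · simp [pat, ha, hb, hc]
        · simp

theorem redn_spec [Inhabited α] {m h : ℕ} (n : ℕ) {W : List (P α h)}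
    (hd : ∀ p ∈ W, Dn m 2 h p.2) :
    (∀ p ∈ redn m h n W, Dn m 2 h p.2) ∧
      (redn m h n W).flatMap (flat h) = W.flatMap (flat h) ∧
      (redn m h n W).length ≤ W.length ∧ W.length ≤ (redn m h n W).length + n ∧
      Dom m (W.map (sz m h)) ((redn m h n W).map (sz m h)) ∧
      (W.length = (redn m h n W).length + n ∨ red1 m h (redn m h n W) = none) := by
  induction n generalizing W with
  | zero => exact ⟨hd, rfl, le_rfl, le_rfl, Dom.refl _ _, Or.inl rfl⟩
  | succ n ih =>
    rw [redn]
    split
    · rename_i v hv
      obtain ⟨h1, h2, h3, h4⟩ := red1_some hd hv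
      obtain ⟨k1, k2, k3, k4, k5, k6⟩ := ih h1
      refine ⟨k1, k2.trans h2, by omega, by omega, h4.trans k5, ?_⟩
      rcases k6 with k6 | k6
      · left; omega
      · right; exact k6
    · rename_i hv
      exact ⟨hd, rfl, le_rfl, by omega, Dom.refl _ _, Or.inr hv⟩

theorem redn_same [Inhabited α] {m h : ℕ} (n : ℕ) {W : List (P α h)}
    (hd : ∀ p ∈ W, Dn m 2 h p.2) (hl : (redn m h n W).length = W.length) :
    redn m h n W = W := by
  cases n with
  | zero => rfl
  | succ n =>
    rw [redn] at hl ⊢
    split
    · rename_i v hv
      rw [hv] at hl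
      dsimp only at hl
      obtain ⟨h1, h2, h3, h4⟩ := red1_some hd hv
      have := (redn_spec n h1).2.2.1
      omega
    · rfl

theorem nrm_of_none [Inhabited α] {m h : ℕ} (hm : 3 ≤ m) {W : List (P α h)}
    (hd : ∀ p ∈ W, Dn m 2 h p.2) (e : red1 m h W = none) : Nrm m (W.map (sz m h)) := by
  have hpos : ∀ n ∈ W.map (sz m h), 1 ≤ n ∧ n ≤ m := by
    intro n hn
    obtain ⟨p, hp, rfl⟩ := List.mem_map.1 hn
    exact sz_pos hm (hd p hp)
  cases h with
  | zero =>
    have hall : ∀ n ∈ W.map (sz m 0), n = m := by
      intro n hn
      obtain ⟨p, hp, rfl⟩ := List.mem_map.1 hn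
      rfl
    refine ⟨hpos, ?_, ?_⟩
    · intro x a b y e ha _
      exact absurd (hall a (by rw [e]; simp)) ha
    · intro _ x a b c y e ha _ _
      exact absurd (hall a (by rw [e]; simp)) ha
  | succ h =>
    rw [red1] at e
    split at e
    · simp at e
    · rename_i hv
      have N2 : ∀ x a b y, W.map (sz m (h + 1)) = x ++ [a, b] ++ y → a ≠ m → b ≠ m →
          m < a + b := by
        intro x a b y he ha hb
        rw [List.append_assoc, List.map_eq_append_iff] at he
        obtain ⟨X, Z, rfl, rfl, he⟩ := he
        rw [List.map_eq_append_iff] at he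
        obtain ⟨Y, V, rfl, he, rfl⟩ := he
        match Y, he with
        | [A, B], he =>
          simp only [List.map_cons, List.map_nil, List.cons.injEq] at he
          obtain ⟨rfl, rfl, -⟩ := he
          have := rwf_none (by norm_num) hv X [A, B] V (by simp) rfl
          rw [f2] at this
          split_ifs at this with hc
          by_contra hcon
          exact hc ⟨ha, hb, by omega⟩
      refine ⟨hpos, N2, ?_⟩
      intro hm4 x a b c y he ha hb hc
      have n1 := N2 x a b ([c] ++ y) (by rw [he]; simp) ha hb
      have n2 := N2 (x ++ [a]) b c y (by rw [he]; simp) hb hc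
      by_contra hcon
      rw [List.append_assoc, List.map_eq_append_iff] at he
      obtain ⟨X, Z, rfl, rfl, he⟩ := he
      rw [List.map_eq_append_iff] at he
      obtain ⟨Y, V, rfl, he, rfl⟩ := he
      match Y, he with
      | [A, B, C], he =>
        simp only [List.map_cons, List.map_nil, List.cons.injEq] at he
        obtain ⟨rfl, rfl, rfl, -⟩ := he
        have hn := rwf_none (by norm_num) e X [A, B, C] V (by simp) rfl
        rw [f3] at hn
        rw [if_pos ⟨ha, hb, hc, by omega⟩] at hn
        dsimp only at hn
        rw [Option.map_eq_none_iff] at hn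
        have hdA := (dn_succ A).1 (hd A (by simp))
        have hdB := (dn_succ B).1 (hd B (by simp))
        have hdC := (dn_succ C).1 (hd C (by simp))
        rw [sz_succ] at ha hb hc n1 n2 hcon
        rw [sz_succ] at n1 n2 hcon
        rw [sz_succ] at hcon
        obtain ⟨j, hj, hj1, hj2⟩ := recut hm4 hdA.1 hdB.1 hdC.1
          (by simpa [pat_length] using ha) (by simpa [pat_length] using hb)
          (by simpa [pat_length] using hc) (by simpa [pat_length] using n1)
          (by simpa [pat_length] using n2)
          (by simp only [pat_length, List.length_map]; omega)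
        have hn' := List.find?_eq_none.1 hn j
          (by rw [List.mem_range]; simp only [pat_length, List.length_map,
            List.length_append] at hj ⊢; omega)
        apply hn'
        simp only [decide_eq_true_eq]
        have e1 : pat m ((opn A ++ opn B ++ opn C).map (sz m h)) =
            pat m ((opn A).map (sz m h)) ++ pat m ((opn B).map (sz m h)) ++
              pat m ((opn C).map (sz m h)) := by simp [pat]
        rw [e1]
        exact ⟨hj1, hj2⟩

end LGI
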