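import Pool.Agent.LGI.Base

/-!
# Project LGI: words over saturated and unsaturated letters
-/

namespace LGI

theorem len_eq (l : List Bool) : l.length = l.count true + l.count false :=
  (List.count_true_add_count_false l).symm

theorem Ok.s1 {m : ℕ} {l : List Bool} (h : Ok m 2 l) : 1 ≤ l.count true := by
  obtain ⟨h1, h2, h3⟩ := h
  have := len_eq l
  omega

theorem Ok.s2 {m : ℕ} {l : List Bool} (h : Ok m 2 l) (h3 : 3 ≤ l.length) : 2 ≤ l.count true := by
  obtain ⟨h1, h2, h3⟩ := h
  have := len_eq l
  omega

theorem ok_of {m : ℕ} {l : List Bool} (h2 : l.length ≤ m) (h3 : 2 ≤ l.count true) :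
    Ok m 2 l := by
  have := len_eq l
  exact ⟨by omega, h2, Or.inr (Or.inr h3)⟩

theorem not_ok {m : ℕ} {l : List Bool} (h1 : 1 ≤ l.length) (h2 : l.length ≤ m)
    (h : ¬ Ok m 2 l) : l.count true ≤ 1 := by
  by_contra hc
  exact h (ok_of h2 (by omega))

theorem ok_reverse {m : ℕ} {l : List Bool} : Ok m 2 l.reverse ↔ Ok m 2 l := by
  unfold Ok
  rw [List.length_reverse, List.count_reverse, List.count_reverse]

theorem pat_append (m : ℕ) (a b : List ℕ) : pat m (a ++ b) = pat m a ++ pat m b := by
  simp [pat]

theorem pat_length (m : ℕ) (a : List ℕ) : (pat m a).length = a.length := by simp [pat]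

/-- Normal lists of sizes. -/
structure Nrm (m : ℕ) (q : List ℕ) : Prop where
  pos : ∀ n ∈ q, 1 ≤ n ∧ n ≤ m
  n2 : ∀ x a b y, q = x ++ [a, b] ++ y → a ≠ m → b ≠ m → m < a + b
  n3 : 4 ≤ m → ∀ x a b c y, q = x ++ [a, b, c] ++ y → a ≠ m → b ≠ m → c ≠ m →
    2 * m < a + b + c

/-- There is a good window. -/
def Win (m : ℕ) (g : Goal) (q : List ℕ) : Prop :=
  ∃ x w y g', q = x ++ w ++ y ∧ w.length = ar g' ∧ App m g' w ∧
    ∀ o ∈ outs g', OkCut m g (pat m x ++ o ++ pat m y)

/-- The result of repairing the part `r`. -/
def Rep (m : ℕ) (l r z : List ℕ) : Prop :=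
  ∃ x w y g', l ++ r ++ z = x ++ w ++ y ∧ w.length = ar g' ∧ App m g' w ∧
    ∀ o ∈ outs g', ∃ l' r' : List Bool, pat m x ++ o ++ pat m y = l' ++ r' ++ pat m z ∧
      l'.length = m ∧ 2 ≤ l'.count true ∧
      (r' = [] ∨ (Ok m 2 r' ∧ r'.length ≤ r.length))

theorem rep_in {m : ℕ} {l r z r1 w r2 : List ℕ} {g' : Goal} (hl : l.length = m)
    (hs : 2 ≤ (pat m l).count true) (hr : r = r1 ++ w ++ r2) (hw : w.length = ar g')
    (happ : App m g' w)
    (ho : ∀ o ∈ outs g', o.length ≤ w.length ∧ Ok m 2 (pat m r1 ++ o ++ pat m r2)) :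
    Rep m l r z := by
  refine ⟨l ++ r1, w, r2 ++ z, g', by simp [hr], hw, happ, fun o h => ?_⟩
  refine ⟨pat m l, pat m r1 ++ o ++ pat m r2, by simp [pat_append], by rw [pat_length, hl], hs,
    Or.inr ⟨(ho o h).2, ?_⟩⟩
  have := (ho o h).1
  simp only [hr, List.length_append, pat_length]
  omega

theorem app_R {m a b : ℕ} (hm : 4 ≤ m) (ha : a ≠ m) (hab : m < a + b) : App m .R [a, b] :=
  ⟨fun h => ha h.1, hab, fun h => by omega⟩

theorem app_L {m a b : ℕ} (hm : 4 ≤ m) (hb : b ≠ m) (hab : m < a + b) : App m .L [a, b] :=
  ⟨fun h => hb h.2, hab, fun h => by omega⟩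

theorem fix {m : ℕ} (hm : 4 ≤ m) {l r z : List ℕ} (hl : l.length = m) (hr1 : 1 ≤ r.length)
    (hrm : r.length ≤ m) (hbad : ¬ Ok m 2 (pat m r)) (hn : Nrm m (l ++ r ++ z))
    (hs : 2 ≤ (pat m l).count true)
    (hd : r.length = 1 ∨ r.length = 3 → 2 ≤ (pat m l.dropLast).count true) : Rep m l r z := by
  have hc := not_ok (m := m) (l := pat m r) (by rwa [pat_length]) (by rwa [pat_length]) hbad
  have hlne : l ≠ [] := by intro h; rw [h] at hl; simp at hl; omega
  obtain ⟨l0, xx, hlx⟩ : ∃ l0 xx, l = l0 ++ [xx] :=
    ⟨l.dropLast, l.getLast hlne, (List.dropLast_append_getLast hlne).symm⟩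
  have hl0 : l0.length + 1 = m := by rw [hlx] at hl; simpa using hl
  have hdl : l.dropLast = l0 := by rw [hlx]; simp
  rw [hdl] at hd
  have hpos : ∀ n ∈ r, 1 ≤ n := fun n h => (hn.pos n (by simp [h])).1
  have hbd : ∀ (a : ℕ) (r' : List ℕ), r = a :: r' → a ≠ m → m < xx + a := by
    intro a r' h ha
    by_cases hx : xx = m
    · have := hpos a (by simp [h])
      omega
    · exact hn.n2 l0 xx a (r' ++ z) (by simp [hlx, h]) hx ha
  match r, hr1, hrm, hbad, hc, hpos, hbd, hd, hn with
  | [], h, _, _, _, _, _, _, _ => exact absurd h (by simp)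
  | [a], _, _, hbad, hc, hpos, hbd, hd, hn =>
    have ha : a ≠ m := by
      intro h
      apply hbad
      simp [pat, h, Ok]
      omega
    refine ⟨l0, [xx, a], z, .L, by simp [hlx], rfl, app_L hm ha (hbd a [] rfl ha), ?_⟩
    intro o ho
    have hd' := hd (by simp)
    simp only [outs, List.mem_cons, List.not_mem_nil, or_false] at ho
    rcases ho with rfl | rfl
    · refine ⟨pat m l0 ++ [false], [true], by simp, by simp [pat_length, hl0], ?_, Or.inr ⟨?_, ?_⟩⟩
      · simpa using hd'
      · simp [Ok]; omega
      · simp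
    · refine ⟨pat m l0 ++ [true], [], by simp, by simp [pat_length, hl0], ?_, Or.inl rfl⟩
      rw [List.count_append]; omega
  | [a, b], _, _, hbad, hc, hpos, hbd, hd, hn =>
    have ha : a ≠ m := by
      intro h
      apply hbad
      by_cases hb : b = m
      · simp [pat, h, hb, Ok]; omega
      · simp [pat, h, hb, Ok]; omega
    have hb : b ≠ m := by
      intro h
      apply hbad
      simp [pat, h, ha, Ok]; omega
    refine rep_in (r1 := []) (r2 := []) (w := [a, b]) (g' := .R) hl hs (by simp) rfl
      (app_R hm ha (hn.n2 l a b z (by simp) ha hb)) ?_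
    intro o ho
    simp only [outs, List.mem_cons, List.not_mem_nil, or_false] at ho
    rcases ho with rfl | rfl
    · simp [Ok, pat]; omega
    · simp [Ok, pat]; omega
  | [a, b, c], _, _, hbad, hc, hpos, hbd, hd, hn =>
    have hd' := hd (by simp)
    by_cases ha : a = m
    · have hb : b ≠ m := by
        intro h; simp [pat, ha, h, List.count_cons] at hc
      have hcc : c ≠ m := by
        intro h; simp [pat, ha, h, List.count_cons] at hc
      refine rep_in (r1 := [a]) (r2 := []) (w := [b, c]) (g' := .R) hl hs (by simp) rfl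
        (app_R hm hb (hn.n2 (l ++ [a]) b c z (by simp) hb hcc)) ?_
      intro o ho
      simp only [outs, List.mem_cons, List.not_mem_nil, or_false] at ho
      rcases ho with rfl | rfl
      · refine ⟨by simp, ok_of (by simp [pat]; omega) (by simp [pat, ha])⟩
      · refine ⟨by simp, ok_of (by simp [pat]; omega) (by simp [pat, ha])⟩
    · by_cases hb : b = m
      · have hcc : c ≠ m := by
          intro h; simp [pat, ha, hb, h, List.count_cons] at hc
        refine ⟨l0, [xx, a], [b, c] ++ z, .L, by simp [hlx], rfl,
          app_L hm ha (hbd a [b, c] rfl ha), ?_⟩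
        intro o ho
        simp only [outs, List.mem_cons, List.not_mem_nil, or_false] at ho
        rcases ho with rfl | rfl
        · refine ⟨pat m l0 ++ [false], [true] ++ pat m [b, c], by simp [pat],
            by simp [pat_length, hl0], ?_, Or.inr ⟨ok_of (by simp [pat]; omega) ?_, ?_⟩⟩
          · simpa using hd'
          · simp [pat, hb]
          · simp [pat]
        · refine ⟨pat m l0 ++ [true], pat m [b, c], by simp [pat],
            by simp [pat_length, hl0], ?_, Or.inr ⟨?_, ?_⟩⟩
          · rw [List.count_append]; omega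
          · simp [pat, hb, hcc, Ok]; omega
          · simp [pat]
      · by_cases hcc : c = m
        · refine rep_in (r1 := []) (r2 := [c]) (w := [a, b]) (g' := .R) hl hs (by simp) rfl
            (app_R hm ha (hn.n2 l a b ([c] ++ z) (by simp) ha hb)) ?_
          intro o ho
          simp only [outs, List.mem_cons, List.not_mem_nil, or_false] at ho
          rcases ho with rfl | rfl
          · refine ⟨by simp, ok_of (by simp [pat]; omega) (by simp [pat, hcc])⟩
          · refine ⟨by simp, ok_of (by simp [pat]; omega) (by simp [pat, hcc])⟩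
        · refine rep_in (r1 := []) (r2 := []) (w := [a, b, c]) (g' := .T) hl hs (by simp) rfl
            ⟨ha, hb, hcc, hn.n3 hm l a b c z (by simp) ha hb hcc, hm⟩ ?_
          intro o ho
          simp only [outs, List.mem_cons, List.not_mem_nil, or_false] at ho
          rcases ho with rfl | rfl
          · refine ⟨by simp, ok_of (by simp [pat]; omega) (by simp [pat])⟩
          · refine ⟨by simp, ok_of (by simp [pat]; omega) (by simp [pat])⟩
  | a :: b :: c :: d :: rest, _, hrm, hbad, hc, hpos, hbd, hd, hn =>
    have hlen : rest.length + 4 ≤ m := by simp only [List.length_cons] at hrm; omega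
    by_cases ha : a = m
    · have hb : b ≠ m := by
        intro h; simp [pat, ha, h, List.count_cons] at hc
      have hcc : c ≠ m := by
        intro h; simp [pat, ha, h, List.count_cons] at hc
      refine rep_in (r1 := [a]) (r2 := d :: rest) (w := [b, c]) (g' := .R) hl hs (by simp) rfl
        (app_R hm hb (hn.n2 (l ++ [a]) b c (d :: rest ++ z) (by simp) hb hcc)) ?_
      intro o ho
      simp only [outs, List.mem_cons, List.not_mem_nil, or_false] at ho
      rcases ho with rfl | rfl
      · refine ⟨by simp, ok_of (by simp [pat]; omega) (by simp [pat, ha])⟩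
      · refine ⟨by simp, ok_of (by simp [pat]; omega) (by simp [pat, ha])⟩
    · by_cases hb : b = m
      · have hcc : c ≠ m := by
          intro h; simp [pat, ha, hb, h, List.count_cons] at hc
        have hdd : d ≠ m := by
          intro h; simp [pat, ha, hb, h, List.count_cons] at hc
        refine rep_in (r1 := [a, b]) (r2 := rest) (w := [c, d]) (g' := .R) hl hs (by simp) rfl
          (app_R hm hcc (hn.n2 (l ++ [a, b]) c d (rest ++ z) (by simp) hcc hdd)) ?_
        intro o ho
        simp only [outs, List.mem_cons, List.not_mem_nil, or_false] at ho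
        rcases ho with rfl | rfl
        · refine ⟨by simp, ok_of (by simp [pat]; omega) ?_⟩
          simp [pat, hb, ha, List.count_cons]
        · refine ⟨by simp, ok_of (by simp [pat]; omega) ?_⟩
          simp [pat, hb, ha, List.count_cons]
      · by_cases h1 : (pat m (c :: d :: rest)).count true = 0
        · have hcc : c ≠ m := by
            intro h; simp [pat, h] at h1
          refine rep_in (r1 := []) (r2 := d :: rest) (w := [a, b, c]) (g' := .T) hl hs (by simp)
            rfl ⟨ha, hb, hcc, hn.n3 hm l a b c (d :: rest ++ z) (by simp) ha hb hcc, hm⟩ ?_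
          intro o ho
          simp only [outs, List.mem_cons, List.not_mem_nil, or_false] at ho
          rcases ho with rfl | rfl
          · refine ⟨by simp, ok_of (by simp [pat]; omega) (by simp [pat])⟩
          · refine ⟨by simp, ok_of (by simp [pat]; omega) (by simp [pat])⟩
        · refine rep_in (r1 := []) (r2 := c :: d :: rest) (w := [a, b]) (g' := .R) hl hs
            (by simp) rfl (app_R hm ha (hn.n2 l a b (c :: d :: rest ++ z) (by simp) ha hb)) ?_
          intro o ho
          simp only [outs, List.mem_cons, List.not_mem_nil, or_false] at ho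
          rcases ho with rfl | rfl
          · refine ⟨by simp, ok_of (by simp [pat]; omega) ?_⟩
            rw [List.count_append, List.count_append]
            simp only [pat, List.map_nil, List.count_nil] at h1 ⊢
            simp at h1 ⊢
            omega
          · refine ⟨by simp, ok_of (by simp [pat]; omega) ?_⟩
            rw [List.count_append, List.count_append]
            simp only [pat, List.map_nil, List.count_nil] at h1 ⊢
            simp at h1 ⊢
            omega

end LGI
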