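import Pool.Agent.LGI.Word

/-!
# Project LGI: a good window exists
-/

namespace LGI

theorem win_of_rep_R {m : ℕ} {l r : List ℕ} (h : Rep m l r []) : Win m .R (l ++ r) := by
  obtain ⟨x, w, y, g', h1, h2, h3, h4⟩ := h
  refine ⟨x, w, y, g', by simpa using h1, h2, h3, fun o ho => ?_⟩
  obtain ⟨l', r', e1, e2, e3, e4⟩ := h4 o ho
  have e1' : pat m x ++ o ++ pat m y = l' ++ r' := by simpa [pat] using e1
  rw [e1']
  rcases e4 with rfl | ⟨e4, e5⟩
  · intro z hz
    simp only [cut, List.append_nil, e2, le_refl, if_true, List.mem_cons, List.not_mem_nil,
      or_false] at hz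
    subst hz
    exact ok_of (le_of_eq e2) e3
  · have h1 := e4.1
    intro z hz
    have hlen : ¬ (l' ++ r').length ≤ m := by rw [List.length_append]; omega
    simp only [cut, hlen, if_false, List.mem_cons, List.not_mem_nil, or_false] at hz
    rw [← e2, List.take_left', List.drop_left'] at hz
    · rcases hz with rfl | rfl
      · exact ok_of (le_of_eq e2) e3
      · exact e4
    · rfl
    · rfl

theorem win_of_rep_T {m : ℕ} {l r z : List ℕ} (hz : z.length = m)
    (hzs : 2 ≤ (pat m z).count true) (h : Rep m l r z) : Win m .T (l ++ r ++ z) := by
  obtain ⟨x, w, y, g', h1, h2, h3, h4⟩ := h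
  refine ⟨x, w, y, g', h1, h2, h3, fun o ho => ?_⟩
  obtain ⟨l', r', e1, e2, e3, e4⟩ := h4 o ho
  rw [e1]
  have hz' : (pat m z).length = m := by rw [pat_length, hz]
  rcases e4 with rfl | ⟨e4, e5⟩
  · intro v hv
    have hlen : (l' ++ [] ++ pat m z).length ≤ 2 * m := by
      simp only [List.append_nil, List.length_append, e2, hz']; omega
    simp only [cut, hlen, if_true, List.mem_cons, List.not_mem_nil, or_false] at hv
    rw [List.append_nil, ← e2, List.take_left' rfl, List.drop_left' rfl] at hv
    rcases hv with rfl | rfl
    · exact ok_of (le_of_eq e2) e3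
    · rw [e2]; exact ok_of (le_of_eq hz') hzs
  · have h1 := e4.1
    intro v hv
    have hl2 : (l' ++ r' ++ pat m z).length = 2 * m + r'.length := by
      simp only [List.length_append, e2, hz']; omega
    have hlen : ¬ (l' ++ r' ++ pat m z).length ≤ 2 * m := by omega
    simp only [cut, hlen, if_false, List.mem_cons, List.not_mem_nil, or_false] at hv
    rw [hl2, List.append_assoc, List.take_left' e2, List.drop_left' e2,
      Nat.add_sub_cancel_left, List.take_left' rfl, List.drop_left' rfl] at hv
    rcases hv with rfl | rfl | rfl
    · exact ok_of (le_of_eq e2) e3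
    · exact e4
    · exact ok_of (le_of_eq hz') hzs

theorem uu4 {m : ℕ} {l : List ℕ} (hl : 4 ≤ l.length) (hc : (pat m l).count true ≤ 1) :
    ∃ y1 u1 u2 y2, l = y1 ++ [u1, u2] ++ y2 ∧ u1 ≠ m ∧ u2 ≠ m := by
  match l, hl with
  | a :: b :: c :: d :: rest, _ =>
    by_cases ha : a = m
    · refine ⟨[a], b, c, d :: rest, by simp, ?_, ?_⟩
      · intro h; simp [pat, ha, h, List.count_cons] at hc
      · intro h; simp [pat, ha, h, List.count_cons] at hc
    · by_cases hb : b = m
      · refine ⟨[a, b], c, d, rest, by simp, ?_, ?_⟩
        · intro h; simp [pat, ha, hb, h, List.count_cons] at hc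
        · intro h; simp [pat, ha, hb, h, List.count_cons] at hc
      · exact ⟨[], a, b, c :: d :: rest, by simp, ha, hb⟩

theorem count_dropLast (l : List Bool) : l.count true ≤ l.dropLast.count true + 1 := by
  by_cases h : l = []
  · subst h; simp
  · conv_lhs => rw [← List.dropLast_append_getLast h]
    rw [List.count_append]
    have : List.count true [l.getLast h] ≤ 1 := by
      refine le_trans (List.count_le_length) (by simp)
    omega

theorem pat_dropLast (m : ℕ) (l : List ℕ) : pat m l.dropLast = (pat m l).dropLast := by
  simp [pat]

/-- Pairs, right orientation. -/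
theorem pairR {m : ℕ} (hm : 4 ≤ m) {q : List ℕ} (hn : Nrm m q) (h1 : m < q.length)
    (h2 : q.length ≤ 2 * m) (hs : 3 ≤ (pat m q).count true)
    (hs4 : m + 3 ≤ q.length → 4 ≤ (pat m q).count true)
    (ht1 : 1 ≤ (pat m (q.take m)).count true)
    (ht2 : (pat m (q.take m)).count true ≤ 1 → q.length ≤ m + 2) :
    OkCut m .R (pat m q) ∨ Win m .R q := by
  obtain ⟨l, r, hq, hll, hrr⟩ : ∃ l r, q = l ++ r ∧ l.length = m ∧ r.length + m = q.length :=
    ⟨q.take m, q.drop m, (List.take_append_drop m q).symm, by
      rw [List.length_take]; omega, by rw [List.length_drop]; omega⟩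
  have htk : q.take m = l := by rw [hq, List.take_left' hll]
  rw [htk] at ht1 ht2
  have hcnt : (pat m q).count true = (pat m l).count true + (pat m r).count true := by
    rw [hq, pat_append, List.count_append]
  by_cases hr : Ok m 2 (pat m r)
  · by_cases hlo : Ok m 2 (pat m l)
    · left
      intro v hv
      have hlen : ¬ (pat m q).length ≤ m := by rw [pat_length]; omega
      simp only [cut, hlen, if_false, List.mem_cons, List.not_mem_nil, or_false] at hv
      rw [hq, pat_append, List.take_left' (by rw [pat_length, hll]),
        List.drop_left' (by rw [pat_length, hll])] at hv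
      rcases hv with rfl | rfl
      · exact hlo
      · exact hr
    · right
      have hl1 := not_ok (by rw [pat_length]; omega) (by rw [pat_length]; omega) hlo
      have hp := ht2 hl1
      have hr2 : r.length ≤ 2 := by omega
      have hr3 : 2 ≤ (pat m r).count true := by omega
      obtain ⟨c, d, hcd⟩ : ∃ c d, r = [c, d] := by
        match r, hr2, hr3 with
        | [], _, h => simp [pat] at h
        | [a], _, h =>
          exfalso
          have : List.count true (pat m [a]) ≤ (pat m [a]).length := List.count_le_length
          simp [pat_length] at this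
          omega
        | [a, b], _, _ => exact ⟨a, b, rfl⟩
        | _ :: _ :: _ :: _, h, _ => simp at h
      have hc : c = m := by
        by_contra h
        rw [hcd] at hr3
        simp [pat, h, List.count_cons] at hr3
        split_ifs at hr3 <;> omega
      have hd : d = m := by
        by_contra h
        rw [hcd] at hr3
        simp [pat, h, List.count_cons] at hr3
        split_ifs at hr3 <;> omega
      obtain ⟨y1, u1, u2, y2, hl, hu1, hu2⟩ := uu4 (m := m) (l := l) (by omega) hl1
      have hly : y1.length + 2 + y2.length = m := by
        rw [hl] at hll; simp at hll; omega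
      have hcy : 1 ≤ (pat m y1).count true + (pat m y2).count true := by
        rw [hl] at ht1
        simp only [pat_append, List.count_append] at ht1
        simp [pat, hu1, hu2] at ht1 ⊢
        omega
      refine ⟨y1, [u1, u2], y2 ++ r, .R, by simp [hq, hl], rfl,
        app_R hm hu1 (hn.n2 y1 u1 u2 (y2 ++ r) (by simp [hq, hl]) hu1 hu2), ?_⟩
      intro o ho
      simp only [outs, List.mem_cons, List.not_mem_nil, or_false] at ho
      have hpr : pat m r = [true, true] := by rw [hcd]; simp [pat, hc, hd]
      rcases ho with rfl | rfl
      · have e : pat m y1 ++ [true, false] ++ pat m (y2 ++ r) =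
            (pat m y1 ++ [true, false] ++ pat m y2) ++ [true, true] := by
          simp [pat_append, hpr]
        have hlen : (pat m y1 ++ [true, false] ++ pat m y2).length = m := by
          simp [pat_length]; omega
        rw [e]
        intro v hv
        have hlen' : ¬ ((pat m y1 ++ [true, false] ++ pat m y2) ++ [true, true]).length ≤ m := by
          rw [List.length_append, hlen]; simp
        simp only [cut, hlen', if_false, List.mem_cons, List.not_mem_nil, or_false] at hv
        rw [List.take_left' hlen, List.drop_left' hlen] at hv
        rcases hv with rfl | rfl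
        · refine ok_of (le_of_eq hlen) ?_
          simp only [List.count_append]
          simp
          omega
        · exact ok_of (by simp; omega) (by simp)
      · have e : pat m y1 ++ [true] ++ pat m (y2 ++ r) =
            (pat m y1 ++ [true] ++ pat m y2 ++ [true]) ++ [true] := by
          simp [pat_append, hpr]
        have hlen : (pat m y1 ++ [true] ++ pat m y2 ++ [true]).length = m := by
          simp [pat_length]; omega
        rw [e]
        intro v hv
        have hlen' : ¬ ((pat m y1 ++ [true] ++ pat m y2 ++ [true]) ++ [true]).length ≤ m := by
          rw [List.length_append, hlen]; simp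
        simp only [cut, hlen', if_false, List.mem_cons, List.not_mem_nil, or_false] at hv
        rw [List.take_left' hlen, List.drop_left' hlen] at hv
        rcases hv with rfl | rfl
        · refine ok_of (le_of_eq hlen) ?_
          simp only [List.count_append]
          simp
          omega
        · refine ⟨by simp, by simp; omega, Or.inl (by simp)⟩
  · right
    rw [hq]
    apply win_of_rep_R
    have hbad := not_ok (m := m) (l := pat m r) (by rw [pat_length]; omega)
      (by rw [pat_length]; omega) hr
    refine fix hm hll (by omega) (by omega) hr (by rw [List.append_nil, ← hq]; exact hn)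
      (by omega) ?_
    intro h13
    rw [pat_dropLast]
    have := count_dropLast (pat m l)
    rcases h13 with h | h
    · have h0 : (pat m r).count true = 0 := by
        match r, h with
        | [a], _ =>
          by_cases ha : a = m
          · exfalso; apply hr; simp [pat, ha, Ok]; omega
          · simp [pat, ha]
      omega
    · have := hs4 (by omega)
      omega

/-- Triples. -/
theorem tripT {m : ℕ} (hm : 4 ≤ m) {q : List ℕ} (hn : Nrm m q) (h1 : 2 * m < q.length)
    (h2 : q.length ≤ 3 * m) (hs : 2 ≤ (pat m (q.take (m - 1))).count true)
    (hs' : 2 ≤ (pat m (q.reverse.take m)).count true) :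
    OkCut m .T (pat m q) ∨ Win m .T q := by
  obtain ⟨l, r, z, hq, hll, hrr, hzz⟩ : ∃ l r z, q = l ++ r ++ z ∧ l.length = m ∧
      r.length + 2 * m = q.length ∧ z.length = m :=
    ⟨q.take m, (q.drop m).take (q.length - 2 * m), (q.drop m).drop (q.length - 2 * m), by
      rw [List.append_assoc, List.take_append_drop, List.take_append_drop], by
      rw [List.length_take]; omega, by
      rw [List.length_take, List.length_drop]; omega, by
      rw [List.length_drop, List.length_drop]; omega⟩
  have hz : 2 ≤ (pat m z).count true := by
    have e : q.reverse.take m = z.reverse := by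
      rw [hq, List.reverse_append, List.take_left' (by rw [List.length_reverse, hzz])]
    rw [e] at hs'
    have : pat m z.reverse = (pat m z).reverse := by simp [pat]
    rwa [this, List.count_reverse] at hs'
  have hl : 2 ≤ (pat m l.dropLast).count true := by
    have e : q.take (m - 1) = l.dropLast := by
      rw [hq, List.append_assoc, List.take_append_of_le_length (by omega),
        List.dropLast_eq_take, hll]
    rwa [e] at hs
  have hl' : 2 ≤ (pat m l).count true := by
    have : (pat m l.dropLast).Sublist (pat m l) := by
      rw [pat_dropLast]; exact List.dropLast_sublist _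
    exact le_trans hl (this.count_le true)
  by_cases hr : Ok m 2 (pat m r)
  · left
    intro v hv
    have hlen : ¬ (pat m q).length ≤ 2 * m := by rw [pat_length]; omega
    simp only [cut, hlen, if_false, List.mem_cons, List.not_mem_nil, or_false] at hv
    have e1 : pat m q = pat m l ++ (pat m r ++ pat m z) := by
      rw [hq, pat_append, pat_append, List.append_assoc]
    have e2 : (pat m q).length - 2 * m = (pat m r).length := by
      rw [pat_length, pat_length]; omega
    rw [e2, e1, List.take_left' (by rw [pat_length, hll]),
      List.drop_left' (by rw [pat_length, hll]), List.take_left' rfl, List.drop_left' rfl] at hv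
    rcases hv with rfl | rfl | rfl
    · exact ok_of (by rw [pat_length]; omega) hl'
    · exact hr
    · exact ok_of (by rw [pat_length]; omega) hz
  · right
    rw [hq]
    apply win_of_rep_T hzz hz
    exact fix hm hll (by omega) (by omega) hr (by rw [← hq]; exact hn) hl' (fun _ => hl)

end LGI
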