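import Pool.Agent.LGI.Word2

/-!
# Project LGI: mirror images, the ternary case, recutting three nodes
-/

namespace LGI

theorem pat_reverse (m : ℕ) (q : List ℕ) : pat m q.reverse = (pat m q).reverse := by
  simp [pat]

theorem nrm_reverse {m : ℕ} {q : List ℕ} (h : Nrm m q) : Nrm m q.reverse := by
  refine ⟨fun n hn => h.pos n (by simpa using hn), ?_, ?_⟩
  · intro x a b y e ha hb
    have e' : q = y.reverse ++ [b, a] ++ x.reverse := by
      have := congrArg List.reverse e
      simpa using this
    have := h.n2 _ _ _ _ e' hb ha
    omega
  · intro hm x a b c y e ha hb hc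
    have e' : q = y.reverse ++ [c, b, a] ++ x.reverse := by
      have := congrArg List.reverse e
      simpa using this
    have := h.n3 hm _ _ _ _ _ e' hc hb ha
    omega

/-- Mirror image of a goal. -/
def mir : Goal → Goal
  | .R => .L
  | .L => .R
  | .T => .T

theorem okcut_mir {m : ℕ} {l : List Bool} (h : OkCut m .R l.reverse) : OkCut m .L l := by
  intro v hv
  by_cases hl : l.length ≤ m
  · simp only [cut, hl, if_true, List.mem_cons, List.not_mem_nil, or_false] at hv
    subst hv
    apply ok_reverse.1
    apply h
    simp [cut, hl]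
  · simp only [cut, hl, if_false, List.mem_cons, List.not_mem_nil, or_false] at hv
    rcases hv with rfl | rfl
    · apply ok_reverse.1
      apply h
      rw [List.reverse_take]
      simp only [cut, List.length_reverse, hl, if_false, List.mem_cons]
      right; left
      congr 1
      omega
    · apply ok_reverse.1
      apply h
      rw [List.reverse_drop]
      simp only [cut, List.length_reverse, hl, if_false, List.mem_cons]
      left
      congr 1
      omega

theorem outs_mir {g : Goal} {o : List Bool} (h : o ∈ outs (mir g)) : o.reverse ∈ outs g := by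
  cases g <;> simp [mir, outs] at h ⊢ <;> rcases h with rfl | rfl <;> simp

theorem app_mir {m : ℕ} {g : Goal} {w : List ℕ} (h : App m g w) : App m (mir g) w.reverse := by
  match g, w, h with
  | .R, [a, b], h =>
    refine ⟨fun e => h.1 ⟨e.2, e.1⟩, ?_, fun e => (h.2.2 e).symm⟩
    have := h.2.1
    simp; omega
  | .L, [a, b], h =>
    refine ⟨fun e => h.1 ⟨e.2, e.1⟩, ?_, fun e => (h.2.2 e).symm⟩
    have := h.2.1
    simp; omega
  | .T, [a, b, c], h =>
    obtain ⟨h1, h2, h3, h4, h5⟩ := h
    exact ⟨h3, h2, h1, by omega, h5⟩

theorem win_mir {m : ℕ} {q : List ℕ} (h : Win m .R q.reverse) : Win m .L q := by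
  obtain ⟨x, w, y, g', h1, h2, h3, h4⟩ := h
  refine ⟨y.reverse, w.reverse, x.reverse, mir g', ?_, ?_, app_mir h3, ?_⟩
  · have := congrArg List.reverse h1
    simpa using this
  · rw [List.length_reverse, h2]
    cases g' <;> rfl
  · intro o ho
    apply okcut_mir
    have := h4 o.reverse (outs_mir ho)
    rw [pat_reverse, pat_reverse]
    simpa using this

/-- Pairs, left orientation. -/
theorem pairL {m : ℕ} (hm : 4 ≤ m) {q : List ℕ} (hn : Nrm m q) (h1 : m < q.length)
    (h2 : q.length ≤ 2 * m) (hs : 3 ≤ (pat m q).count true)
    (hs4 : m + 3 ≤ q.length → 4 ≤ (pat m q).count true)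
    (ht1 : 1 ≤ (pat m (q.reverse.take m)).count true)
    (ht2 : (pat m (q.reverse.take m)).count true ≤ 1 → q.length ≤ m + 2) :
    OkCut m .L (pat m q) ∨ Win m .L q := by
  have := pairR hm (nrm_reverse hn) (by rwa [List.length_reverse])
    (by rwa [List.length_reverse]) (by rwa [pat_reverse, List.count_reverse])
    (by rwa [pat_reverse, List.count_reverse, List.length_reverse]) ht1
    (by rwa [List.length_reverse])
  rcases this with h | h
  · left; apply okcut_mir; rwa [← pat_reverse]
  · right; exact win_mir h

/-! ## The ternary case -/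

theorem t4R {q : List ℕ} (hpos : ∀ n ∈ q, 1 ≤ n ∧ n ≤ 3) (hl : q.length = 4)
    (hs : 3 ≤ (pat 3 q).count true) : OkCut 3 .R (pat 3 q) ∨ Win 3 .R q := by
  match q, hl with
  | [a, b, c, d], _ =>
    by_cases hd : d = 3
    · left
      subst hd
      by_cases ha : a = 3 <;> by_cases hb : b = 3 <;> by_cases hc : c = 3 <;>
        simp [pat, ha, hb, hc, List.count_cons] at hs <;>
        simp [OkCut, cut, pat, Ok, ha, hb, hc]
    · right
      have ha : a = 3 := by
        by_contra h; simp [pat, h, hd, List.count_cons] at hs; split_ifs at hs <;> omega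
      have hb : b = 3 := by
        by_contra h; simp [pat, h, hd, List.count_cons] at hs; split_ifs at hs <;> omega
      have hc : c = 3 := by
        by_contra h; simp [pat, h, hd, List.count_cons] at hs; split_ifs at hs <;> omega
      subst ha; subst hb; subst hc
      have h1 := (hpos d (by simp)).1
      refine ⟨[3, 3], [3, d], [], .L, by simp, rfl, ⟨fun h => hd h.2, by omega,
        fun _ => Or.inl rfl⟩, ?_⟩
      intro o ho
      simp only [outs, List.mem_cons, List.not_mem_nil, or_false] at ho
      rcases ho with rfl | rfl <;> decide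

theorem t5R {q : List ℕ} (hpos : ∀ n ∈ q, 1 ≤ n ∧ n ≤ 3) (hl : q.length = 5)
    (h2 : Ok 3 2 (pat 3 (q.take 2))) (h3 : Ok 3 2 (pat 3 (q.drop 2))) :
    OkCut 3 .R (pat 3 q) ∨ Win 3 .R q := by
  match q, hl with
  | [a, b, c, d, e], _ =>
    by_cases hc : c = 3
    · left
      by_cases ha : a = 3 <;> by_cases hb : b = 3 <;> by_cases hd : d = 3 <;>
        by_cases he : e = 3 <;>
        simp [pat, Ok, ha, hb, hc, hd, he] at h2 h3 <;>
        simp [OkCut, cut, pat, Ok, ha, hb, hc, hd, he]
    · by_cases hab : a = 3 ∧ b = 3
      · left
        obtain ⟨ha, hb⟩ := hab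
        by_cases hd : d = 3 <;>
        by_cases he : e = 3 <;>
        simp [pat, Ok, ha, hb, hc, hd, he] at h2 h3 <;>
        simp [OkCut, cut, pat, Ok, ha, hb, hc, hd, he]
      · right
        have hd : d = 3 := by
          by_contra h
          by_cases he : e = 3 <;> simp [pat, Ok, hc, h, he] at h3
        have he : e = 3 := by
          by_contra h
          simp [pat, Ok, hc, h, hd] at h3
        subst hd; subst he
        have h1 := (hpos c (by simp)).1
        refine ⟨[a, b], [c, 3], [3], .R, by simp, rfl, ⟨fun h => hc h.1, by omega,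
          fun _ => Or.inr rfl⟩, ?_⟩
        intro o ho
        simp only [outs, List.mem_cons, List.not_mem_nil, or_false] at ho
        by_cases ha : a = 3 <;> by_cases hb : b = 3 <;>
          simp [pat, Ok, ha, hb] at h2 hab <;>
          rcases ho with rfl | rfl <;>
          simp [OkCut, cut, pat, Ok, ha, hb]

theorem t5R' {q : List ℕ} (hl : q.length = 5)
    (h2 : Ok 3 2 (pat 3 (q.take 3))) (h3 : Ok 3 2 (pat 3 (q.drop 3))) :
    OkCut 3 .R (pat 3 q) := by
  intro v hv
  have hlen : ¬ (pat 3 q).length ≤ 3 := by rw [pat_length]; omega
  simp only [cut, hlen, if_false, List.mem_cons, List.not_mem_nil, or_false] at hv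
  rcases hv with rfl | rfl
  · simpa [pat, List.map_take] using h2
  · simpa [pat, List.map_drop] using h3

/-! ## Recutting three unsaturated nodes -/

theorem count_take_drop (l : List Bool) (i : ℕ) :
    (l.take i).count true + (l.drop i).count true = l.count true := by
  rw [← List.count_append, List.take_append_drop]

theorem split2s {l : List Bool} (h : 2 ≤ l.count true) :
    ∃ i, 1 ≤ i ∧ i + 1 ≤ l.length ∧ 1 ≤ (l.take i).count true ∧ 1 ≤ (l.drop i).count true := by
  induction l with
  | nil => simp at h
  | cons a l ih =>
    cases a with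
    | true =>
      refine ⟨1, le_rfl, ?_, by simp, ?_⟩
      · rw [List.count_cons_self] at h
        have := List.count_le_length (a := true) (l := l)
        rw [List.length_cons]; omega
      · rw [List.count_cons_self] at h
        rw [List.drop_succ_cons, List.drop_zero]; omega
    | false =>
      have h' : 2 ≤ l.count true := by simpa using h
      obtain ⟨i, h1, h2, h3, h4⟩ := ih h'
      exact ⟨i + 1, by omega, by rw [List.length_cons]; omega, by simpa using h3,
        by simpa using h4⟩

theorem count_take_ge (l : List Bool) (i : ℕ) (h : l.length ≤ i + 1) :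
    l.count true ≤ (l.take i).count true + 1 := by
  have h1 := count_take_drop l i
  have h2 := List.count_le_length (a := true) (l := l.drop i)
  rw [List.length_drop] at h2
  omega

theorem count_drop1 (l : List Bool) : l.count true ≤ (l.drop 1).count true + 1 := by
  have h1 := count_take_drop l 1
  have h2 := List.count_le_length (a := true) (l := l.take 1)
  rw [List.length_take] at h2
  omega

theorem recut {m : ℕ} (hm : 4 ≤ m) {A B C : List Bool} (hA : Ok m 2 A) (hB : Ok m 2 B)
    (hC : Ok m 2 C) (ha : A.length ≠ m) (hb : B.length ≠ m) (hc : C.length ≠ m)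
    (hab : m < A.length + B.length) (hbc : m < B.length + C.length)
    (hT : A.length + B.length + C.length ≤ 2 * m) :
    ∃ j, j ≤ (A ++ B ++ C).length ∧ Ok m 2 ((A ++ B ++ C).take j) ∧
      Ok m 2 ((A ++ B ++ C).drop j) := by
  have key : ∀ i, i ≤ B.length → A.length + i ≤ m → B.length - i + C.length ≤ m →
      2 ≤ A.count true + (B.take i).count true → 2 ≤ (B.drop i).count true + C.count true →
      ∃ j, j ≤ (A ++ B ++ C).length ∧ Ok m 2 ((A ++ B ++ C).take j) ∧
      Ok m 2 ((A ++ B ++ C).drop j) := by
    intro i hi h1 h2 h3 h4
    refine ⟨A.length + i, by simp only [List.length_append]; omega, ?_, ?_⟩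
    · have e : (A ++ B ++ C).take (A.length + i) = A ++ B.take i := by
        rw [List.append_assoc, List.take_length_add_append,
          List.take_append_of_le_length hi]
      rw [e]
      refine ok_of (by rw [List.length_append, List.length_take]; omega) ?_
      rw [List.count_append]; omega
    · have e : (A ++ B ++ C).drop (A.length + i) = B.drop i ++ C := by
        rw [List.append_assoc, List.drop_length_add_append,
          List.drop_append_of_le_length hi]
      rw [e]
      refine ok_of (by rw [List.length_append, List.length_drop]; omega) ?_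
      rw [List.count_append]; omega
  have lA := hA.2.1
  have lB := hB.2.1
  have lC := hC.2.1
  have sA := hA.s1
  have sC := hC.s1
  have sB : 2 ≤ B.count true ∨ B.length ≤ 2 := by
    by_cases h : 3 ≤ B.length
    · exact Or.inl (hB.s2 h)
    · exact Or.inr (by omega)
  by_cases a3 : 3 ≤ A.length
  · have sA2 := hA.s2 a3
    by_cases c3 : 3 ≤ C.length
    · have sC2 := hC.s2 c3
      exact key (m - A.length) (by omega) (by omega) (by omega) (by omega) (by omega)
    · have h1 := count_drop1 B
      exact key 1 (by omega) (by omega) (by omega) (by omega) (by omega)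
  · by_cases c3 : 3 ≤ C.length
    · have sC2 := hC.s2 c3
      have h1 := count_take_ge B (m - 2) (by omega)
      exact key (m - 2) (by omega) (by omega) (by omega) (by omega) (by omega)
    · obtain ⟨i, h1, h2, h3, h4⟩ := split2s (l := B) (by omega)
      exact key i (by omega) (by omega) (by omega) (by omega) (by omega)

end LGI
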